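import Mathlib
import Pool.Agent.TH881.RK.Defs
import Pool.Agent.TH81.J3006

/-! Project RK of helper881, job RK-G (written by helper615, adapted from `TH81/J3006.lean`):
the local example near density one. -/

set_option autoImplicit false
set_option linter.unusedVariables false

namespace Pool.Agent.TH615.J3808

open Finset Filter Topology
open Pool.Agent.TH881
open Pool.Agent.TH881.RG
open Pool.Agent.TH881.RQ
open Pool.Agent.TH881.RK
open Pool.Agent.TH81.RQJ
open Pool.Agent.H373R2.T7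

/-! ### one prime -/

/-- the largest number of bad arguments -/
def sk (pr : Bool) (m p : ℕ) : ℕ := min m (Aq pr p - 1)

lemma sk_lt (pr : Bool) (m : ℕ) {p : ℕ} (hp : p.Prime) : sk pr m p < Aq pr p := by
  have := Aq_pos pr hp
  unfold sk
  omega

lemma Aq_le (pr : Bool) (p : ℕ) : Aq pr p ≤ p := by
  unfold Aq
  split_ifs <;> omega

open Classical in
lemma card_arg (pr : Bool) {p : ℕ} (hp : p.Prime) [NeZero p] :
    ((univ : Finset (ZMod p)).filter (fun x => (pr = true → x ≠ 0))).card = Aq pr p := by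
  rw [← card_args pr hp]
  symm
  refine card_bij (fun a _ => (a : ZMod p)) ?_ ?_ ?_
  · intro a ha
    rw [mem_filter] at ha ⊢
    exact ⟨mem_univ _, fun h h0 => ha.2 h ((ZMod.natCast_eq_zero_iff _ _).1 h0)⟩
  · intro a ha b hb hab
    rw [mem_filter, mem_range] at ha hb
    have h2 := (ZMod.natCast_eq_natCast_iff' a b _).1 hab
    rwa [Nat.mod_eq_of_lt ha.1, Nat.mod_eq_of_lt hb.1] at h2
  · intro x hx
    rw [mem_filter] at hx
    refine ⟨x.val, ?_, ZMod.natCast_zmod_val x⟩
    rw [mem_filter, mem_range]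
    refine ⟨ZMod.val_lt x, fun h h0 => hx.2 h ?_⟩
    rw [← ZMod.natCast_zmod_val x]
    exact (ZMod.natCast_eq_zero_iff _ _).2 h0

open Classical in
/-- number of the good arguments modulo `p` -/
lemma card_goodk (pr : Bool) {m : ℕ} (hm : 1 ≤ m) {p : ℕ} (hp : p.Prime) [NeZero p] :
    ((univ : Finset (ZMod p)).filter (fun x => (pr = true → x ≠ 0) ∧
      ∀ j : Fin m, -((min ((j : ℕ) + 1) (sk pr m p) : ℕ) : ZMod p) + x ≠ 0)).card =
      Aq pr p - sk pr m p := by
  have hlt := sk_lt pr m hp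
  have hle := Aq_le pr p
  have h1 := card_filter_add_card_filter_not
    (s := (univ : Finset (ZMod p)).filter (fun x => (pr = true → x ≠ 0)))
    (fun x : ZMod p => ∀ j : Fin m, -((min ((j : ℕ) + 1) (sk pr m p) : ℕ) : ZMod p) + x ≠ 0)
  rw [filter_filter, card_arg pr hp] at h1
  have h2 : (((univ : Finset (ZMod p)).filter (fun x => (pr = true → x ≠ 0))).filter
      (fun x : ZMod p => ¬ ∀ j : Fin m,
        -((min ((j : ℕ) + 1) (sk pr m p) : ℕ) : ZMod p) + x ≠ 0)).card = sk pr m p := by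
    have e : (((univ : Finset (ZMod p)).filter (fun x => (pr = true → x ≠ 0))).filter
      (fun x : ZMod p => ¬ ∀ j : Fin m,
        -((min ((j : ℕ) + 1) (sk pr m p) : ℕ) : ZMod p) + x ≠ 0)) =
        (Icc 1 (sk pr m p)).image (fun v : ℕ => (v : ZMod p)) := by
      ext x
      rw [mem_filter, mem_filter, mem_image]
      push Not
      constructor
      · rintro ⟨⟨_, hx⟩, j, hj⟩
        have hxe : x = ((min ((j : ℕ) + 1) (sk pr m p) : ℕ) : ZMod p) := by
          linear_combination hj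
        by_cases hs : sk pr m p = 0
        · exfalso
          rw [hs, Nat.min_zero, Nat.cast_zero] at hxe
          refine hx ?_ hxe
          by_contra hpr
          unfold sk Aq at hs
          rw [if_neg hpr] at hs
          have := hp.two_le
          omega
        · refine ⟨_, mem_Icc.2 ⟨?_, ?_⟩, hxe.symm⟩
          · omega
          · exact min_le_right _ _
      · rintro ⟨v, hv, rfl⟩
        rw [mem_Icc] at hv
        have hvm : v ≤ m := hv.2.trans (min_le_left _ _)
        refine ⟨⟨mem_univ _, fun _ h0 => ?_⟩, ⟨v - 1, by omega⟩, ?_⟩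
        · have := Nat.le_of_dvd (by omega) ((ZMod.natCast_eq_zero_iff _ _).1 h0)
          omega
        · have h3 : min (((⟨v - 1, by omega⟩ : Fin m) : ℕ) + 1) (sk pr m p) = v := by
            show min (v - 1 + 1) (sk pr m p) = v
            omega
          rw [h3]
          ring
    rw [e, card_image_of_injOn, Nat.card_Icc]
    · omega
    · intro a ha b hb hab
      rw [mem_coe, mem_Icc] at ha hb
      have h4 := (ZMod.natCast_eq_natCast_iff' a b p).1 hab
      rwa [Nat.mod_eq_of_lt (by omega), Nat.mod_eq_of_lt (by omega)] at h4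
  rw [h2] at h1
  omega

/-! ### the extremal vector -/

open Classical in
theorem exists_vec (w : ℕ) (pr : Bool) {m : ℕ} (hm : 1 ≤ m) :
    ∃ t : Fin m → ZMod (Wp w), wk pr m w t = Phq (uk pr m) w ∧ 0 < Phq (uk pr m) w := by
  have hNe : ∀ i : {p // p ∈ pz w}, NeZero (i : ℕ) := fun i => ⟨(mem_pz.1 i.2).2.ne_zero⟩
  obtain ⟨t, ht⟩ : ∃ t : Fin m → ZMod (Wp w), t = fun j : Fin m => (TH81.RQJ.Eq w).symm
      (fun i => -((min ((j : ℕ) + 1) (sk pr m i) : ℕ) : ZMod (i : ℕ))) := ⟨_, rfl⟩
  have hti : ∀ j i, ph w i (t j) = -((min ((j : ℕ) + 1) (sk pr m i) : ℕ) : ZMod (i : ℕ)) := by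
    intro j i
    rw [ph_apply, ht, RingEquiv.apply_symm_apply]
  have hgood : ((AA pr w).filter (fun a => gk t a)).card =
      ∏ i : {p // p ∈ pz w}, (Aq pr i - sk pr m i) := by
    have e1 : ((AA pr w).filter (fun a => gk t a)).card =
        (Fintype.piFinset fun i : {p // p ∈ pz w} =>
          (univ : Finset (ZMod (i : ℕ))).filter (fun x => (pr = true → x ≠ 0) ∧
            ∀ j : Fin m, -((min ((j : ℕ) + 1) (sk pr m i) : ℕ) : ZMod (i : ℕ)) + x ≠ 0)).card := by
      refine card_equiv (TH81.RQJ.Eq w).toEquiv fun a => ?_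
      rw [Fintype.mem_piFinset, mem_filter]
      unfold AA gk
      rw [mem_filter, unit_iff]
      constructor
      · rintro ⟨⟨_, h1⟩, h2⟩ i
        rw [mem_filter]
        refine ⟨mem_univ _, fun h => h1 h i, fun j => ?_⟩
        have h3 := (unit_iff w _).1 (h2 j) i
        rw [map_add, hti] at h3
        exact h3
      · intro h
        refine ⟨⟨mem_univ _, fun hpr i => ((mem_filter.1 (h i)).2.1 hpr)⟩, fun j => ?_⟩
        rw [unit_iff]
        intro i
        rw [map_add, hti]
        exact (mem_filter.1 (h i)).2.2 j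
    rw [e1, Fintype.card_piFinset]
    exact prod_congr rfl fun i _ => card_goodk pr hm (mem_pz.1 i.2).2
  have hall : (AA pr w).card = ∏ i : {p // p ∈ pz w}, Aq pr i := by
    have e1 : (AA pr w).card = (Fintype.piFinset fun i : {p // p ∈ pz w} =>
          (univ : Finset (ZMod (i : ℕ))).filter (fun x => (pr = true → x ≠ 0))).card := by
      refine card_equiv (TH81.RQJ.Eq w).toEquiv fun a => ?_
      rw [Fintype.mem_piFinset]
      unfold AA
      rw [mem_filter, unit_iff]
      constructor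
      · rintro ⟨_, h1⟩ i
        rw [mem_filter]
        exact ⟨mem_univ _, fun h => h1 h i⟩
      · intro h
        exact ⟨mem_univ _, fun hpr i => (mem_filter.1 (h i)).2 hpr⟩
    rw [e1, Fintype.card_piFinset]
    exact prod_congr rfl fun i _ => card_arg pr (mem_pz.1 i.2).2
  have hP : Phq (uk pr m) w = ∏ i : {p // p ∈ pz w}, (1 - uk pr m i) := by
    unfold Phq
    exact (Finset.prod_coe_sort (pz w) (fun p => 1 - uk pr m p)).symm
  have hone : ∀ i : {p // p ∈ pz w}, 1 - uk pr m i = ((Aq pr i - sk pr m i : ℕ) : ℝ) / Aq pr i := by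
    intro i
    have h1 := Aq_pos pr (mem_pz.1 i.2).2
    have h2 : (0 : ℝ) < Aq pr i := by exact_mod_cast h1
    have h3 : uk pr m i = (sk pr m i : ℝ) / Aq pr i := rfl
    rw [h3, Nat.cast_sub (sk_lt pr m (mem_pz.1 i.2).2).le]
    field_simp
  refine ⟨t, ?_, ?_⟩
  · unfold wk
    rw [hgood, hall, hP]
    push_cast
    rw [← prod_div_distrib]
    refine prod_congr rfl fun i _ => ?_
    rw [hone i]
  · rw [hP]
    refine prod_pos fun i _ => ?_
    rw [hone i]
    have h1 := Aq_pos pr (mem_pz.1 i.2).2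
    have h2 := sk_lt pr m (mem_pz.1 i.2).2
    have h3 : 0 < Aq pr i - sk pr m i := by omega
    have h4 : (0 : ℝ) < ((Aq pr i - sk pr m i : ℕ) : ℝ) := by exact_mod_cast h3
    have h5 : (0 : ℝ) < Aq pr i := by exact_mod_cast h1
    positivity

/-! ### the size of the parameter -/

lemma lim_aux {φ : ℕ → ℝ} {c b : ℝ} {τ : ℕ} (hb : 0 ≤ b)
    (h : Tendsto (fun w : ℕ => φ w * Real.log w ^ τ) atTop (𝓝 c)) :
    Tendsto (fun v : ℕ => φ v * (Real.log (v + 1 : ℕ) + b) ^ τ) atTop (𝓝 c) := by
  have hlog : Tendsto (fun v : ℕ => Real.log v) atTop atTop :=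
    Real.tendsto_log_atTop.comp tendsto_natCast_atTop_atTop
  have h1 : Tendsto (fun v : ℕ => (Real.log (v + 1 : ℕ) + b) / Real.log v) atTop (𝓝 1) := by
    have h2 : Tendsto (fun v : ℕ => 1 + (1 + b) / Real.log v) atTop (𝓝 (1 + 0)) :=
      (hlog.const_div_atTop (1 + b)).const_add 1
    rw [add_zero] at h2
    refine tendsto_of_tendsto_of_tendsto_of_le_of_le' tendsto_const_nhds h2 ?_ ?_
    · filter_upwards [hlog.eventually_gt_atTop 0, eventually_ge_atTop 1] with v hv hv1
      rw [le_div_iff₀ hv, one_mul]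
      have hv1' : (1 : ℝ) ≤ v := by exact_mod_cast hv1
      have : Real.log v ≤ Real.log (v + 1 : ℕ) := Real.log_le_log (by linarith) (by push_cast; linarith)
      linarith
    · filter_upwards [hlog.eventually_gt_atTop 0, eventually_ge_atTop 1] with v hv hv1
      have hv1' : (1 : ℝ) ≤ v := by exact_mod_cast hv1
      have e : 1 + (1 + b) / Real.log v = (Real.log v + (1 + b)) / Real.log v := by field_simp
      rw [e]
      apply div_le_div_of_nonneg_right _ hv.le
      have h3 : Real.log (v + 1 : ℕ) ≤ Real.log (v * 2 : ℝ) :=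
        Real.log_le_log (by positivity) (by push_cast; linarith)
      rw [Real.log_mul (by linarith) (by norm_num)] at h3
      have := Real.log_two_lt_d9
      linarith
  have h2 := h.mul (h1.pow τ)
  rw [one_pow, mul_one] at h2
  refine h2.congr' ?_
  filter_upwards [hlog.eventually_gt_atTop 0] with v hv
  rw [div_pow]
  field_simp

/-- the choice of the parameter -/
lemma choice {φ : ℕ → ℝ} (h0 : ∀ w, 0 < φ w) (hanti : Antitone φ) {c b : ℝ} {τ : ℕ} (hb : 0 ≤ b)
    (hτ : 1 ≤ τ) (h : Tendsto (fun w : ℕ => φ w * Real.log w ^ τ) atTop (𝓝 c)) (M : ℕ) {δ : ℝ}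
    (hδ : 0 < δ) : ∃ η0 : ℝ, 0 < η0 ∧ ∀ η : ℝ, 0 < η → η ≤ η0 → ∃ w : ℕ, M < w ∧ φ w ≤ η ∧
      Real.log w + b ≤ ((c + δ) / η) ^ (1 / (τ : ℝ)) := by
  have h2 := (lim_aux hb h).eventually (gt_mem_nhds (show c < c + δ by linarith))
  obtain ⟨N', hN'⟩ := eventually_atTop.1 h2
  obtain ⟨N, hN, hNM⟩ : ∃ N : ℕ, (∀ v ≥ N, φ v * (Real.log (v + 1 : ℕ) + b) ^ τ < c + δ) ∧ M ≤ N :=
    ⟨max N' M, fun v hv => hN' v ((le_max_left _ _).trans hv), le_max_right _ _⟩
  refine ⟨φ N / 2, by have := h0 N; positivity, ?_⟩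
  intro η hη hηle
  have hηN : η < φ N := by
    have := h0 N
    linarith
  have hex : ∃ w, φ w ≤ η := by
    obtain ⟨w, hw⟩ := ((lim_zero hτ h).eventually (gt_mem_nhds hη)).exists
    exact ⟨w, hw.le⟩
  obtain ⟨w, hw1, hw2⟩ : ∃ w, φ w ≤ η ∧ ∀ v < w, η < φ v := by
    classical
    exact ⟨Nat.find hex, Nat.find_spec hex, fun v hv => not_le.1 (Nat.find_min hex hv)⟩
  have hwN : N < w := by
    by_contra hcon
    have := hanti (not_lt.1 hcon)
    linarith
  obtain ⟨v, rfl⟩ : ∃ v, w = v + 1 := ⟨w - 1, by omega⟩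
  refine ⟨v + 1, by omega, hw1, ?_⟩
  have hl0 : 0 ≤ Real.log (v + 1 : ℕ) := Real.log_natCast_nonneg _
  have h3 : (Real.log (v + 1 : ℕ) + b) ^ τ ≤ (c + δ) / η := by
    rw [le_div_iff₀ hη]
    calc (Real.log (v + 1 : ℕ) + b) ^ τ * η ≤ (Real.log (v + 1 : ℕ) + b) ^ τ * φ v :=
          mul_le_mul_of_nonneg_left (hw2 v (by omega)).le (by positivity)
      _ = φ v * (Real.log (v + 1 : ℕ) + b) ^ τ := mul_comm _ _
      _ ≤ c + δ := (hN v (by omega)).le
  calc Real.log (v + 1 : ℕ) + b = ((Real.log (v + 1 : ℕ) + b) ^ τ) ^ (1 / (τ : ℝ)) := by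
        rw [one_div, Real.pow_rpow_inv_natCast (by positivity) (by omega)]
    _ ≤ ((c + δ) / η) ^ (1 / (τ : ℝ)) :=
        Real.rpow_le_rpow (by positivity) h3 (by positivity)

lemma Phq_anti (pr : Bool) (m : ℕ) : Antitone (Phq (uk pr m)) := by
  intro w w' hww
  unfold Phq
  have hsub : pz w ⊆ pz w' := by
    intro p hp
    have h := mem_pz.1 hp
    exact mem_pz.2 ⟨h.1.trans hww, h.2⟩
  have h01 : ∀ p ∈ pz w', 0 ≤ 1 - uk pr m p ∧ 1 - uk pr m p ≤ 1 := by
    intro p hp
    have hpp := (mem_pz.1 hp).2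
    have h1 := Aq_pos pr hpp
    have h2 : (0 : ℝ) < Aq pr p := by exact_mod_cast h1
    have h4 : (sk pr m p : ℝ) ≤ Aq pr p := by exact_mod_cast (sk_lt pr m hpp).le
    have h5 : uk pr m p = (sk pr m p : ℝ) / Aq pr p := rfl
    rw [h5]
    constructor
    · rw [sub_nonneg, div_le_one h2]
      exact h4
    · have : 0 ≤ (sk pr m p : ℝ) / Aq pr p := by positivity
      linarith
  rw [← prod_sdiff hsub]
  have h5 : ∏ p ∈ pz w' \ pz w, (1 - uk pr m p) ≤ 1 :=
    prod_le_one (fun p hp => (h01 p (mem_sdiff.1 hp).1).1) fun p hp => (h01 p (mem_sdiff.1 hp).1).2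
  have h6 : 0 ≤ ∏ p ∈ pz w, (1 - uk pr m p) := prod_nonneg fun p hp => (h01 p (hsub hp)).1
  nlinarith

open Classical in
theorem local_example (pr : Bool) (m : ℕ) (hm : 1 ≤ m) (c : ℝ) (hc : 0 < c)
    (hΦ : Tendsto (fun w : ℕ => Phq (uk pr m) w * Real.log w ^ m) atTop (𝓝 c)) : StOneUpK pr m c := by
  intro δ hδ
  have hpos : ∀ w, 0 < Phq (uk pr m) w := fun w => (exists_vec w pr hm).choose_spec.2
  have hm1 : (1 : ℝ) ≤ m := by exact_mod_cast hm
  have hb : 0 ≤ Real.log (2 * m) := Real.log_nonneg (by linarith)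
  obtain ⟨η0, hη0, h⟩ := choice hpos (Phq_anti pr m) hb hm hΦ (m + 1) hδ
  refine ⟨η0, hη0, fun η hη hle => ?_⟩
  obtain ⟨w, hw2, hw1, hlog⟩ := h η hη hle
  obtain ⟨t0, ht0, hP⟩ := exists_vec w pr hm
  refine ⟨w, by omega, (AA pr w).filter (fun a => ¬ gk t0 a), filter_subset _ _, ?_, ?_⟩
  · have h1 := card_filter_add_card_filter_not (s := AA pr w) (fun a => gk t0 a)
    have h2 : (((AA pr w).filter (fun a => gk t0 a)).card : ℝ) +
        ((AA pr w).filter (fun a => ¬ gk t0 a)).card = (AA pr w).card := by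
      exact_mod_cast h1
    have hA : (0 : ℝ) < (AA pr w).card := by
      rcases (Nat.cast_nonneg (AA pr w).card : (0 : ℝ) ≤ (AA pr w).card).eq_or_lt with h3 | h3
      · exfalso
        unfold wk at ht0
        rw [← h3, div_zero] at ht0
        linarith
      · exact h3
    have h3 : (((AA pr w).filter (fun a => gk t0 a)).card : ℝ) =
        Phq (uk pr m) w * (AA pr w).card := by
      rw [← ht0]
      unfold wk
      rw [div_mul_cancel₀ _ hA.ne']
    have h4 : Phq (uk pr m) w * (AA pr w).card ≤ η * (AA pr w).card :=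
      mul_le_mul_of_nonneg_right hw1 hA.le
    linarith
  · have hW : (0 : ℝ) < Wp w := by exact_mod_cast Wp_pos w
    have hWm : (0 : ℝ) < (Wp w : ℝ) ^ m := pow_pos hW m
    have hcard : (1 : ℝ) ≤ ((misk pr m w ((AA pr w).filter (fun a => ¬ gk t0 a))).card : ℝ) := by
      have h1 : 0 < (misk pr m w ((AA pr w).filter (fun a => ¬ gk t0 a))).card := by
        rw [card_pos]
        refine ⟨t0, ?_⟩
        unfold misk
        rw [mem_filter]
        refine ⟨mem_univ _, ?_, ?_⟩
        · rw [ht0]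
          exact hP.ne'
        · intro a ha
          exact (mem_filter.1 ha).2
      exact_mod_cast h1
    refine le_trans ?_ ((div_le_div_iff_of_pos_right hWm).2 hcard)
    rw [Real.exp_neg, one_div ((Wp w : ℝ) ^ m)]
    apply inv_anti₀ hWm
    have hw0 : (0 : ℝ) < w := by
      have : 0 < w := by omega
      exact_mod_cast this
    have hWle : (Wp w : ℝ) ≤ Real.exp (w * Real.log 4) := by
      calc (Wp w : ℝ) ≤ (4 : ℝ) ^ w := by exact_mod_cast Wp_le w
        _ = Real.exp (w * Real.log 4) := by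
            rw [mul_comm, Real.exp_mul, Real.exp_log (by norm_num), Real.rpow_natCast]
    calc (Wp w : ℝ) ^ m ≤ Real.exp (w * Real.log 4) ^ m := pow_le_pow_left₀ hW.le hWle m
      _ = Real.exp (m * (w * Real.log 4)) := by rw [← Real.exp_nat_mul]
      _ ≤ Real.exp (Real.exp (Real.log w + Real.log (2 * m))) := by
          apply Real.exp_le_exp.2
          rw [Real.exp_add, Real.exp_log hw0, Real.exp_log (by linarith)]
          have h4 : Real.log 4 ≤ 2 := by
            rw [show (4 : ℝ) = 2 ^ 2 by norm_num, Real.log_pow]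
            have h5 := Real.log_two_lt_d9
            push_cast
            linarith
          calc (m : ℝ) * (w * Real.log 4) = (m * w) * Real.log 4 := by ring
            _ ≤ (m * w) * 2 := mul_le_mul_of_nonneg_left h4 (by positivity)
            _ = w * (2 * m) := by ring
      _ ≤ _ := Real.exp_le_exp.2 (Real.exp_le_exp.2 hlog)

end Pool.Agent.TH615.J3808
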