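import Mathlib
import Pool.Agent.TH974.IH.Box

set_option autoImplicit false

open Finset MeasureTheory ProbabilityTheory Filter Topology
open scoped ENNReal NNReal

/-!
# IH-S2: harmonic functions on an isolated path (helper615)
-/

namespace Pool.Agent.TH615.IHS

open Pool.Agent.TH974.IH

variable {d : ℕ} {R : Type*} [CommRing R]

/-- the contribution of an edge -/
def tm (ω : Env d) (u : Zd d → R) (v : Zd d) (e : Ed d) : R :=
  if ω e = true then
    ((if e.1 = v then u (hd e) - u v else 0) + (if hd e = v then u e.1 - u v else 0)) else 0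

lemma flx_def (E : Finset (Ed d)) (ω : Env d) (u : Zd d → R) (v : Zd d) :
    flx E ω u v = ∑ e ∈ E, tm ω u v e := rfl

lemma hd_ne (e : Ed d) : hd e ≠ e.1 := by
  intro h
  have h1 := congrFun h e.2
  simp [hd] at h1

/-- the edges at `v` -/
def st (v : Zd d) : Finset (Ed d) :=
  (Finset.univ : Finset (Fin d)).image (fun i => (v, i)) ∪
    (Finset.univ : Finset (Fin d)).image (fun i => (v - Pi.single i 1, i))

lemma mem_st {v : Zd d} {e : Ed d} : e ∈ st v ↔ e.1 = v ∨ hd e = v := by
  unfold st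
  rw [mem_union, mem_image, mem_image]
  constructor
  · rintro (⟨i, _, rfl⟩ | ⟨i, _, rfl⟩)
    · exact Or.inl rfl
    · right; simp [hd]
  · rintro (h | h)
    · left; exact ⟨e.2, mem_univ _, by rw [← h]⟩
    · right
      refine ⟨e.2, mem_univ _, ?_⟩
      have : v - Pi.single e.2 1 = e.1 := by rw [← h]; simp [hd]
      rw [this]

lemma Lap_st (ω : Env d) (u : Zd d → R) (v : Zd d) : Lap ω u v = flx (st v) ω u v := by
  rw [flx_def]
  unfold st
  rw [sum_union]
  · rw [sum_image, sum_image, ← sum_add_distrib]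
    · unfold Lap
      refine sum_congr rfl fun i _ => ?_
      have h1 : hd ((v, i) : Ed d) ≠ v := hd_ne _
      have h2 : ((v - Pi.single i 1, i) : Ed d).1 ≠ v := by
        intro h
        have := congrFun h i
        simp at this
      have h3 : hd ((v - Pi.single i 1, i) : Ed d) = v := by simp [hd]
      unfold tm
      rw [if_neg h1, if_pos rfl, if_neg h2, if_pos h3, add_zero, zero_add]
      rfl
    · intro i _ j _ h
      exact congrArg Prod.snd h
    · intro i _ j _ h
      exact congrArg Prod.snd h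
  · rw [Finset.disjoint_left]
    intro e h1 h2
    rw [mem_image] at h1 h2
    obtain ⟨i, _, rfl⟩ := h1
    obtain ⟨j, _, h3⟩ := h2
    have h4 := congrFun (congrArg Prod.fst h3) j
    simp at h4

lemma tm_zero {ω : Env d} {u : Zd d → R} {v : Zd d} {e : Ed d} (h1 : e.1 ≠ v) (h2 : hd e ≠ v) :
    tm ω u v e = 0 := by
  unfold tm
  rw [if_neg h1, if_neg h2]
  simp

lemma tm_closed {ω : Env d} {u : Zd d → R} {v : Zd d} {e : Ed d} (h : ω e = false) :
    tm ω u v e = 0 := by
  unfold tm
  rw [h]; simp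

lemma Lap_flx {E : Finset (Ed d)} {ω : Env d} (u : Zd d → R) {v : Zd d}
    (h : ∀ e, e ∉ E → (e.1 = v ∨ hd e = v) → ω e = false) : Lap ω u v = flx E ω u v := by
  classical
  rw [Lap_st, flx_def, flx_def]
  have h1 : ∑ e ∈ st v, tm ω u v e = ∑ e ∈ E ∪ st v, tm ω u v e := by
    apply sum_subset subset_union_right
    intro e _ he
    rw [mem_st] at he
    push Not at he
    exact tm_zero he.1 he.2
  have h2 : ∑ e ∈ E, tm ω u v e = ∑ e ∈ E ∪ st v, tm ω u v e := by
    apply sum_subset subset_union_left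
    intro e he hE
    rw [mem_union] at he
    rcases he with he | he
    · exact absurd he hE
    · exact tm_closed (h e hE (mem_st.1 he))
  rw [h1, h2]

/-- the edge `e` joins `a` and `b` -/
def Jn (e : Ed d) (a b : Zd d) : Prop := (e.1 = a ∧ hd e = b) ∨ (e.1 = b ∧ hd e = a)

lemma Jn_unique {e e' : Ed d} {a b : Zd d} (h : Jn e a b) (h' : Jn e' a b) : e = e' := by
  have key : ∀ {e e' : Ed d} {a b : Zd d}, e.1 = a → hd e = b → e'.1 = a → hd e' = b → e = e' := by
    intro e e' a b h1 h2 h3 h4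
    have h5 : hd e = hd e' := by rw [h2, h4]
    unfold hd at h5
    rw [h1, h3] at h5
    have h6 := add_left_cancel h5
    have h7 : e.2 = e'.2 := by
      by_contra hc
      have h8 := congrFun h6 e.2
      rw [Pi.single_eq_same, Pi.single_eq_of_ne hc] at h8
      exact one_ne_zero h8
    exact Prod.ext (h1.trans h3.symm) h7
  have key2 : ∀ {e e' : Ed d} {a b : Zd d}, e.1 = a → hd e = b → e'.1 = b → hd e' = a → False := by
    intro e e' a b h1 h2 h3 h4
    have h5 : hd e' = e.1 := by rw [h4, h1]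
    unfold hd at h5
    rw [h3, ← h2, hd] at h5
    have h6 := congrFun h5 e.2
    simp only [Pi.add_apply, Pi.single_eq_same] at h6
    have h7 : (0 : ℤ) ≤ (Pi.single e'.2 1 : Zd d) e.2 := by
      by_cases hc : e.2 = e'.2
      · rw [hc, Pi.single_eq_same]; norm_num
      · rw [Pi.single_eq_of_ne hc]
    linarith
  rcases h with ⟨h1, h2⟩ | ⟨h1, h2⟩ <;> rcases h' with ⟨h3, h4⟩ | ⟨h3, h4⟩
  · exact key h1 h2 h3 h4
  · exact (key2 h1 h2 h3 h4).elim
  · exact (key2 h1 h2 h3 h4).elim
  · exact key h1 h2 h3 h4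

lemma Jn_exists {a b : Zd d} (h : adjd a b) : ∃ e : Ed d, Jn e a b := by
  obtain ⟨i, h | h⟩ := h
  · exact ⟨(a, i), Or.inl ⟨rfl, by simp [hd, h]⟩⟩
  · exact ⟨(b, i), Or.inr ⟨rfl, by simp [hd, h]⟩⟩

lemma Jn_ne {e : Ed d} {a b : Zd d} (h : Jn e a b) : a ≠ b := by
  rcases h with ⟨h1, h2⟩ | ⟨h1, h2⟩
  · rintro rfl; exact hd_ne e (h2.trans h1.symm)
  · rintro rfl; exact hd_ne e (h2.trans h1.symm)

lemma Jn_symm {e : Ed d} {a b : Zd d} (h : Jn e a b) : Jn e b a := h.symm

lemma tm_Jn {ω : Env d} {u : Zd d → R} {v w : Zd d} {e : Ed d} (h : Jn e v w) (ho : ω e = true) :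
    tm ω u v e = u w - u v := by
  have hne := Jn_ne h
  unfold tm
  rw [if_pos ho]
  rcases h with ⟨h1, h2⟩ | ⟨h1, h2⟩
  · rw [if_pos h1, if_neg (by rw [h2]; exact hne.symm), h2, add_zero]
  · rw [if_neg (by rw [h1]; exact hne.symm), if_pos h2, h1, zero_add]

lemma infix_two {α : Type*} {a b : α} {p : List α} : [a, b] <:+: p ↔
    ∃ (k : ℕ) (hk : k + 1 < p.length), p[k] = a ∧ p[k + 1] = b := by
  constructor
  · rintro ⟨s, t, h⟩
    subst h
    refine ⟨s.length, by simp, ?_, ?_⟩
    · simp
    · simp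
  · rintro ⟨k, hk, rfl, rfl⟩
    refine ⟨p.take k, p.drop (k + 2), ?_⟩
    have h1 : p.drop k = p[k] :: p.drop (k + 1) := List.drop_eq_getElem_cons (by omega)
    have h2 : p.drop (k + 1) = p[k + 1] :: p.drop (k + 1 + 1) := List.drop_eq_getElem_cons hk
    have h3 : p = p.take k ++ p.drop k := (List.take_append_drop k p).symm
    conv_rhs => rw [h3, h1, h2]
    simp

lemma onp_iff {p : List (Zd d)} {e : Ed d} : onp p e ↔
    ∃ (k : ℕ) (hk : k + 1 < p.length), Jn e p[k] p[k + 1] := by
  unfold onp Jn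
  rw [infix_two, infix_two]
  constructor
  · rintro (⟨k, hk, h1, h2⟩ | ⟨k, hk, h1, h2⟩)
    · exact ⟨k, hk, Or.inl ⟨h1.symm, h2.symm⟩⟩
    · exact ⟨k, hk, Or.inr ⟨h2.symm, h1.symm⟩⟩
  · rintro ⟨k, hk, ⟨h1, h2⟩ | ⟨h1, h2⟩⟩
    · exact Or.inl ⟨k, hk, h1.symm, h2.symm⟩
    · exact Or.inr ⟨k, hk, h2.symm, h1.symm⟩

lemma onp_mem {p : List (Zd d)} {e : Ed d} (h : onp p e) : e.1 ∈ p ∧ hd e ∈ p := by
  rw [onp_iff] at h
  obtain ⟨k, hk, ⟨h1, h2⟩ | ⟨h1, h2⟩⟩ := h
  · rw [h1, h2]; exact ⟨List.getElem_mem _, List.getElem_mem _⟩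
  · rw [h1, h2]; exact ⟨List.getElem_mem _, List.getElem_mem _⟩

/-- a path with its edges -/
structure Pth (E : Finset (Ed d)) (p : List (Zd d)) (ω : Env d) : Prop where
  nodup : p.Nodup
  chain : List.IsChain adjd p
  hE : ∀ e, onp p e → e ∈ E
  hω : ω ∈ Apath E p

lemma Pth.inj {E : Finset (Ed d)} {p : List (Zd d)} {ω : Env d} (h : Pth E p ω) {i j : ℕ}
    (hi : i < p.length) (hj : j < p.length) (hij : p[i] = p[j]) : i = j :=
  (List.Nodup.getElem_inj_iff h.nodup).1 hij

lemma Pth.adj {E : Finset (Ed d)} {p : List (Zd d)} {ω : Env d} (h : Pth E p ω) {k : ℕ}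
    (hk : k + 1 < p.length) : adjd p[k] p[k + 1] :=
  List.isChain_iff_getElem.1 h.chain k hk

/-- an open edge of `E` at a point of the path is an edge of the path -/
lemma Pth.open_edge {E : Finset (Ed d)} {p : List (Zd d)} {ω : Env d} (h : Pth E p ω) {e : Ed d}
    (he : e ∈ E) (ho : ω e = true) (ht : e.1 ∈ p ∨ hd e ∈ p) : onp p e := by
  by_contra hc
  have := (h.hω e he).2 hc ht
  rw [ho] at this
  exact absurd this (by simp)

lemma Pth.flx_first {E : Finset (Ed d)} {p : List (Zd d)} {ω : Env d} (h : Pth E p ω)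
    (u : Zd d → R) (h1 : 1 < p.length) : flx E ω u p[0] = u p[1] - u p[0] := by
  obtain ⟨e, he⟩ := Jn_exists (h.adj (k := 0) (by omega))
  have hon : onp p e := onp_iff.2 ⟨0, by omega, he⟩
  have heE := h.hE e hon
  rw [flx_def, sum_eq_single_of_mem e heE, tm_Jn he ((h.hω e heE).1 hon)]
  intro e' he' hne
  by_cases hc : ω e' = true
  · by_cases ht : e'.1 = p[0] ∨ hd e' = p[0]
    · exfalso
      have hon' : onp p e' := h.open_edge he' hc (by
        rcases ht with ht | ht
        · left; rw [ht]; exact List.getElem_mem _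
        · right; rw [ht]; exact List.getElem_mem _)
      obtain ⟨k, hk, hj⟩ := onp_iff.1 hon'
      have hk0 : k = 0 := by
        rcases hj with ⟨j1, j2⟩ | ⟨j1, j2⟩ <;> rcases ht with ht | ht
        · exact h.inj _ _ (j1.symm.trans ht)
        · have := h.inj _ _ (j2.symm.trans ht); omega
        · have := h.inj _ _ (j1.symm.trans ht); omega
        · exact h.inj _ _ (j2.symm.trans ht)
      subst hk0
      exact hne (Jn_unique hj he)
    · push Not at ht
      exact tm_zero ht.1 ht.2
  · exact tm_closed (by simpa using hc)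

lemma Pth.flx_last {E : Finset (Ed d)} {p : List (Zd d)} {ω : Env d} (h : Pth E p ω)
    (u : Zd d → R) {k : ℕ} (h1 : k + 2 = p.length) :
    flx E ω u (p[k + 1]'(by omega)) = u (p[k]'(by omega)) - u (p[k + 1]'(by omega)) := by
  obtain ⟨e, he⟩ := Jn_exists (h.adj (k := k) (by omega))
  have hon : onp p e := onp_iff.2 ⟨k, by omega, he⟩
  have heE := h.hE e hon
  rw [flx_def, sum_eq_single_of_mem e heE, tm_Jn (Jn_symm he) ((h.hω e heE).1 hon)]
  intro e' he' hne
  by_cases hc : ω e' = true
  · by_cases ht : e'.1 = p[k + 1]'(by omega) ∨ hd e' = p[k + 1]'(by omega)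
    · exfalso
      have hon' : onp p e' := h.open_edge he' hc (by
        rcases ht with ht | ht
        · left; rw [ht]; exact List.getElem_mem _
        · right; rw [ht]; exact List.getElem_mem _)
      obtain ⟨l, hl, hj⟩ := onp_iff.1 hon'
      have hk0 : l = k := by
        rcases hj with ⟨j1, j2⟩ | ⟨j1, j2⟩ <;> rcases ht with ht | ht
        · have := h.inj _ _ (j1.symm.trans ht); omega
        · have := h.inj _ _ (j2.symm.trans ht); omega
        · have := h.inj _ _ (j1.symm.trans ht); omega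
        · have := h.inj _ _ (j2.symm.trans ht); omega
      subst hk0
      exact hne (Jn_unique hj he)
    · push Not at ht
      exact tm_zero ht.1 ht.2
  · exact tm_closed (by simpa using hc)

lemma Pth.flx_mid {E : Finset (Ed d)} {p : List (Zd d)} {ω : Env d} (h : Pth E p ω)
    (u : Zd d → R) {k : ℕ} (h1 : k + 2 < p.length) :
    flx E ω u p[k + 1] = (u p[k] - u p[k + 1]) + (u p[k + 2] - u p[k + 1]) := by
  classical
  obtain ⟨e, he⟩ := Jn_exists (h.adj (k := k) (by omega))
  obtain ⟨e2, he2⟩ := Jn_exists (h.adj (k := k + 1) (by omega))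
  have hon : onp p e := onp_iff.2 ⟨k, by omega, he⟩
  have hon2 : onp p e2 := onp_iff.2 ⟨k + 1, by omega, he2⟩
  have heE := h.hE e hon
  have heE2 := h.hE e2 hon2
  have hne : e ≠ e2 := by
    rintro rfl
    rcases he with ⟨a1, a2⟩ | ⟨a1, a2⟩ <;> rcases he2 with ⟨b1, b2⟩ | ⟨b1, b2⟩
    · have := h.inj _ _ (a1.symm.trans b1); omega
    · have := h.inj _ _ (a1.symm.trans b1); omega
    · have := h.inj _ _ (a2.symm.trans b2); omega
    · have := h.inj _ _ (a1.symm.trans b1); omega
  have hsub : ({e, e2} : Finset (Ed d)) ⊆ E := by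
    intro f hf
    rw [mem_insert, mem_singleton] at hf
    rcases hf with rfl | rfl
    · exact heE
    · exact heE2
  rw [flx_def, ← sum_subset hsub, sum_pair hne, tm_Jn (Jn_symm he) ((h.hω e heE).1 hon),
    tm_Jn he2 ((h.hω e2 heE2).1 hon2)]
  intro e' he' hne'
  rw [mem_insert, mem_singleton] at hne'
  push Not at hne'
  by_cases hc : ω e' = true
  · by_cases ht : e'.1 = p[k + 1] ∨ hd e' = p[k + 1]
    · exfalso
      have hon' : onp p e' := h.open_edge he' hc (by
        rcases ht with ht | ht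
        · left; rw [ht]; exact List.getElem_mem _
        · right; rw [ht]; exact List.getElem_mem _)
      obtain ⟨l, hl, hj⟩ := onp_iff.1 hon'
      have hk0 : l = k ∨ l = k + 1 := by
        rcases hj with ⟨j1, j2⟩ | ⟨j1, j2⟩ <;> rcases ht with ht | ht
        · have := h.inj _ _ (j1.symm.trans ht); omega
        · have := h.inj _ _ (j2.symm.trans ht); omega
        · have := h.inj _ _ (j1.symm.trans ht); omega
        · have := h.inj _ _ (j2.symm.trans ht); omega
      rcases hk0 with rfl | rfl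
      · exact hne'.1 (Jn_unique hj he)
      · exact hne'.2 (Jn_unique hj he2)
    · push Not at ht
      exact tm_zero ht.1 ht.2
  · exact tm_closed (by simpa using hc)

/-- off the path -/
lemma Pth.flx_off {E : Finset (Ed d)} {p : List (Zd d)} {ω : Env d} (h : Pth E p ω)
    (u : Zd d → R) {v : Zd d} (hv : v ∉ p)
    (hu : ∀ e ∈ E, e.1 ∉ p → hd e ∉ p → (e.1 = v ∨ hd e = v) → u e.1 = u (hd e)) :
    flx E ω u v = 0 := by
  rw [flx_def]
  refine sum_eq_zero fun e he => ?_
  by_cases hc : ω e = true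
  · by_cases ht : e.1 = v ∨ hd e = v
    · have h1 : e.1 ∉ p := by
        intro hm
        have := onp_mem (h.open_edge he hc (Or.inl hm))
        rcases ht with ht | ht
        · exact hv (ht ▸ this.1)
        · exact hv (ht ▸ this.2)
      have h2 : hd e ∉ p := by
        intro hm
        have := onp_mem (h.open_edge he hc (Or.inr hm))
        rcases ht with ht | ht
        · exact hv (ht ▸ this.1)
        · exact hv (ht ▸ this.2)
      have h3 := hu e he h1 h2 ht
      unfold tm
      rcases ht with ht | ht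
      · subst ht
        rw [if_pos rfl, h3]
        simp
      · subst ht
        rw [if_pos rfl, h3]
        simp
    · push Not at ht
      exact tm_zero ht.1 ht.2
  · exact tm_closed (by simpa using hc)

lemma IsP_first {V : Finset (Zd d)} {p : List (Zd d)} {x y : Zd d} (h : IsP V p x y) :
    p[0]'(by have := h.len; omega) = x := by
  have h1 := h.head
  rw [List.head?_eq_getElem?, List.getElem?_eq_getElem (by have := h.len; omega)] at h1
  exact Option.some_injective _ h1

lemma IsP_last {V : Finset (Zd d)} {p : List (Zd d)} {x y : Zd d} (h : IsP V p x y) {k : ℕ}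
    (hk : k + 1 = p.length) : p[k]'(by omega) = y := by
  have h1 := h.last
  rw [List.getLast?_eq_getElem?, List.getElem?_eq_getElem (by have := h.len; omega)] at h1
  have h2 := Option.some_injective _ h1
  have h3 : p.length - 1 = k := by omega
  simpa only [h3] using h2

/-- interior points of the path -/
lemma IsP_mid {V : Finset (Zd d)} {p : List (Zd d)} {x y : Zd d} (h : IsP V p x y) {k : ℕ}
    (hk : k + 2 < p.length) : p[k + 1] ∈ V := by
  rcases h.mem p[k + 1] (List.getElem_mem _) with h1 | h1 | h1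
  · exfalso
    rw [← IsP_first h] at h1
    have := (List.Nodup.getElem_inj_iff h.nodup).1 h1
    omega
  · exfalso
    rw [← IsP_last h (k := p.length - 1) (by omega)] at h1
    have := (List.Nodup.getElem_inj_iff h.nodup).1 h1
    omega
  · exact h1

end Pool.Agent.TH615.IHS

namespace Pool.Agent.TH974.IH

open Pool.Agent.TH615.IHS

theorem S1lin {d : ℕ} {R : Type*} [CommRing R] (V : Finset (Zd d)) (E : Finset (Ed d))
    (x y : Zd d) (pl : List (Zd d)) (hpl : IsP V pl x y) (hx : x ∉ V) (hy : y ∉ V)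
    (hE : ∀ e, onp pl e → e ∈ E) (ω : Env d) (hω : ω ∈ Apath E pl)
    (hcl : ∀ e, e ∉ E → (e.1 ∈ V ∨ hd e ∈ V) → ω e = false) (u : Zd d → R)
    (hu : ∀ v ∈ V, Lap ω u v = 0) :
    ∃ I : R, (∀ (k : ℕ) (hk : k < pl.length), u pl[k] = u x + k * I) ∧ flx E ω u x = I ∧
      flx E ω u y = -I := by
  have hP : Pth E pl ω := ⟨hpl.nodup, hpl.chain, hE, hω⟩
  have hlen := hpl.len
  have h0 : pl[0] = x := IsP_first hpl
  have hstep : ∀ (k : ℕ) (hk : k + 2 < pl.length),
      u pl[k + 2] - u pl[k + 1] = u pl[k + 1] - u pl[k] := by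
    intro k hk
    have h1 := IsP_mid hpl hk
    have h2 := hu _ h1
    rw [Lap_flx (E := E) u (fun e he ht => hcl e he (by
      rcases ht with ht | ht
      · left; rw [ht]; exact h1
      · right; rw [ht]; exact h1)), hP.flx_mid u hk] at h2
    linear_combination h2
  have hstep2 : ∀ (k : ℕ) (hk : k + 1 < pl.length), u pl[k + 1] - u pl[k] = u pl[1] - u pl[0] := by
    intro k
    induction k with
    | zero => intro hk; rfl
    | succ k ih =>
      intro hk
      rw [hstep k hk, ih (by omega)]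
  refine ⟨u pl[1] - u pl[0], ?_, ?_, ?_⟩
  · intro k
    induction k with
    | zero => intro hk; rw [h0]; simp
    | succ k ih =>
      intro hk
      have h1 := ih (by omega)
      have h2 := hstep2 k hk
      push_cast
      linear_combination h1 + h2
  · conv_lhs => rw [← h0]
    rw [hP.flx_first u (by omega)]
  · obtain ⟨k, hk⟩ : ∃ k, k + 2 = pl.length := ⟨pl.length - 2, by omega⟩
    rw [← IsP_last hpl (k := k + 1) (by omega), hP.flx_last u hk]
    have := hstep2 k (by omega)
    linear_combination -this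

theorem gad_not_path {d : ℕ} (q : ℕ) (hq : 2 ≤ q) (V : Finset (Zd d)) (E : Finset (Ed d))
    (x y : Zd d) (pl : List (Zd d)) (hpl : IsP V pl x y) (hx : x ∉ V) (hy : y ∉ V)
    (hE : ∀ e, onp pl e → e ∈ E) (β : Env d) (hβ : Gad q (pl.length - 1) E V x y β) :
    β ∉ Apath E pl := by
  intro hA
  classical
  have hP : Pth E pl β := ⟨hpl.nodup, hpl.chain, hE, hA⟩
  have hlen := hpl.len
  have h0 : pl[0] = x := IsP_first hpl
  let u : Zd d → ℤ := fun v => if v ∈ pl then (pl.idxOf v : ℤ) else 0
  have hui : ∀ (k : ℕ) (hk : k < pl.length), u pl[k] = k := by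
    intro k hk
    simp only [u]
    rw [if_pos (List.getElem_mem _), List.Nodup.idxOf_getElem hpl.nodup]
  have hun : ∀ v, v ∉ pl → u v = 0 := fun v hv => if_neg hv
  obtain ⟨_, _, h3⟩ := hβ u (by
    intro v hv hvx hvy
    by_cases hm : v ∈ pl
    · obtain ⟨k, hk, rfl⟩ := List.getElem_of_mem hm
      have hk0 : k ≠ 0 := by
        rintro rfl
        exact hvx h0
      have hk1 : k + 1 ≠ pl.length := by
        intro h
        exact hvy (IsP_last hpl h)
      obtain ⟨l, rfl⟩ : ∃ l, k = l + 1 := ⟨k - 1, by omega⟩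
      rw [hP.flx_mid u (k := l) (by omega), hui, hui, hui]
      push_cast; ring
    · apply hP.flx_off u hm
      intro e _ h1 h2 _
      rw [hun _ h1, hun _ h2])
  rw [← h0, hP.flx_first u (by omega), hui, hui] at h3
  push_cast at h3
  have h4 : (q : ℤ) ∣ 1 := by simpa using h3
  have h5 := Int.le_of_dvd one_pos h4
  omega

end Pool.Agent.TH974.IH
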