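import Mathlib
import Pool.Agent.TH278.Defs
set_option autoImplicit false

/-! # Bounded overlap of sums of caps of two circles with different radii -/

namespace Pool.Agent.TH615.J613

open MeasureTheory Set Complex

theorem sq_le_one' (r : ℝ) (h0 : 1 / 2 ≤ r) (h1 : r ≤ 1) : r ^ 2 ≤ 1 := by
  nlinarith

theorem le_of_sq_le (a t : ℝ) (h : a ^ 2 + t ^ 2 ≤ 1 + 1 / 200) (h0 : 1 / 20 ≤ t) : t ≤ 101 / 100 := by
  by_contra hc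
  push Not at hc
  have h1 : (101 / 100 : ℝ) * (101 / 100) < t * t := mul_lt_mul'' hc hc (by norm_num) (by norm_num)
  have h2 : 0 ≤ a ^ 2 := sq_nonneg a
  have h3 : t ^ 2 = t * t := sq t
  linarith

theorem sq_up (y : ℝ) (h0 : 1 / 10 ≤ y) (h : y ≤ 202 / 100) : y ^ 2 ≤ 41 / 10 := by
  have h1 : y * y ≤ (202 / 100) * (202 / 100) := mul_le_mul h h (by linarith) (by norm_num)
  have h3 : y ^ 2 = y * y := sq y
  linarith

theorem sq_low (x y : ℝ) (h0 : 1 / 10 ≤ y) : 1 / 100 ≤ x ^ 2 + y ^ 2 := by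
  have h1 : (1 / 10 : ℝ) * (1 / 10) ≤ y * y := mul_le_mul h0 h0 (by norm_num) (by linarith)
  have h3 : y ^ 2 = y * y := sq y
  have h2 : 0 ≤ x ^ 2 := sq_nonneg x
  linarith

theorem prod_up (a y : ℝ) (h0 : 1 / 20 ≤ a) (h : a ≤ 101 / 100) (h0' : 1 / 10 ≤ y)
    (h' : y ≤ 202 / 100) : |2 * a * y| ≤ 41 / 10 := by
  have h3 : 0 ≤ 2 * a * y := by positivity
  rw [abs_of_nonneg h3]
  have h1 : a * y ≤ (101 / 100) * (202 / 100) := mul_le_mul h h' (by linarith) (by norm_num)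
  linarith

theorem fin_ineq (ε a b c d : ℝ) (h0 : 0 < ε) (h1 : ε ≤ 1 / 400) (b1 : |a| ≤ 4 * ε * (41 / 10))
    (b2 : |b| ≤ 4 * ε * (41 / 10)) (b3 : |c| ≤ 4 * ε * (4 * ε))
    (b4 : |d| ≤ 4 * ε * (2 * (8 / 5) * (8 / 5))) : |a - b - c + d| ≤ 54 * ε := by
  have h2 : 4 * ε * (4 * ε) ≤ ε * (1 / 25) := by
    have := mul_le_mul_of_nonneg_left h1 h0.le
    linarith
  have h3 : 4 * ε * (41 / 10) = ε * (164 / 10) := by ring
  have h4 : 4 * ε * (2 * (8 / 5) * (8 / 5)) = ε * (512 / 25) := by ring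
  rw [h3] at b1 b2
  rw [h4] at b4
  rw [abs_le] at b1 b2 b3 b4 ⊢
  constructor <;> linarith [b1.1, b1.2, b2.1, b2.2, b3.1, b3.2, b4.1, b4.2]

theorem core (ε r s x y P1 P2 R1 R2 : ℝ) (h0 : 0 < ε) (h1 : ε ≤ 1 / 400)
    (hr1 : r ≤ 1) (hs1 : s ≤ 1) (hr0 : 1 / 2 ≤ r) (hs0 : 1 / 2 ≤ s)
    (hP : |r ^ 2 - (P1 ^ 2 + P2 ^ 2)| ≤ 2 * ε)
    (hP' : |s ^ 2 - ((x - P1) ^ 2 + (y - P2) ^ 2)| ≤ 2 * ε)
    (hR : |r ^ 2 - (R1 ^ 2 + R2 ^ 2)| ≤ 2 * ε)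
    (hR' : |s ^ 2 - ((x - R1) ^ 2 + (y - R2) ^ 2)| ≤ 2 * ε)
    (bP : |P1| ≤ 4 / 5) (bR : |R1| ≤ 4 / 5) (bR' : |x - R1| ≤ 4 / 5)
    (yR : 1 / 20 ≤ R2) (yR' : 1 / 20 ≤ y - R2) :
    |(P1 - R1) * (P1 - R1 + 2 * y * (R1 * y - R2 * x) / (x ^ 2 + y ^ 2))| ≤ 5400 * ε := by
  rw [abs_le] at hP hP' hR hR' bP bR bR'
  have hr2 : r ^ 2 ≤ 1 := sq_le_one' r hr0 hr1
  have hs2 : s ^ 2 ≤ 1 := sq_le_one' s hs0 hs1
  have hR2 : R2 ≤ 101 / 100 := le_of_sq_le R1 R2 (by linarith [hR.1]) yR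
  have hyR2 : y - R2 ≤ 101 / 100 := le_of_sq_le (x - R1) (y - R2) (by linarith [hR'.1]) yR'
  have hy : 1 / 10 ≤ y := by linarith
  have hy2 : y ≤ 202 / 100 := by linarith
  obtain ⟨D1, hD1⟩ : ∃ D, D = P1 - R1 := ⟨_, rfl⟩
  obtain ⟨D2, hD2⟩ : ∃ D, D = P2 - R2 := ⟨_, rfl⟩
  have eP1 : P1 = R1 + D1 := by linarith
  have eP2 : P2 = R2 + D2 := by linarith
  obtain ⟨w, hw⟩ : ∃ w, w = D1 * (2 * R1 + D1) + D2 * (2 * R2 + D2) := ⟨_, rfl⟩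
  obtain ⟨u, hu⟩ : ∃ u, u = D1 * x + D2 * y := ⟨_, rfl⟩
  have bw : |w| ≤ 4 * ε := by
    have : w = (P1 ^ 2 + P2 ^ 2) - (R1 ^ 2 + R2 ^ 2) := by rw [hw, eP1, eP2]; ring
    rw [abs_le]
    constructor <;> linarith [hP.1, hP.2, hR.1, hR.2]
  have bu : |u| ≤ 4 * ε := by
    have : 2 * u = (P1 ^ 2 + P2 ^ 2) - ((x - P1) ^ 2 + (y - P2) ^ 2) - (R1 ^ 2 + R2 ^ 2) +
        ((x - R1) ^ 2 + (y - R2) ^ 2) := by rw [hu, eP1, eP2]; ring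
    rw [abs_le]
    constructor <;> linarith [hP.1, hP.2, hP'.1, hP'.2, hR.1, hR.2, hR'.1, hR'.2]
  have bD : |D1| ≤ 8 / 5 := by
    rw [abs_le]
    constructor <;> linarith [bP.1, bP.2, bR.1, bR.2]
  have bx : |x| ≤ 8 / 5 := by
    rw [abs_le]
    constructor <;> linarith [bR.1, bR.2, bR'.1, bR'.2]
  have hlow : 1 / 100 ≤ x ^ 2 + y ^ 2 := sq_low x y hy
  have hpos : 0 < x ^ 2 + y ^ 2 := by linarith
  have key : D1 * (D1 * (x ^ 2 + y ^ 2) + 2 * y * (R1 * y - R2 * x)) =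
      w * y ^ 2 - u * (2 * R2 * y) - u * u + u * (2 * D1 * x) := by
    rw [hw, hu]; ring
  have h4ε : 0 ≤ 4 * ε := by linarith
  have b1 : |w * y ^ 2| ≤ 4 * ε * (41 / 10) := by
    rw [abs_mul, abs_of_nonneg (sq_nonneg y)]
    exact mul_le_mul bw (sq_up y hy hy2) (sq_nonneg y) h4ε
  have b2 : |u * (2 * R2 * y)| ≤ 4 * ε * (41 / 10) := by
    rw [abs_mul]
    exact mul_le_mul bu (prod_up R2 y yR hR2 hy hy2) (abs_nonneg _) h4ε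
  have b3 : |u * u| ≤ 4 * ε * (4 * ε) := by
    rw [abs_mul]
    exact mul_le_mul bu bu (abs_nonneg _) h4ε
  have b4 : |u * (2 * D1 * x)| ≤ 4 * ε * (2 * (8 / 5) * (8 / 5)) := by
    rw [abs_mul]
    refine mul_le_mul bu ?_ (abs_nonneg _) h4ε
    rw [abs_mul, abs_mul, abs_of_pos (by norm_num : (0:ℝ) < 2)]
    exact mul_le_mul (mul_le_mul_of_nonneg_left bD (by norm_num)) bx (abs_nonneg _) (by norm_num)
  have hb : |D1 * (D1 * (x ^ 2 + y ^ 2) + 2 * y * (R1 * y - R2 * x))| ≤ 54 * ε := by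
    rw [key]
    exact fin_ineq ε _ _ _ _ h0 h1 b1 b2 b3 b4
  have hfac : (P1 - R1) * (P1 - R1 + 2 * y * (R1 * y - R2 * x) / (x ^ 2 + y ^ 2)) =
      D1 * (D1 * (x ^ 2 + y ^ 2) + 2 * y * (R1 * y - R2 * x)) / (x ^ 2 + y ^ 2) := by
    rw [← hD1]; field_simp
  rw [hfac, abs_div, abs_of_pos hpos, div_le_iff₀ hpos]
  have : 5400 * ε * (1 / 100) ≤ 5400 * ε * (x ^ 2 + y ^ 2) :=
    mul_le_mul_of_nonneg_left hlow (by linarith)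
  linarith

theorem dich (L p q : ℝ) (hL : 10 ≤ L) (h : |p * q| ≤ 5400 * (1 / L ^ 2)) :
    |L * p| ≤ 74 ∨ |L * q| ≤ 74 := by
  by_contra hc
  push Not at hc
  obtain ⟨h1, h2⟩ := hc
  have hL0 : 0 < L := by linarith
  have h3 : (74 : ℝ) * 74 < |L * p| * |L * q| :=
    mul_lt_mul'' h1 h2 (by norm_num) (by norm_num)
  have h4 : |L * p| * |L * q| = L ^ 2 * |p * q| := by
    rw [abs_mul, abs_mul, abs_mul, abs_of_pos hL0]; ring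
  rw [h4] at h3
  have h5 : L ^ 2 * |p * q| ≤ L ^ 2 * (5400 * (1 / L ^ 2)) :=
    mul_le_mul_of_nonneg_left h (by positivity)
  have h6 : L ^ 2 * (5400 * (1 / L ^ 2)) = 5400 := by field_simp
  rw [h6] at h5
  linarith

theorem memI (u t : ℝ) (a : ℤ) (h1 : |u - a| ≤ 1) (h2 : |u - t| ≤ 74) :
    a ∈ Finset.Icc (⌊t⌋ - 75) (⌊t⌋ + 76) := by
  rw [abs_le] at h1 h2
  have f1 := Int.floor_le t
  have f2 := Int.lt_floor_add_one t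
  rw [Finset.mem_Icc]
  constructor
  · have : ((⌊t⌋ - 75 : ℤ) : ℝ) ≤ a := by push_cast; linarith [h1.1, h1.2, h2.1, h2.2]
    exact_mod_cast this
  · have : (a : ℝ) < ((⌊t⌋ + 76 : ℤ) : ℝ) := by push_cast; linarith [h1.1, h1.2, h2.1, h2.2]
    have : a < ⌊t⌋ + 76 := by exact_mod_cast this
    exact this.le

/-- a finite set of pairs of integers near `(s, t)` or `(s', t')` -/
noncomputable def box (s t s' t' : ℝ) : Finset (ℤ × ℤ) :=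
  (Finset.Icc (⌊s⌋ - 75) (⌊s⌋ + 76) ×ˢ Finset.Icc (⌊t⌋ - 75) (⌊t⌋ + 76)) ∪
    (Finset.Icc (⌊s'⌋ - 75) (⌊s'⌋ + 76) ×ˢ Finset.Icc (⌊t'⌋ - 75) (⌊t'⌋ + 76))

theorem box_card (s t s' t' : ℝ) : (box s t s' t').card ≤ 46208 := by
  have h : ∀ u : ℝ, (Finset.Icc (⌊u⌋ - 75) (⌊u⌋ + 76)).card = 152 := by
    intro u
    rw [Int.card_Icc]
    have : ⌊u⌋ + 76 + 1 - (⌊u⌋ - 75) = 152 := by ring
    rw [this]; rfl
  unfold box
  refine (Finset.card_union_le _ _).trans ?_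
  rw [Finset.card_product, Finset.card_product, h, h, h, h]

/-- the pairs of caps that contribute to `ξ` -/
def S (L r s : ℝ) (ξ : ℝ × ℝ) : Set (ℤ × ℤ) :=
  {p : ℤ × ℤ | ∃ P P' : ℝ × ℝ, |L * P.1 - p.1| ≤ 1 ∧ |L * P'.1 - p.2| ≤ 1 ∧
      |P.1| ≤ 4 / 5 * r ∧ |P'.1| ≤ 4 / 5 * s ∧ 1 / 10 * r ≤ P.2 ∧ 1 / 10 * s ≤ P'.2 ∧
      |r ^ 2 - (P.1 ^ 2 + P.2 ^ 2)| ≤ 2 / L ^ 2 ∧ |s ^ 2 - (P'.1 ^ 2 + P'.2 ^ 2)| ≤ 2 / L ^ 2 ∧
      P.1 + P'.1 = ξ.1 ∧ P.2 + P'.2 = ξ.2}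

theorem S_sub (L : ℝ) (hL : 20 ≤ L) (r s : ℝ) (hr0 : 1 / 2 ≤ r) (hr1 : r ≤ 1) (hs0 : 1 / 2 ≤ s)
    (hs1 : s ≤ 1) (ξ : ℝ × ℝ) : ∃ s₁ t₁ s₂ t₂ : ℝ, S L r s ξ ⊆ ↑(box s₁ t₁ s₂ t₂) := by
  rcases (S L r s ξ).eq_empty_or_nonempty with
    h | ⟨p₀, R, R', -, -, bR, bR', yR, yR', hR, hR', s1, s2⟩
  · exact ⟨0, 0, 0, 0, by rw [h]; exact Set.empty_subset _⟩
  obtain ⟨x, y⟩ := ξ
  obtain ⟨R1, R2⟩ := R
  obtain ⟨R1', R2'⟩ := R'
  obtain ⟨t0, ht0⟩ : ∃ t, t = 2 * y * (R1 * y - R2 * x) / (x ^ 2 + y ^ 2) := ⟨_, rfl⟩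
  refine ⟨L * R1, L * (x - R1), L * (R1 - t0), L * (x - R1 + t0), ?_⟩
  rintro p ⟨P, P', hp, hp', bP, bP', yP, yP', hP, hP', t1, t2⟩
  obtain ⟨P1, P2⟩ := P
  obtain ⟨P1', P2'⟩ := P'
  simp only at bR bR' yR yR' hR hR' s1 s2 hp hp' bP bP' yP yP' hP hP' t1 t2 ⊢
  have eP : P1' = x - P1 := by linarith
  have eP2 : P2' = y - P2 := by linarith
  have eR : R1' = x - R1 := by linarith
  have eR2 : R2' = y - R2 := by linarith
  subst eP eP2 eR eR2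
  have hL0 : 0 < L := by linarith
  have hε : (0 : ℝ) < 1 / L ^ 2 := by positivity
  have hε2 : 1 / L ^ 2 ≤ 1 / 400 := by
    apply one_div_le_one_div_of_le (by norm_num)
    nlinarith
  have e2 : (2 : ℝ) / L ^ 2 = 2 * (1 / L ^ 2) := by ring
  rw [e2] at hR hR' hP hP'
  have hc := core (1 / L ^ 2) r s x y P1 P2 R1 R2 hε hε2 hr1 hs1 hr0 hs0 hP hP' hR hR'
    (bP.trans (by linarith)) (bR.trans (by linarith)) (bR'.trans (by linarith))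
    (by linarith) (by linarith)
  rw [← ht0] at hc
  unfold box
  rw [Finset.coe_union]
  rcases dich L _ _ (by linarith) hc with h | h
  · left
    rw [Finset.mem_coe, Finset.mem_product]
    constructor
    · refine memI (L * P1) (L * R1) p.1 hp ?_
      have : L * P1 - L * R1 = L * (P1 - R1) := by ring
      rw [this]; exact h
    · refine memI (L * (x - P1)) (L * (x - R1)) p.2 hp' ?_
      have : L * (x - P1) - L * (x - R1) = -(L * (P1 - R1)) := by ring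
      rw [this, abs_neg]; exact h
  · right
    rw [Finset.mem_coe, Finset.mem_product]
    constructor
    · refine memI (L * P1) (L * (R1 - t0)) p.1 hp ?_
      have : L * P1 - L * (R1 - t0) = L * (P1 - R1 + t0) := by ring
      rw [this]; exact h
    · refine memI (L * (x - P1)) (L * (x - R1 + t0)) p.2 hp' ?_
      have : L * (x - P1) - L * (x - R1 + t0) = -(L * (P1 - R1 + t0)) := by ring
      rw [this, abs_neg]; exact h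

theorem overlap2 : ∃ N : ℕ, Pool.Agent.TH278.Overlap2 N := by
  refine ⟨46208, ?_⟩
  intro L hL r s hr0 hr1 hs0 hs1 ξ
  obtain ⟨a, b, c, d, h⟩ := S_sub L hL r s hr0 hr1 hs0 hs1 ξ
  refine ⟨(Finset.finite_toSet _).subset h, ?_⟩
  refine (Set.ncard_le_ncard h (Finset.finite_toSet _)).trans ?_
  rw [Set.ncard_coe_finset]
  exact box_card a b c d

end Pool.Agent.TH615.J613
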