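import Pool.Agent.TH615.MP325_g4base

/-! Job MP325-G4a. -/

set_option autoImplicit false

namespace Pool.Agent.TH615.MP325

open Pool.Agent.TH490 Finset Classical

theorem toZ_ne {N : ℕ} {x y : Pos N} (h : x ≠ y) : toZ y - toZ x ≠ 0 := by
  intro h0
  apply h
  funext i
  have h1 : ((y i : ℕ) : ℤ) - ((x i : ℕ) : ℤ) = 0 := congrFun h0 i
  apply Fin.ext
  omega

theorem Sn_pos {d : V3} (hd : d ≠ 0) : 0 < Sn d := by
  unfold Sn
  apply Nat.div_pos _ (cont_pos hd)
  have h1 : ∀ i : Fin 3, d i ≠ 0 → cont d ≤ (d i).natAbs := by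
    intro i hi
    apply Nat.le_of_dvd (Int.natAbs_pos.mpr hi)
    exact Int.natCast_dvd.mp (cont_dvd d i)
  have h2 : ∃ i, d i ≠ 0 := by
    by_contra hcon
    push Not at hcon
    exact hd (funext hcon)
  obtain ⟨i, hi⟩ := h2
  refine (h1 i hi).trans ?_
  unfold nrm
  fin_cases i
  · exact le_max_left _ _
  · exact (le_max_left _ _).trans (le_max_right _ _)
  · exact (le_max_right _ _).trans (le_max_right _ _)

theorem cop_symm {N : ℕ} {x y z w : Pos N} (h : Cop x y z w) : Cop y x z w := by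
  unfold Cop at h ⊢
  have : dot (cr (toZ x - toZ y) (toZ z - toZ y)) (toZ w - toZ y) =
      - dot (cr (toZ y - toZ x) (toZ z - toZ x)) (toZ w - toZ x) := by
    unfold dot cr
    simp only [Matrix.cons_val_zero, Matrix.cons_val_one, Matrix.cons_val_two, Matrix.head_cons,
      Matrix.tail_cons, Pi.sub_apply]
    ring
  rw [this, h, neg_zero]

theorem cr_swap (x y z : V3) : cr (x - y) (z - y) = - cr (y - x) (z - x) := by
  unfold cr
  funext i
  fin_cases i
  · simp only [Pi.sub_apply, Pi.neg_apply]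
    show (x 1 - y 1) * (z 2 - y 2) - (x 2 - y 2) * (z 1 - y 1) =
      -((y 1 - x 1) * (z 2 - x 2) - (y 2 - x 2) * (z 1 - x 1))
    ring
  · simp only [Pi.sub_apply, Pi.neg_apply]
    show (x 2 - y 2) * (z 0 - y 0) - (x 0 - y 0) * (z 2 - y 2) =
      -((y 2 - x 2) * (z 0 - x 0) - (y 0 - x 0) * (z 2 - x 2))
    ring
  · simp only [Pi.sub_apply, Pi.neg_apply]
    show (x 0 - y 0) * (z 1 - y 1) - (x 1 - y 1) * (z 0 - y 0) =
      -((y 0 - x 0) * (z 1 - x 1) - (y 1 - x 1) * (z 0 - x 0))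
    ring

theorem col_symm {N : ℕ} {x y z : Pos N} (h : Col x y z) : Col y x z := by
  unfold Col at h ⊢
  rw [cr_swap, h, neg_zero]

theorem dot_swap (a x y z : V3) (h : dot a (y - x) = 0) (h2 : dot a (z - x) = 0) :
    dot a (z - y) = 0 := by
  have : dot a (z - y) = dot a (z - x) - dot a (y - x) := by
    unfold dot
    simp only [Pi.sub_apply]
    ring
  rw [this, h, h2, sub_zero]

theorem dot_self_zero (a x : V3) : dot a (x - x) = 0 := by
  unfold dot
  simp only [Pi.sub_apply, sub_self, mul_zero, add_zero]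

theorem tny_symm {N M : ℕ} {x y z w : Pos N} (h : Tny M x y z w) : Tny M y x z w := by
  obtain ⟨a, h1, h2, h3, h4, h5⟩ := h
  exact ⟨a, h1, h2, dot_swap a _ _ _ h3 (dot_self_zero _ _), dot_swap a _ _ _ h3 h4,
    dot_swap a _ _ _ h3 h5⟩

theorem lcop_symm {N M : ℕ} {x y z w : Pos N} (h : LCop M x y z w) : LCop M y x z w :=
  ⟨cop_symm h.1, fun h' => h.2.1 (col_symm h'), fun h' => h.2.2 (tny_symm h')⟩

theorem g4symm : G4_symm := by
  intro N M x y
  unfold gL
  congr 1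
  ext t
  rw [Finset.mem_filter, Finset.mem_filter]
  exact ⟨fun h => ⟨h.1, lcop_symm h.2⟩, fun h => ⟨h.1, lcop_symm h.2⟩⟩

/-- the final form of the Abel summation over the normals -/
theorem sumVV {N : ℕ} (hN : 2 ≤ N) (m : ℕ) (V : Finset V3) (A B S : ℝ) (hA : 0 ≤ A) (hB : 0 ≤ B)
    (hS : 0 < S)
    (hV : ∀ ν ∈ V, m < nrm ν ∧ nrm ν ≤ 2 * N ^ 2)
    (hc : ∀ t, m < t → ((V.filter (fun ν => nrm ν ≤ t)).card : ℝ) * S ≤ A * S + B * (t : ℝ) ^ 2) :
    ∑ ν ∈ V, 1 / (nrm ν : ℝ) ^ 2 ≤ A / ((m : ℝ) + 1) ^ 2 + 10 * B * (Real.log N / S) := by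
  have h1 := abel V nrm m (2 * N ^ 2) A (B / S) hA (div_nonneg hB hS.le) hV (by
    intro t ht _
    have h2 := hc t ht
    rw [← le_div_iff₀ hS] at h2
    refine h2.trans (le_of_eq ?_)
    field_simp)
  refine h1.trans ?_
  have h3 := log_aux hN
  have h4 := mul_le_mul_of_nonneg_left h3 (div_nonneg hB hS.le)
  have h5 : B / S * (10 * Real.log N) = 10 * B * (Real.log N / S) := by
    field_simp
  linarith

theorem filter_card_le {N M t : ℕ} {x y : Pos N} :
    ((VV M x y).filter (fun ν => nrm ν ≤ t)).card ≤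
      ((cube t).filter (fun a => Prim a ∧ dot a (toZ y - toZ x) = 0)).card := by
  apply Finset.card_le_card
  intro ν hν
  rw [Finset.mem_filter, mem_VV] at hν
  rw [Finset.mem_filter, mem_cube]
  exact ⟨hν.2, hν.1.2.1, hν.1.2.2.2⟩

theorem g4sup (hpos : G1_pos) (hspan : G1_span) (hperp : G1_perp) : G4_sup := by
  refine ⟨38880, by norm_num, ?_⟩
  intro N hN M hM x y hxy
  have hd := toZ_ne hxy
  have hS0 := Sn_pos hd
  have hS : (0 : ℝ) < Sn (toZ y - toZ x) := by exact_mod_cast hS0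
  have hM' : (0 : ℝ) < M := by exact_mod_cast hM
  refine (gL_le hpos hspan M x y).trans ?_
  rw [← Finset.mul_sum]
  have h1 := sumVV hN M (VV M x y) 2 12 (Sn (toZ y - toZ x)) (by norm_num) (by norm_num) hS
    (fun ν hν => by rw [mem_VV] at hν; exact ⟨hν.2.2.1, hν.1⟩) (by
      intro t ht
      have h2 := hperp _ hd t
      have h3 := filter_card_le (N := N) (M := M) (t := t) (x := x) (y := y)
      have h4 := (Nat.mul_le_mul_right (Sn (toZ y - toZ x)) h3).trans h2
      exact_mod_cast h4)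
  have h5 : (2 : ℝ) / ((M : ℝ) + 1) ^ 2 ≤ 2 * (1 / (M : ℝ) ^ 2) := by
    rw [mul_one_div]
    apply div_le_div_of_nonneg_left (by norm_num) (by positivity)
    apply pow_le_pow_left₀ hM'.le
    linarith
  have hlog : 0 ≤ Real.log N / Sn (toZ y - toZ x) :=
    div_nonneg (Real.log_natCast_nonneg _) hS.le
  have h6 : (0 : ℝ) ≤ 1 / (M : ℝ) ^ 2 := by positivity
  have h7 : ∑ ν ∈ VV M x y, 1 / (nrm ν : ℝ) ^ 2 ≤
      120 * (1 / (M : ℝ) ^ 2 + Real.log N / Sn (toZ y - toZ x)) := by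
    linarith
  have h8 : (0 : ℝ) ≤ 324 * (N : ℝ) ^ 4 := by positivity
  have h9 := mul_le_mul_of_nonneg_left h7 h8
  refine h9.trans (le_of_eq ?_)
  ring

/-- two parallel primitive vectors have the same norm -/
theorem nrm_eq_of_cr {a b : V3} (ha : Prim a) (hb : Prim b) (h : cr a b = 0) :
    nrm a = nrm b := by
  -- `a i * b j = a j * b i`
  have e0 : a 1 * b 2 - a 2 * b 1 = 0 := congrFun h 0
  have e1 : a 2 * b 0 - a 0 * b 2 = 0 := congrFun h 1
  have e2 : a 0 * b 1 - a 1 * b 0 = 0 := congrFun h 2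
  have e : ∀ i j : Fin 3, a i * b j = a j * b i := by
    intro i j
    fin_cases i <;> fin_cases j <;> simp only [Fin.zero_eta, Fin.mk_one, Fin.reduceFinMk] <;>
      linarith
  have en : ∀ i j : Fin 3, (a i).natAbs * (b j).natAbs = (a j).natAbs * (b i).natAbs := by
    intro i j
    rw [← Int.natAbs_mul, ← Int.natAbs_mul, e i j]
  have key : ∀ j : Fin 3, (b j).natAbs = (a j).natAbs := by
    intro j
    -- gcd over i of |a i||b j| = |b j| gcd(a) = |b j|; also = |a j| gcd(b)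
    have h1 : Nat.gcd ((a 0).natAbs * (b j).natAbs) (Nat.gcd ((a 1).natAbs * (b j).natAbs)
        ((a 2).natAbs * (b j).natAbs)) = (b j).natAbs := by
      rw [Nat.gcd_mul_right, Nat.gcd_mul_right]
      have : Nat.gcd (a 0).natAbs (Nat.gcd (a 1).natAbs (a 2).natAbs) = 1 := ha
      rw [this, one_mul]
    have h2 : Nat.gcd ((a j).natAbs * (b 0).natAbs) (Nat.gcd ((a j).natAbs * (b 1).natAbs)
        ((a j).natAbs * (b 2).natAbs)) = (a j).natAbs := by
      rw [Nat.gcd_mul_left, Nat.gcd_mul_left]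
      have : Nat.gcd (b 0).natAbs (Nat.gcd (b 1).natAbs (b 2).natAbs) = 1 := hb
      rw [this, mul_one]
    rw [en 0 j, en 1 j, en 2 j, h2] at h1
    exact h1.symm
  unfold nrm
  rw [key 0, key 1, key 2]

theorem g4supRS (hpos : G1_pos) (hspan : G1_span) (hoff : G1_perpoff) : G4_supRS := by
  refine ⟨38880, by norm_num, ?_⟩
  intro N hN M hM x y hxy hRS
  obtain ⟨a₀, hP₀, hn₀, hd₀⟩ := hRS
  have hd := toZ_ne hxy
  have hS0 := Sn_pos hd
  have hS : (0 : ℝ) < Sn (toZ y - toZ x) := by exact_mod_cast hS0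
  refine (gL_le hpos hspan M x y).trans ?_
  rw [← Finset.mul_sum]
  have h1 := sumVV hN M (VV M x y) 0 12 (Sn (toZ y - toZ x)) (by norm_num) (by norm_num) hS
    (fun ν hν => by rw [mem_VV] at hν; exact ⟨hν.2.2.1, hν.1⟩) (by
      intro t ht
      have h2 := hoff _ hd t a₀ hP₀ (hn₀.trans ht.le) hd₀
      have h3 : ((VV M x y).filter (fun ν => nrm ν ≤ t)).card ≤
        ((cube t).filter (fun a => Prim a ∧ dot a (toZ y - toZ x) = 0 ∧ cr a a₀ ≠ 0)).card := by
        apply Finset.card_le_card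
        intro ν hν
        rw [Finset.mem_filter, mem_VV] at hν
        rw [Finset.mem_filter, mem_cube]
        refine ⟨hν.2, hν.1.2.1, hν.1.2.2.2, ?_⟩
        intro hc
        have h4 := nrm_eq_of_cr hν.1.2.1 hP₀ hc
        have h5 := hν.1.2.2.1
        omega
      have h4 := (Nat.mul_le_mul_right (Sn (toZ y - toZ x)) h3).trans h2
      have h5 : (((VV M x y).filter (fun ν => nrm ν ≤ t)).card : ℝ) * Sn (toZ y - toZ x) ≤
        12 * (t : ℝ) ^ 2 := by exact_mod_cast h4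
      linarith)
  have h7 : ∑ ν ∈ VV M x y, 1 / (nrm ν : ℝ) ^ 2 ≤
      120 * (Real.log N / Sn (toZ y - toZ x)) := by
    rw [zero_div, zero_add] at h1
    linarith
  have h8 : (0 : ℝ) ≤ 324 * (N : ℝ) ^ 4 := by positivity
  have h9 := mul_le_mul_of_nonneg_left h7 h8
  refine h9.trans (le_of_eq ?_)
  ring

theorem g4a : G1_pos → G1_span → G1_perp → G1_perpoff → G4_symm ∧ G4_sup ∧ G4_supRS :=
  fun hpos hspan hperp hoff => ⟨g4symm, g4sup hpos hspan hperp, g4supRS hpos hspan hoff⟩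

end Pool.Agent.TH615.MP325
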