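import Pool.Agent.TH615.MP325_g4a

/-! Job MP325-G4c. -/

set_option autoImplicit false

namespace Pool.Agent.TH615.MP325

open Pool.Agent.TH490 Finset Classical

theorem card_cube (s : ℕ) : (cube s).card = (2 * s + 1) ^ 3 := by
  unfold cube
  rw [Fintype.card_piFinset]
  rw [Finset.prod_const, Int.card_Icc, Finset.card_univ, Fintype.card_fin]
  congr 1
  omega

theorem sum_shell (s : ℕ) :
    ∑ ν ∈ (cube s).filter (fun ν => 0 < nrm ν), (1 : ℝ) / (nrm ν : ℝ) ^ 2 ≤ 26 * (s : ℝ) := by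
  induction s with
  | zero =>
    have : (cube 0).filter (fun ν => 0 < nrm ν) = ∅ := by
      apply Finset.filter_false_of_mem
      intro ν hν
      rw [mem_cube] at hν
      omega
    rw [this, Finset.sum_empty]
    simp
  | succ s ih =>
    have e1 : (cube (s + 1)).filter (fun ν => 0 < nrm ν) =
        (cube s).filter (fun ν => 0 < nrm ν) ∪ (cube (s + 1) \ cube s) := by
      ext ν
      rw [Finset.mem_union, Finset.mem_filter, Finset.mem_filter, Finset.mem_sdiff, mem_cube,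
        mem_cube]
      omega
    have e2 : Disjoint ((cube s).filter (fun ν => 0 < nrm ν)) (cube (s + 1) \ cube s) := by
      rw [Finset.disjoint_left]
      intro ν h1 h2
      rw [Finset.mem_filter] at h1
      rw [Finset.mem_sdiff] at h2
      exact h2.2 h1.1
    rw [e1, Finset.sum_union e2]
    have e3 : ∑ ν ∈ cube (s + 1) \ cube s, 1 / (nrm ν : ℝ) ^ 2 =
        ((cube (s + 1) \ cube s).card : ℝ) * (1 / ((s : ℝ) + 1) ^ 2) := by
      rw [← nsmul_eq_mul, ← Finset.sum_const]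
      apply Finset.sum_congr rfl
      intro ν hν
      rw [Finset.mem_sdiff, mem_cube, mem_cube] at hν
      have : nrm ν = s + 1 := by omega
      rw [this]
      push_cast
      rfl
    have e4 : (cube (s + 1) \ cube s).card + (2 * s + 1) ^ 3 = (2 * (s + 1) + 1) ^ 3 := by
      rw [← card_cube s, ← card_cube (s + 1)]
      apply Finset.card_sdiff_add_card_eq_card
      intro ν hν
      rw [mem_cube] at hν ⊢
      omega
    have e5 : ((cube (s + 1) \ cube s).card : ℝ) + (2 * (s : ℝ) + 1) ^ 3 =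
        (2 * ((s : ℝ) + 1) + 1) ^ 3 := by exact_mod_cast e4
    have e6 : ((cube (s + 1) \ cube s).card : ℝ) ≤ 26 * ((s : ℝ) + 1) ^ 2 := by
      have hs : (0 : ℝ) ≤ s := Nat.cast_nonneg _
      have h7 : (2 * ((s : ℝ) + 1) + 1) ^ 3 - (2 * (s : ℝ) + 1) ^ 3 =
        24 * ((s : ℝ) + 1) ^ 2 + 2 := by ring
      have h8 : (1 : ℝ) ≤ ((s : ℝ) + 1) ^ 2 := by
        have : (1 : ℝ) ≤ (s : ℝ) + 1 := by linarith
        exact one_le_pow₀ this
      linarith
    have e7 : ((cube (s + 1) \ cube s).card : ℝ) * (1 / ((s : ℝ) + 1) ^ 2) ≤ 26 := by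
      rw [mul_one_div, div_le_iff₀ (by positivity)]
      exact e6
    rw [e3]
    push_cast
    linarith

theorem gL_self {N : ℕ} (M : ℕ) (x : Pos N) : gL M x x = 0 := by
  unfold gL
  rw [Finset.card_eq_zero]
  apply Finset.filter_false_of_mem
  intro t _ h
  apply h.2.1
  unfold Col cr
  funext i
  fin_cases i <;> simp

theorem nrm_diff_le {N : ℕ} (x y : Pos N) : nrm (toZ y - toZ x) ≤ N := by
  have h : ∀ i, ((toZ y - toZ x) i).natAbs ≤ N := by
    intro i
    show (((y i : ℕ) : ℤ) - ((x i : ℕ) : ℤ)).natAbs ≤ N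
    have h1 := (y i).isLt
    have h2 := (x i).isLt
    omega
  unfold nrm
  exact max_le (h 0) (max_le (h 1) (h 2))

theorem Sn_le {N : ℕ} (x y : Pos N) : Sn (toZ y - toZ x) ≤ N :=
  (Nat.div_le_self _ _).trans (nrm_diff_le x y)

/-- part 2: large normals -/
theorem part2 (hperp : G1_perp) {N : ℕ} (hN : 2 ≤ N) (M : ℕ) (x y : Pos N) (hxy : x ≠ y) :
    ∑ ν ∈ (VV M x y).filter (fun ν => ¬ nrm ν ≤ Nat.sqrt N), 1 / (nrm ν : ℝ) ^ 2 ≤
      140 * (Real.log N / Sn (toZ y - toZ x)) := by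
  have hd := toZ_ne hxy
  have hS0 := Sn_pos hd
  have hS : (0 : ℝ) < Sn (toZ y - toZ x) := by exact_mod_cast hS0
  have hSN := Sn_le x y
  have h1 := sumVV hN (Nat.sqrt N) ((VV M x y).filter (fun ν => ¬ nrm ν ≤ Nat.sqrt N)) 0 14
    (Sn (toZ y - toZ x)) (by norm_num) (by norm_num) hS
    (fun ν hν => by
      rw [Finset.mem_filter, mem_VV] at hν
      exact ⟨not_le.mp hν.2, hν.1.1⟩) (by
      intro t ht
      have h2 := hperp _ hd t
      have h3 : (((VV M x y).filter (fun ν => ¬ nrm ν ≤ Nat.sqrt N)).filter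
          (fun ν => nrm ν ≤ t)).card ≤
          ((cube t).filter (fun a => Prim a ∧ dot a (toZ y - toZ x) = 0)).card := by
        apply Finset.card_le_card
        intro ν hν
        rw [Finset.mem_filter, Finset.mem_filter, mem_VV] at hν
        rw [Finset.mem_filter, mem_cube]
        exact ⟨hν.2, hν.1.1.2.1, hν.1.1.2.2.2⟩
      have h4 := (Nat.mul_le_mul_right (Sn (toZ y - toZ x)) h3).trans h2
      have h5 : Sn (toZ y - toZ x) ≤ t ^ 2 := by
        have h6 : N < (Nat.sqrt N + 1) * (Nat.sqrt N + 1) := Nat.lt_succ_sqrt N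
        have h7 : (Nat.sqrt N + 1) * (Nat.sqrt N + 1) ≤ t * t := Nat.mul_le_mul ht ht
        have h8 : t ^ 2 = t * t := by ring
        omega
      have h9 : (((VV M x y).filter (fun ν => ¬ nrm ν ≤ Nat.sqrt N)).filter
          (fun ν => nrm ν ≤ t)).card * Sn (toZ y - toZ x) ≤ 14 * t ^ 2 := by omega
      have h10 : ((((VV M x y).filter (fun ν => ¬ nrm ν ≤ Nat.sqrt N)).filter
          (fun ν => nrm ν ≤ t)).card : ℝ) * Sn (toZ y - toZ x) ≤ 14 * (t : ℝ) ^ 2 := by
        exact_mod_cast h9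
      linarith)
  rw [zero_div, zero_add] at h1
  linarith

/-- part 1: small normals, summed over the slice -/
theorem part1 (htwo : G2_twoplane) {N : ℕ} (M : ℕ) (a : V3) (hP : Prim a) (hn : nrm a ≤ M)
    (e : ℤ) (x : Pos N) :
    ∑ y ∈ univ.filter (fun y : Pos N => dot a (toZ y) = e ∧ x ≠ y),
      ∑ ν ∈ (VV M x y).filter (fun ν => nrm ν ≤ Nat.sqrt N), 1 / (nrm ν : ℝ) ^ 2 ≤
      26 * (N : ℝ) * (Nat.sqrt N : ℝ) := by
  have e1 : ∑ y ∈ univ.filter (fun y : Pos N => dot a (toZ y) = e ∧ x ≠ y),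
      ∑ ν ∈ (VV M x y).filter (fun ν => nrm ν ≤ Nat.sqrt N), 1 / (nrm ν : ℝ) ^ 2 =
      ∑ ν ∈ (cube (Nat.sqrt N)).filter (fun ν => Prim ν ∧ M < nrm ν ∧ nrm ν ≤ 2 * N ^ 2),
        ∑ y ∈ univ.filter (fun y : Pos N => (dot a (toZ y) = e ∧ x ≠ y) ∧
          dot ν (toZ y - toZ x) = 0), 1 / (nrm ν : ℝ) ^ 2 := by
    apply Finset.sum_comm'
    intro y ν
    rw [Finset.mem_filter, Finset.mem_filter, Finset.mem_filter, Finset.mem_filter, mem_VV,
      mem_cube]
    constructor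
    · rintro ⟨⟨h1, h2⟩, ⟨h3, h4, h5, h6⟩, h7⟩
      exact ⟨⟨h1, h2, h6⟩, h7, h4, h5, h3⟩
    · rintro ⟨⟨h1, h2, h6⟩, h7, h4, h5, h3⟩
      exact ⟨⟨h1, h2⟩, ⟨h3, h4, h5, h6⟩, h7⟩
  rw [e1]
  have e2 : ∀ ν ∈ (cube (Nat.sqrt N)).filter (fun ν => Prim ν ∧ M < nrm ν ∧ nrm ν ≤ 2 * N ^ 2),
      ∑ y ∈ univ.filter (fun y : Pos N => (dot a (toZ y) = e ∧ x ≠ y) ∧
          dot ν (toZ y - toZ x) = 0), 1 / (nrm ν : ℝ) ^ 2 ≤ N * (1 / (nrm ν : ℝ) ^ 2) := by
    intro ν hν
    rw [Finset.mem_filter] at hν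
    obtain ⟨-, hPν, hMν, -⟩ := hν
    rw [Finset.sum_const, nsmul_eq_mul]
    apply mul_le_mul_of_nonneg_right _ (by positivity)
    have hcr : cr a ν ≠ 0 := by
      intro hc
      have := nrm_eq_of_cr hP hPν hc
      omega
    have h1 := htwo N a ν hcr e (dot ν (toZ x))
    have h2 : (univ.filter (fun y : Pos N => (dot a (toZ y) = e ∧ x ≠ y) ∧
          dot ν (toZ y - toZ x) = 0)).card ≤
        (univ.filter (fun z : Pos N => dot a (toZ z) = e ∧ dot ν (toZ z) = dot ν (toZ x))).card := by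
      apply Finset.card_le_card
      intro y hy
      rw [Finset.mem_filter] at hy ⊢
      refine ⟨hy.1, hy.2.1.1, ?_⟩
      have h3 : dot ν (toZ y - toZ x) = dot ν (toZ y) - dot ν (toZ x) := by
        unfold dot
        simp only [Pi.sub_apply]
        ring
      have h4 := hy.2.2
      rw [h3] at h4
      linarith
    exact_mod_cast h2.trans h1
  refine (Finset.sum_le_sum e2).trans ?_
  rw [← Finset.mul_sum]
  have e3 : ∑ ν ∈ (cube (Nat.sqrt N)).filter (fun ν => Prim ν ∧ M < nrm ν ∧ nrm ν ≤ 2 * N ^ 2),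
      1 / (nrm ν : ℝ) ^ 2 ≤
      ∑ ν ∈ (cube (Nat.sqrt N)).filter (fun ν => 0 < nrm ν), 1 / (nrm ν : ℝ) ^ 2 := by
    apply Finset.sum_le_sum_of_subset_of_nonneg
    · intro ν hν
      rw [Finset.mem_filter] at hν ⊢
      exact ⟨hν.1, by omega⟩
    · intro ν _ _
      positivity
  have e4 := sum_shell (Nat.sqrt N)
  have hN : (0 : ℝ) ≤ N := Nat.cast_nonneg _
  have e5 := mul_le_mul_of_nonneg_left (e3.trans e4) hN
  refine e5.trans (le_of_eq ?_)
  ring

/-- part 2, summed over the slice -/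
theorem slice_sum {N : ℕ} (a : V3) (e : ℤ) (x : Pos N) :
    ∑ y ∈ univ.filter (fun y : Pos N => dot a (toZ y) = e ∧ x ≠ y),
      (1 : ℝ) / Sn (toZ y - toZ x) ≤
    ∑ d ∈ (cube N).filter (fun d => d ≠ 0 ∧ dot a d = e - dot a (toZ x)), (1 : ℝ) / Sn d := by
  have hinj : ∀ y₁ ∈ univ.filter (fun y : Pos N => dot a (toZ y) = e ∧ x ≠ y),
      ∀ y₂ ∈ univ.filter (fun y : Pos N => dot a (toZ y) = e ∧ x ≠ y),
      toZ y₁ - toZ x = toZ y₂ - toZ x → y₁ = y₂ := by
    intro y₁ _ y₂ _ h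
    by_contra hne
    apply toZ_ne (fun h' => hne h'.symm : y₂ ≠ y₁)
    rw [sub_left_inj] at h
    rw [h, sub_self]
  rw [← Finset.sum_image (f := fun d : V3 => (1 : ℝ) / Sn d) hinj]
  apply Finset.sum_le_sum_of_subset_of_nonneg
  · intro d hd
    rw [Finset.mem_image] at hd
    obtain ⟨y, hy, rfl⟩ := hd
    rw [Finset.mem_filter] at hy
    rw [Finset.mem_filter, mem_cube]
    refine ⟨nrm_diff_le x y, toZ_ne hy.2.2, ?_⟩
    have h3 : dot a (toZ y - toZ x) = dot a (toZ y) - dot a (toZ x) := by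
      unfold dot
      simp only [Pi.sub_apply]
      ring
    rw [h3, hy.2.1]
  · intro d _ _
    positivity

theorem g4c : G1_pos → G1_span → G1_perp → G2_slice → G2_twoplane → G4_slice := by
  intro hpos hspan hperp hslice htwo
  obtain ⟨c, hc, hsl⟩ := hslice
  refine ⟨25272 + 45360 * c, by positivity, ?_⟩
  intro N hN M hM a hP hn e x
  have hN' : (2 : ℝ) ≤ N := by exact_mod_cast hN
  have hN0 : (0 : ℝ) < N := by linarith
  -- remove `y = x`
  have h0 : ∑ y ∈ univ.filter (fun y : Pos N => dot a (toZ y) = e), (gL M x y : ℝ) =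
      ∑ y ∈ univ.filter (fun y : Pos N => dot a (toZ y) = e ∧ x ≠ y), (gL M x y : ℝ) := by
    symm
    apply Finset.sum_subset
    · intro y hy
      rw [Finset.mem_filter] at hy ⊢
      exact ⟨hy.1, hy.2.1⟩
    · intro y hy hy'
      rw [Finset.mem_filter] at hy hy'
      have : x = y := by
        by_contra hne
        exact hy' ⟨hy.1, hy.2, hne⟩
      rw [← this, gL_self, Nat.cast_zero]
  rw [h0]
  have h1 : ∀ y ∈ univ.filter (fun y : Pos N => dot a (toZ y) = e ∧ x ≠ y), (gL M x y : ℝ) ≤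
      324 * (N : ℝ) ^ 4 * (∑ ν ∈ (VV M x y).filter (fun ν => nrm ν ≤ Nat.sqrt N),
        1 / (nrm ν : ℝ) ^ 2 + 140 * (Real.log N / Sn (toZ y - toZ x))) := by
    intro y hy
    rw [Finset.mem_filter] at hy
    refine (gL_le hpos hspan M x y).trans ?_
    rw [← Finset.mul_sum]
    apply mul_le_mul_of_nonneg_left _ (by positivity)
    rw [← Finset.sum_filter_add_sum_filter_not (VV M x y) (fun ν => nrm ν ≤ Nat.sqrt N)]
    have := part2 hperp hN M x y hy.2.2
    linarith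
  refine (Finset.sum_le_sum h1).trans ?_
  rw [← Finset.mul_sum, Finset.sum_add_distrib]
  have h2 := part1 htwo M a hP hn e x
  have h3 : ∑ y ∈ univ.filter (fun y : Pos N => dot a (toZ y) = e ∧ x ≠ y),
      140 * (Real.log N / Sn (toZ y - toZ x)) ≤ 140 * Real.log N * (c * N * Real.log N) := by
    have ha : a ≠ 0 := by
      intro h
      rw [h] at hP
      have : cont (0 : V3) = 0 := by
        unfold cont
        simp
      have h' : cont (0 : V3) = 1 := hP
      omega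
    have h4 := (slice_sum a e x).trans (hsl N hN a ha (e - dot a (toZ x)))
    have h5 : ∑ y ∈ univ.filter (fun y : Pos N => dot a (toZ y) = e ∧ x ≠ y),
      140 * (Real.log N / Sn (toZ y - toZ x)) = 140 * Real.log N *
        ∑ y ∈ univ.filter (fun y : Pos N => dot a (toZ y) = e ∧ x ≠ y),
          (1 : ℝ) / Sn (toZ y - toZ x) := by
      rw [Finset.mul_sum]
      apply Finset.sum_congr rfl
      intro y _
      ring
    rw [h5]
    exact mul_le_mul_of_nonneg_left h4 (mul_nonneg (by norm_num) (Real.log_natCast_nonneg _))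
  have h4 : (0 : ℝ) ≤ 324 * (N : ℝ) ^ 4 := by positivity
  refine (mul_le_mul_of_nonneg_left (add_le_add h2 h3) h4).trans ?_
  have hsq : (Nat.sqrt N : ℝ) ≤ Real.sqrt N := Real.nat_sqrt_le_real_sqrt
  have hsq1 : 1 ≤ Real.sqrt N := by
    rw [Real.one_le_sqrt]
    linarith
  have hlog : (0.69 : ℝ) ≤ Real.log N := by
    have h5 : Real.log 2 ≤ Real.log N := Real.log_le_log (by norm_num) hN'
    have h6 := Real.log_two_gt_d9
    linarith
  have hlog2 : 1 ≤ 3 * Real.log N ^ 2 := by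
    have h5 : (0.69 : ℝ) ^ 2 ≤ Real.log N ^ 2 := pow_le_pow_left₀ (by norm_num) hlog 2
    norm_num at h5
    linarith
  have hL2 : 0 ≤ Real.log N ^ 2 := by positivity
  have p1 : 324 * (N : ℝ) ^ 4 * (26 * N * Nat.sqrt N) ≤
      25272 * ((N : ℝ) ^ 5 * Real.sqrt N * Real.log N ^ 2) := by
    have h5 : (Nat.sqrt N : ℝ) ≤ Real.sqrt N * (3 * Real.log N ^ 2) := by
      have h6 : Real.sqrt N * 1 ≤ Real.sqrt N * (3 * Real.log N ^ 2) :=
        mul_le_mul_of_nonneg_left hlog2 (Real.sqrt_nonneg _)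
      linarith
    have h7 : (0 : ℝ) ≤ 8424 * (N : ℝ) ^ 5 := by positivity
    have h8 := mul_le_mul_of_nonneg_left h5 h7
    calc _ = 8424 * (N : ℝ) ^ 5 * (Nat.sqrt N : ℝ) := by ring
      _ ≤ 8424 * (N : ℝ) ^ 5 * (Real.sqrt N * (3 * Real.log N ^ 2)) := h8
      _ = _ := by ring
  have p2 : 324 * (N : ℝ) ^ 4 * (140 * Real.log N * (c * N * Real.log N)) ≤
      45360 * c * ((N : ℝ) ^ 5 * Real.sqrt N * Real.log N ^ 2) := by
    have h5 : (0 : ℝ) ≤ 45360 * c * (N : ℝ) ^ 5 * Real.log N ^ 2 := by positivity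
    have h6 := mul_le_mul_of_nonneg_left hsq1 h5
    calc _ = 45360 * c * (N : ℝ) ^ 5 * Real.log N ^ 2 * 1 := by ring
      _ ≤ 45360 * c * (N : ℝ) ^ 5 * Real.log N ^ 2 * Real.sqrt N := h6
      _ = _ := by ring
  calc _ = 324 * (N : ℝ) ^ 4 * (26 * N * Nat.sqrt N) +
        324 * (N : ℝ) ^ 4 * (140 * Real.log N * (c * N * Real.log N)) := by ring
    _ ≤ 25272 * ((N : ℝ) ^ 5 * Real.sqrt N * Real.log N ^ 2) +
        45360 * c * ((N : ℝ) ^ 5 * Real.sqrt N * Real.log N ^ 2) := add_le_add p1 p2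
    _ = _ := by ring

end Pool.Agent.TH615.MP325
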