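import Pool.Agent.TH158.FM.Stm

set_option autoImplicit false

/-!
Job 4553 (FM-HIL): the mean square of a damped exponential sum from Hilbert's inequality.
-/

namespace Pool.Agent.TH615.J4553

open Complex MeasureTheory Set Pool.Agent.TH158.FM

noncomputable section

/-- one term of the sum -/
def c (a : ℕ → ℝ) (S C : ℝ) (n : ℕ) (x : ℝ) : ℂ :=
  (a n : ℂ) * Complex.exp (-((n * x : ℝ) : ℂ) * ((S : ℂ) + (C : ℂ) * I))

/-- the exponent of a product -/
def zz (S C : ℝ) (m n : ℕ) : ℂ :=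
  ((((m : ℝ) + n) * S : ℝ) : ℂ) + ((((m : ℝ) - n) * C : ℝ) : ℂ) * I

theorem zz_re (S C : ℝ) (m n : ℕ) : (zz S C m n).re = ((m : ℝ) + n) * S := by
  simp [zz]

theorem c_mul (a : ℕ → ℝ) (S C : ℝ) (m n : ℕ) (x : ℝ) :
    c a S C m x * (starRingEnd ℂ) (c a S C n x) =
      ((a m : ℂ) * (a n : ℂ)) * Complex.exp (-(zz S C m n) * x) := by
  unfold c zz
  rw [map_mul, Complex.conj_ofReal, ← Complex.exp_conj, mul_mul_mul_comm, ← Complex.exp_add]
  congr 2
  simp only [map_mul, map_neg, map_add, Complex.conj_ofReal, Complex.conj_I]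
  push_cast
  ring

theorem norm_sq_c (a : ℕ → ℝ) (S C : ℝ) (n : ℕ) (x : ℝ) :
    ‖c a S C n x‖ ^ 2 = a n ^ 2 * Real.exp (-(2 * n * x * S)) := by
  unfold c
  rw [norm_mul, mul_pow, Complex.norm_real, Real.norm_eq_abs, sq_abs, Complex.norm_exp,
    ← Real.exp_nat_mul]
  congr 2
  simp
  ring

theorem re_neg (S C : ℝ) (hS : 0 < S) {m : ℕ} (hm : 1 ≤ m) (n : ℕ) :
    (-(zz S C m n)).re < 0 := by
  rw [Complex.neg_re, zz_re]
  have h1 : (1 : ℝ) ≤ m := by exact_mod_cast hm
  have h2 : (0 : ℝ) ≤ n := Nat.cast_nonneg n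
  have : 0 < ((m : ℝ) + n) * S := by positivity
  linarith

theorem zz_ne (S C : ℝ) (hS : 0 < S) {m : ℕ} (hm : 1 ≤ m) (n : ℕ) : zz S C m n ≠ 0 := by
  intro h
  have := re_neg S C hS hm n
  rw [h] at this
  simp at this

theorem int_on (a : ℕ → ℝ) (S C X : ℝ) (hS : 0 < S) {m : ℕ} (hm : 1 ≤ m) (n : ℕ) :
    IntegrableOn (fun x : ℝ => c a S C m x * (starRingEnd ℂ) (c a S C n x)) (Ioi X) := by
  simp only [c_mul]
  exact (integrableOn_exp_mul_complex_Ioi (re_neg S C hS hm n) X).const_mul _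

theorem int_val (a : ℕ → ℝ) (S C X : ℝ) (hS : 0 < S) {m : ℕ} (hm : 1 ≤ m) (n : ℕ) :
    ∫ x in Ioi X, c a S C m x * (starRingEnd ℂ) (c a S C n x) =
      c a S C m X * (starRingEnd ℂ) (c a S C n X) / zz S C m n := by
  simp only [c_mul]
  rw [integral_const_mul, integral_exp_mul_complex_Ioi (re_neg S C hS hm n) X]
  rw [neg_div_neg_eq, mul_div_assoc]

/-- the integral of a square -/
theorem real_int (r : ℝ) (S X : ℝ) (hS : 0 < S) {n : ℕ} (hn : 1 ≤ n) :
    IntegrableOn (fun x : ℝ => r * Real.exp (-(2 * n * x * S))) (Ioi X) ∧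
    ∫ x in Ioi X, r * Real.exp (-(2 * n * x * S)) =
      r * Real.exp (-(2 * n * X * S)) / (2 * n * S) := by
  have h1 : (1 : ℝ) ≤ n := by exact_mod_cast hn
  have h2 : -(2 * (n : ℝ) * S) < 0 := by
    have : 0 < 2 * (n : ℝ) * S := by positivity
    linarith
  have e : ∀ x : ℝ, -(2 * (n : ℝ) * x * S) = -(2 * (n : ℝ) * S) * x := fun x => by ring
  simp only [e]
  refine ⟨(integrableOn_exp_mul_Ioi h2 X).const_mul r, ?_⟩
  rw [integral_const_mul, integral_exp_mul_Ioi h2 X, neg_div_neg_eq, mul_div_assoc]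

/-- an optimal choice of the parameter -/
theorem opt {P Q : ℝ} (hP : 0 ≤ P) (hPQ : P ≤ Q) (hQ : P = 0 → Q = 0) :
    ∃ l : ℝ, 0 < l ∧ (l * P + Q / l) / 2 ≤ Real.sqrt P * Real.sqrt Q := by
  rcases hP.eq_or_lt with h | h
  · refine ⟨1, one_pos, ?_⟩
    rw [hQ h.symm, ← h]
    simp
  · have hQ0 : 0 < Q := h.trans_le hPQ
    have p1 := Real.sqrt_pos.2 h
    have q1 := Real.sqrt_pos.2 hQ0
    refine ⟨Real.sqrt Q / Real.sqrt P, by positivity, ?_⟩
    have p2 : Real.sqrt P * Real.sqrt P = P := Real.mul_self_sqrt hP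
    have q2 : Real.sqrt Q * Real.sqrt Q = Q := Real.mul_self_sqrt hQ0.le
    have e1 : Real.sqrt Q / Real.sqrt P * P = Real.sqrt P * Real.sqrt Q := by
      rw [div_mul_eq_mul_div, div_eq_iff p1.ne']
      calc Real.sqrt Q * P = Real.sqrt Q * (Real.sqrt P * Real.sqrt P) := by rw [p2]
        _ = _ := by ring
    have e2 : Q / (Real.sqrt Q / Real.sqrt P) = Real.sqrt P * Real.sqrt Q := by
      rw [div_div_eq_mul_div, div_eq_iff q1.ne']
      calc Q * Real.sqrt P = (Real.sqrt Q * Real.sqrt Q) * Real.sqrt P := by rw [q2]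
        _ = _ := by ring
    rw [e1, e2]
    linarith

/-- the weighted bilinear form -/
theorem h2_bound (h0 : S_HIL0) (a : ℕ → ℝ) (S C : ℝ) (M : ℕ) {l : ℝ} (hl : 0 < l) (x : ℝ) :
    ‖∑ m ∈ Finset.Icc 1 M, ∑ n ∈ (Finset.Icc 1 M).erase m, ((m : ℂ) + n) / ((m : ℂ) - n) *
      (c a S C m x * (starRingEnd ℂ) (c a S C n x))‖ ≤
    Real.pi * (l * ∑ n ∈ Finset.Icc 1 M, a n ^ 2 * Real.exp (-(2 * n * x * S)) +
      (∑ n ∈ Finset.Icc 1 M, a n ^ 2 * (n : ℝ) ^ 2 * Real.exp (-(2 * n * x * S))) / l) := by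
  set A := ∑ n ∈ Finset.Icc 1 M, ‖c a S C n x‖ ^ 2 with hA
  set B := ∑ n ∈ Finset.Icc 1 M, ‖(n : ℂ) * c a S C n x‖ ^ 2 with hB
  have hA' : A = ∑ n ∈ Finset.Icc 1 M, a n ^ 2 * Real.exp (-(2 * n * x * S)) :=
    Finset.sum_congr rfl fun n _ => norm_sq_c a S C n x
  have hB' : B = ∑ n ∈ Finset.Icc 1 M, a n ^ 2 * (n : ℝ) ^ 2 * Real.exp (-(2 * n * x * S)) := by
    refine Finset.sum_congr rfl fun n _ => ?_
    rw [norm_mul, mul_pow, norm_sq_c, Complex.norm_natCast]
    ring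
  have hA0 : 0 ≤ A := Finset.sum_nonneg fun _ _ => by positivity
  have hB0 : 0 ≤ B := Finset.sum_nonneg fun _ _ => by positivity
  have e : ∑ m ∈ Finset.Icc 1 M, ∑ n ∈ (Finset.Icc 1 M).erase m, ((m : ℂ) + n) / ((m : ℂ) - n) *
      (c a S C m x * (starRingEnd ℂ) (c a S C n x)) =
      (∑ m ∈ Finset.Icc 1 M, ∑ n ∈ (Finset.Icc 1 M).erase m,
        ((m : ℂ) * c a S C m x) * (starRingEnd ℂ) (c a S C n x) / ((m : ℂ) - n)) +
      ∑ m ∈ Finset.Icc 1 M, ∑ n ∈ (Finset.Icc 1 M).erase m,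
        c a S C m x * (starRingEnd ℂ) ((n : ℂ) * c a S C n x) / ((m : ℂ) - n) := by
    rw [← Finset.sum_add_distrib]
    refine Finset.sum_congr rfl fun m _ => ?_
    rw [← Finset.sum_add_distrib]
    refine Finset.sum_congr rfl fun n _ => ?_
    rw [map_mul, Complex.conj_natCast]
    ring
  have h1 := h0 M (fun n => (n : ℂ) * c a S C n x) (fun n => c a S C n x)
  have h2 := h0 M (fun n => c a S C n x) (fun n => (n : ℂ) * c a S C n x)
  rw [e, ← hA', ← hB']
  refine (norm_add_le _ _).trans ((add_le_add h1 h2).trans ?_)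
  rw [← hA, ← hB]
  have hπ := Real.pi_pos
  have sA := Real.sq_sqrt hA0
  have sB := Real.sq_sqrt hB0
  have key : 2 * (Real.sqrt A * Real.sqrt B) ≤ l * A + B / l := by
    have h3 : 0 ≤ (l * Real.sqrt A - Real.sqrt B) ^ 2 / l := by positivity
    have h4 : (l * Real.sqrt A - Real.sqrt B) ^ 2 / l =
        l * Real.sqrt A ^ 2 + Real.sqrt B ^ 2 / l - 2 * (Real.sqrt A * Real.sqrt B) := by
      field_simp
      ring
    rw [h4, sA, sB] at h3
    linarith
  calc Real.pi * (Real.sqrt B * Real.sqrt A) + Real.pi * (Real.sqrt A * Real.sqrt B)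
      = Real.pi * (2 * (Real.sqrt A * Real.sqrt B)) := by ring
    _ ≤ _ := mul_le_mul_of_nonneg_left key hπ.le

/-- the mean square of a damped exponential sum -/
theorem hil_all (h0 : S_HIL0) : S_HIL := by
  intro M a S C X hS hC
  set s := Finset.Icc 1 M with hs
  have hs1 : ∀ n ∈ s, 1 ≤ n := fun n hn => (Finset.mem_Icc.1 hn).1
  set P := ∑ n ∈ s, a n ^ 2 * Real.exp (-(2 * n * X * S)) / n with hP
  set Q := ∑ n ∈ s, a n ^ 2 * Real.exp (-(2 * n * X * S)) * n with hQ
  set A := ∑ n ∈ s, a n ^ 2 * Real.exp (-(2 * n * X * S)) with hA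
  have hP0 : 0 ≤ P := Finset.sum_nonneg fun _ _ => by positivity
  have hPQ : P ≤ Q := by
    refine Finset.sum_le_sum fun n hn => ?_
    have h1 : (1 : ℝ) ≤ n := by exact_mod_cast hs1 n hn
    have h2 : 0 ≤ a n ^ 2 * Real.exp (-(2 * n * X * S)) := by positivity
    refine (div_le_self h2 h1).trans ?_
    nlinarith
  have hQ0 : P = 0 → Q = 0 := by
    intro h
    have h1 := (Finset.sum_eq_zero_iff_of_nonneg (fun n _ => by positivity)).1 h
    refine Finset.sum_eq_zero fun n hn => ?_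
    have h2 := h1 n hn
    have h3 : (n : ℝ) ≠ 0 := by
      have : (1 : ℝ) ≤ n := by exact_mod_cast hs1 n hn
      linarith
    rw [div_eq_zero_iff] at h2
    rcases h2 with h2 | h2
    · rw [h2, zero_mul]
    · exact absurd h2 h3
  obtain ⟨l, hl, hopt⟩ := opt hP0 hPQ hQ0
  set L := ∫ x in Ioi X, ‖∑ n ∈ s, (a n : ℂ) * Complex.exp (-((n * x : ℝ) : ℂ) *
    ((S : ℂ) + (C : ℂ) * I))‖ ^ 2 with hL
  have hL0 : 0 ≤ L := integral_nonneg fun _ => by positivity
  -- the integral as a double sum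
  have hsum : (L : ℂ) = ∑ m ∈ s, ∑ n ∈ s,
      c a S C m X * (starRingEnd ℂ) (c a S C n X) / zz S C m n := by
    rw [hL, ← integral_complex_ofReal]
    have e1 : ∀ x : ℝ, (((‖∑ n ∈ s, (a n : ℂ) * Complex.exp (-((n * x : ℝ) : ℂ) *
        ((S : ℂ) + (C : ℂ) * I))‖ ^ 2 : ℝ)) : ℂ) =
        ∑ m ∈ s, ∑ n ∈ s, c a S C m x * (starRingEnd ℂ) (c a S C n x) := by
      intro x
      change (((‖∑ n ∈ s, c a S C n x‖ ^ 2 : ℝ)) : ℂ) = _
      rw [← Complex.normSq_eq_norm_sq, ← Complex.mul_conj, map_sum, Finset.sum_mul_sum]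
    have e2 : (∫ x in Ioi X, (((‖∑ n ∈ s, (a n : ℂ) * Complex.exp (-((n * x : ℝ) : ℂ) *
        ((S : ℂ) + (C : ℂ) * I))‖ ^ 2 : ℝ)) : ℂ)) =
        ∫ x in Ioi X, ∑ m ∈ s, ∑ n ∈ s, c a S C m x * (starRingEnd ℂ) (c a S C n x) :=
      integral_congr_ae (Filter.Eventually.of_forall e1)
    refine e2.trans ?_
    rw [integral_finsetSum]
    · refine Finset.sum_congr rfl fun m hm => ?_
      rw [integral_finsetSum]
      · exact Finset.sum_congr rfl fun n _ => int_val a S C X hS (hs1 m hm) n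
      · exact fun n _ => int_on a S C X hS (hs1 m hm) n
    · exact fun m hm => integrable_finsetSum _ fun n _ => int_on a S C X hS (hs1 m hm) n
  -- diagonal and the rest
  set T := ∑ m ∈ s, ∑ n ∈ s.erase m,
    c a S C m X * (starRingEnd ℂ) (c a S C n X) / zz S C m n with hT
  have hsplit : (L : ℂ) = ((1 / (2 * S) * P : ℝ) : ℂ) + T := by
    rw [hsum, hT, hP, Finset.mul_sum]
    push_cast
    rw [← Finset.sum_add_distrib]
    refine Finset.sum_congr rfl fun m hm => ?_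
    rw [← Finset.add_sum_erase s _ hm]
    congr 1
    have h1 : (m : ℂ) ≠ 0 := by
      have := hs1 m hm
      exact_mod_cast (by omega : m ≠ 0)
    have h2 : (S : ℂ) ≠ 0 := by exact_mod_cast hS.ne'
    have h3 : c a S C m X * (starRingEnd ℂ) (c a S C m X) =
        ((a m ^ 2 * Real.exp (-(2 * m * X * S)) : ℝ) : ℂ) := by
      rw [Complex.mul_conj, Complex.normSq_eq_norm_sq, norm_sq_c]
    have h4 : zz S C m m = 2 * (m : ℂ) * S := by
      unfold zz
      push_cast
      ring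
    rw [h3, h4]
    push_cast
    field_simp
  -- the two parts of the rest
  set H1 := ∑ m ∈ s, ∑ n ∈ s.erase m,
    c a S C m X * (starRingEnd ℂ) (c a S C n X) / ((m : ℂ) - n) with hH1
  set J := ∫ x in Ioi X, ∑ m ∈ s, ∑ n ∈ s.erase m, ((m : ℂ) + n) / ((m : ℂ) - n) *
      (c a S C m x * (starRingEnd ℂ) (c a S C n x)) with hJ
  have hJv : J = ∑ m ∈ s, ∑ n ∈ s.erase m, ((m : ℂ) + n) / ((m : ℂ) - n) *
      (c a S C m X * (starRingEnd ℂ) (c a S C n X) / zz S C m n) := by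
    rw [hJ, integral_finsetSum]
    · refine Finset.sum_congr rfl fun m hm => ?_
      rw [integral_finsetSum]
      · refine Finset.sum_congr rfl fun n _ => ?_
        rw [integral_const_mul, int_val a S C X hS (hs1 m hm) n]
      · exact fun n _ => (int_on a S C X hS (hs1 m hm) n).const_mul _
    · exact fun m hm => integrable_finsetSum _ fun n _ =>
        (int_on a S C X hS (hs1 m hm) n).const_mul _
  have hCc : (C : ℂ) ≠ 0 := by exact_mod_cast hC.ne'
  have hTv : T = 1 / (I * C) * H1 - S / (I * C) * J := by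
    rw [hJv, hT, hH1, Finset.mul_sum, Finset.mul_sum, ← Finset.sum_sub_distrib]
    refine Finset.sum_congr rfl fun m hm => ?_
    rw [Finset.mul_sum, Finset.mul_sum, ← Finset.sum_sub_distrib]
    refine Finset.sum_congr rfl fun n hn => ?_
    have hmn : (m : ℂ) - n ≠ 0 := by
      rw [sub_ne_zero]
      have := (Finset.mem_erase.1 hn).1
      exact_mod_cast this.symm
    have hz := zz_ne S C hS (hs1 m hm) n
    have hze : zz S C m n = ((m : ℂ) + n) * S + ((m : ℂ) - n) * C * I := by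
      unfold zz
      push_cast
      ring
    have hI : (I : ℂ) ≠ 0 := Complex.I_ne_zero
    have e1 : 1 / zz S C m n = 1 / (I * C) * (1 / ((m : ℂ) - n)) -
        S / (I * C) * (((m : ℂ) + n) / ((m : ℂ) - n) * (1 / zz S C m n)) := by
      field_simp
      rw [hze]
      ring
    calc c a S C m X * (starRingEnd ℂ) (c a S C n X) / zz S C m n =
        c a S C m X * (starRingEnd ℂ) (c a S C n X) * (1 / zz S C m n) := by ring
      _ = c a S C m X * (starRingEnd ℂ) (c a S C n X) * (1 / (I * C) * (1 / ((m : ℂ) - n)) -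
        S / (I * C) * (((m : ℂ) + n) / ((m : ℂ) - n) * (1 / zz S C m n))) := by rw [← e1]
      _ = _ := by ring
  have hH1b : ‖H1‖ ≤ Real.pi * A := by
    have h1 := h0 M (fun n => c a S C n X) (fun n => c a S C n X)
    have h2 : ∑ n ∈ Finset.Icc 1 M, ‖c a S C n X‖ ^ 2 = A :=
      Finset.sum_congr rfl fun n _ => norm_sq_c a S C n X
    rw [h2] at h1
    have hA0 : 0 ≤ A := Finset.sum_nonneg fun _ _ => by positivity
    rw [Real.mul_self_sqrt hA0] at h1
    exact h1
  have hJb : ‖J‖ ≤ Real.pi * (l * (1 / (2 * S) * P) + (1 / (2 * S) * Q) / l) := by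
    have hint1 : ∫ x in Ioi X, ∑ n ∈ s, a n ^ 2 * Real.exp (-(2 * n * x * S)) =
        1 / (2 * S) * P := by
      rw [integral_finsetSum _ fun n hn => (real_int (a n ^ 2) S X hS (hs1 n hn)).1, hP,
        Finset.mul_sum]
      refine Finset.sum_congr rfl fun n hn => ?_
      rw [(real_int (a n ^ 2) S X hS (hs1 n hn)).2]
      have : (n : ℝ) ≠ 0 := by
        have : (1 : ℝ) ≤ n := by exact_mod_cast hs1 n hn
        linarith
      field_simp
    have hint2 : ∫ x in Ioi X, ∑ n ∈ s, a n ^ 2 * (n : ℝ) ^ 2 * Real.exp (-(2 * n * x * S)) =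
        1 / (2 * S) * Q := by
      rw [integral_finsetSum _ fun n hn => (real_int (a n ^ 2 * (n : ℝ) ^ 2) S X hS (hs1 n hn)).1,
        hQ, Finset.mul_sum]
      refine Finset.sum_congr rfl fun n hn => ?_
      rw [(real_int (a n ^ 2 * (n : ℝ) ^ 2) S X hS (hs1 n hn)).2]
      have : (n : ℝ) ≠ 0 := by
        have : (1 : ℝ) ≤ n := by exact_mod_cast hs1 n hn
        linarith
      field_simp
    have i1 : IntegrableOn (fun x : ℝ => ∑ n ∈ s, a n ^ 2 * Real.exp (-(2 * n * x * S)))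
        (Ioi X) := integrable_finsetSum _ fun n hn => (real_int (a n ^ 2) S X hS (hs1 n hn)).1
    have i2 : IntegrableOn (fun x : ℝ => ∑ n ∈ s, a n ^ 2 * (n : ℝ) ^ 2 *
        Real.exp (-(2 * n * x * S))) (Ioi X) :=
      integrable_finsetSum _ fun n hn => (real_int (a n ^ 2 * (n : ℝ) ^ 2) S X hS (hs1 n hn)).1
    have i3 : IntegrableOn (fun x : ℝ => Real.pi *
        (l * ∑ n ∈ s, a n ^ 2 * Real.exp (-(2 * n * x * S)) +
          (∑ n ∈ s, a n ^ 2 * (n : ℝ) ^ 2 * Real.exp (-(2 * n * x * S))) / l)) (Ioi X) :=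
      ((i1.const_mul l).add (i2.div_const l)).const_mul Real.pi
    refine (norm_integral_le_of_norm_le i3
      (Filter.Eventually.of_forall fun x => h2_bound h0 a S C M hl x)).trans (le_of_eq ?_)
    rw [integral_const_mul, integral_add (i1.const_mul l) (i2.div_const l), integral_const_mul,
      integral_div, hint1, hint2]
  have hTb : ‖T‖ ≤ Real.pi / C * A + Real.pi / C * ((l * P + Q / l) / 2) := by
    rw [hTv]
    refine (norm_sub_le _ _).trans (add_le_add ?_ ?_)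
    · rw [norm_mul, norm_div, norm_one, norm_mul, Complex.norm_I, one_mul, Complex.norm_real,
        Real.norm_of_nonneg hC.le]
      calc 1 / C * ‖H1‖ ≤ 1 / C * (Real.pi * A) :=
            mul_le_mul_of_nonneg_left hH1b (by positivity)
        _ = Real.pi / C * A := by ring
    · rw [norm_mul, norm_div, norm_mul, Complex.norm_I, one_mul, Complex.norm_real,
        Complex.norm_real, Real.norm_of_nonneg hC.le, Real.norm_of_nonneg hS.le]
      calc S / C * ‖J‖ ≤ S / C * (Real.pi * (l * (1 / (2 * S) * P) + (1 / (2 * S) * Q) / l)) :=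
            mul_le_mul_of_nonneg_left hJb (by positivity)
        _ = Real.pi / C * ((l * P + Q / l) / 2) := by
            field_simp
  have hfin : L ≤ 1 / (2 * S) * P + ‖T‖ := by
    have h1 : ‖(L : ℂ)‖ = L := by rw [Complex.norm_real, Real.norm_of_nonneg hL0]
    rw [← h1, hsplit]
    refine (norm_add_le _ _).trans (add_le_add ?_ le_rfl)
    rw [Complex.norm_real, Real.norm_of_nonneg (by positivity)]
  calc L ≤ 1 / (2 * S) * P + ‖T‖ := hfin
    _ ≤ 1 / (2 * S) * P + (Real.pi / C * A + Real.pi / C * ((l * P + Q / l) / 2)) := by linarith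
    _ ≤ 1 / (2 * S) * P + (Real.pi / C * A + Real.pi / C * (Real.sqrt P * Real.sqrt Q)) := by
        have hπ := Real.pi_pos
        have := mul_le_mul_of_nonneg_left hopt (by positivity : 0 ≤ Real.pi / C)
        linarith
    _ = 1 / (2 * S) * P + Real.pi / C * (A + Real.sqrt P * Real.sqrt Q) := by ring

end

end Pool.Agent.TH615.J4553
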