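import Pool.Agent.TH598.GV.Defs2

set_option autoImplicit false

/-!
Job 4025 (GV-O): positivity on decomposable bivectors gives a positive lower bound.
-/

namespace Pool.Agent.TH615.J4025

open Finset MeasureTheory Pool.Agent.TH598.GV
open scoped ComplexConjugate ComplexOrder

variable {I : Type} [Fintype I]

/-- the full sesquilinear form -/
noncomputable def Q (H : I → I → I → I → ℂ) (z w z' w' : I → ℂ) : ℂ :=
  ∑ i, ∑ j, ∑ k, ∑ l, H i j k l * (z i * w j * conj (z' k) * conj (w' l))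

lemma Q_add2 (H : I → I → I → I → ℂ) (z w x z' w' : I → ℂ) (c : ℂ) :
    Q H z (fun i => w i + c * x i) z' w' = Q H z w z' w' + c * Q H z x z' w' := by
  unfold Q
  simp only [Finset.mul_sum, ← Finset.sum_add_distrib]
  refine Finset.sum_congr rfl fun i _ => Finset.sum_congr rfl fun j _ =>
    Finset.sum_congr rfl fun k _ => Finset.sum_congr rfl fun l _ => ?_
  ring

lemma Q_add4 (H : I → I → I → I → ℂ) (z w z' w' x : I → ℂ) (c : ℂ) :
    Q H z w z' (fun i => w' i + c * x i) = Q H z w z' w' + conj c * Q H z w z' x := by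
  unfold Q
  simp only [Finset.mul_sum, ← Finset.sum_add_distrib]
  refine Finset.sum_congr rfl fun i _ => Finset.sum_congr rfl fun j _ =>
    Finset.sum_congr rfl fun k _ => Finset.sum_congr rfl fun l _ => ?_
  simp only [map_add, map_mul]
  ring

lemma Q_alt12 {H : I → I → I → I → ℂ} (hH : HS H) (z z' w' : I → ℂ) : Q H z z z' w' = 0 := by
  have h : Q H z z z' w' = -Q H z z z' w' := by
    conv_lhs => unfold Q
    rw [Finset.sum_comm]
    unfold Q
    rw [← Finset.sum_neg_distrib]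
    refine Finset.sum_congr rfl fun i _ => ?_
    rw [← Finset.sum_neg_distrib]
    refine Finset.sum_congr rfl fun j _ => ?_
    rw [← Finset.sum_neg_distrib]
    refine Finset.sum_congr rfl fun k _ => ?_
    rw [← Finset.sum_neg_distrib]
    refine Finset.sum_congr rfl fun l _ => ?_
    rw [hH.alt i j k l]
    ring
  have h2 : (2 : ℂ) * Q H z z z' w' = 0 := by linear_combination h
  simpa using h2

lemma Q_alt34 {H : I → I → I → I → ℂ} (hH : HS H) (z w z' : I → ℂ) : Q H z w z' z' = 0 := by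
  have ha : ∀ i j k l, H i j l k = - H i j k l := by
    intro i j k l
    have h1 := hH.herm l k i j
    have h2 := hH.herm k l i j
    rw [h1, h2, hH.alt k l i j, map_neg]
  have h : Q H z w z' z' = -Q H z w z' z' := by
    unfold Q
    rw [← Finset.sum_neg_distrib]
    refine Finset.sum_congr rfl fun i _ => ?_
    rw [← Finset.sum_neg_distrib]
    refine Finset.sum_congr rfl fun j _ => ?_
    conv_lhs => rw [Finset.sum_comm]
    rw [← Finset.sum_neg_distrib]
    refine Finset.sum_congr rfl fun k _ => ?_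
    rw [← Finset.sum_neg_distrib]
    refine Finset.sum_congr rfl fun l _ => ?_
    rw [ha i j k l]
    ring
  have h2 : (2 : ℂ) * Q H z w z' z' = 0 := by linear_combination h
  simpa using h2

lemma qf_shear {H : I → I → I → I → ℂ} (hH : HS H) (z w : I → ℂ) (c : ℂ) :
    qf H z (fun i => w i + c * z i) = qf H z w := by
  change Q H z (fun i => w i + c * z i) z (fun i => w i + c * z i) = Q H z w z w
  rw [Q_add2, Q_add4, Q_alt12 hH, Q_alt34 hH]
  ring

lemma qf_smul (H : I → I → I → I → ℂ) (z w : I → ℂ) (a b : ℝ) :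
    qf H (fun i => (a : ℂ) * z i) (fun i => (b : ℂ) * w i) =
      ((a ^ 2 * b ^ 2 : ℝ) : ℂ) * qf H z w := by
  unfold qf
  simp only [Finset.mul_sum]
  refine Finset.sum_congr rfl fun i _ => Finset.sum_congr rfl fun j _ =>
    Finset.sum_congr rfl fun k _ => Finset.sum_congr rfl fun l _ => ?_
  simp only [map_mul, Complex.conj_ofReal]
  push_cast
  ring

lemma qf_zero_left (H : I → I → I → I → ℂ) (w : I → ℂ) : qf H (fun _ => 0) w = 0 := by
  unfold qf
  simp

lemma qf_zero_right (H : I → I → I → I → ℂ) (z : I → ℂ) : qf H z (fun _ => 0) = 0 := by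
  unfold qf
  simp

/-- squared norm -/
noncomputable def n2 (z : I → ℂ) : ℝ := ∑ i, ‖z i‖ ^ 2

/-- inner product -/
noncomputable def ip (z w : I → ℂ) : ℂ := ∑ i, z i * conj (w i)

lemma n2_nonneg (z : I → ℂ) : 0 ≤ n2 z := Finset.sum_nonneg fun _ _ => by positivity

lemma n2_zero {z : I → ℂ} (h : n2 z = 0) : z = fun _ => 0 := by
  funext i
  have := (Finset.sum_eq_zero_iff_of_nonneg (fun i _ => by positivity)).mp h i (Finset.mem_univ i)
  simpa using this

lemma n2_eq (z : I → ℂ) : ((n2 z : ℝ) : ℂ) = ∑ i, z i * conj (z i) := by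
  unfold n2
  push_cast
  refine Finset.sum_congr rfl fun i _ => ?_
  rw [Complex.mul_conj, Complex.normSq_eq_norm_sq]
  push_cast
  rfl

lemma qf_UU [DecidableEq I] (z w : I → ℂ) :
    qf UU z w = ((n2 z : ℝ) : ℂ) * ((n2 w : ℝ) : ℂ) - ip z w * conj (ip z w) := by
  rw [n2_eq, n2_eq]
  unfold qf UU ip
  simp only [sub_mul, Finset.sum_sub_distrib]
  congr 1
  · rw [Finset.sum_mul_sum]
    refine Finset.sum_congr rfl fun i _ => Finset.sum_congr rfl fun j _ => ?_
    simp only [ite_mul, one_mul, zero_mul]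
    rw [Finset.sum_eq_single i]
    · simp
      ring
    · intro k _ hk
      simp [Ne.symm hk]
    · simp
  · rw [map_sum, Finset.sum_mul_sum]
    refine Finset.sum_congr rfl fun i _ => Finset.sum_congr rfl fun j _ => ?_
    simp only [ite_mul, one_mul, zero_mul, Finset.sum_ite_eq, Finset.mem_univ, if_true, map_mul,
      Complex.conj_conj]
    ring

omit [Fintype I] in
lemma HS_UU [DecidableEq I] : HS (UU : I → I → I → I → ℂ) := by
  constructor
  · intro i j k l
    unfold UU
    simp only [map_sub, map_mul, apply_ite (starRingEnd ℂ), map_one, map_zero]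
    simp only [eq_comm (a := k), eq_comm (a := l)]
    ring
  · intro i j k l
    unfold UU
    ring

/-- orthonormal pairs -/
def T (I : Type) [Fintype I] : Set ((I → ℂ) × (I → ℂ)) :=
  {p | n2 p.1 = 1 ∧ n2 p.2 = 1 ∧ ip p.1 p.2 = 0}

lemma T_compact : IsCompact (T I) := by
  refine Metric.isCompact_of_isClosed_isBounded ?_ ?_
  · have h1 : Continuous fun p : (I → ℂ) × (I → ℂ) => n2 p.1 := by unfold n2; fun_prop
    have h2 : Continuous fun p : (I → ℂ) × (I → ℂ) => n2 p.2 := by unfold n2; fun_prop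
    have h3 : Continuous fun p : (I → ℂ) × (I → ℂ) => ip p.1 p.2 := by unfold ip; fun_prop
    exact (isClosed_eq h1 continuous_const).inter
      ((isClosed_eq h2 continuous_const).inter (isClosed_eq h3 continuous_const))
  · refine (Metric.isBounded_closedBall (x := (0 : (I → ℂ) × (I → ℂ))) (r := 1)).subset ?_
    have key : ∀ z : I → ℂ, n2 z = 1 → ‖z‖ ≤ 1 := by
      intro z hz
      rw [pi_norm_le_iff_of_nonneg zero_le_one]
      intro i
      have : ‖z i‖ ^ 2 ≤ 1 := by
        rw [← hz]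
        exact Finset.single_le_sum (f := fun i => ‖z i‖ ^ 2) (fun _ _ => by positivity)
          (Finset.mem_univ i)
      nlinarith [norm_nonneg (z i)]
    intro p hp
    rw [mem_closedBall_zero_iff, Prod.norm_def]
    exact max_le (key _ hp.1) (key _ hp.2.1)

/-- the general position reduction -/
lemma reduce [DecidableEq I] {H : I → I → I → I → ℂ} (hH : HS H) (z w : I → ℂ) :
    (qf UU z w = 0 ∧ qf H z w = 0) ∨ ∃ (r : ℝ) (p : (I → ℂ) × (I → ℂ)), 0 ≤ r ∧ p ∈ T I ∧
      qf UU z w = (r : ℂ) ∧ qf H z w = (r : ℂ) * qf H p.1 p.2 := by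
  by_cases hz : n2 z = 0
  · left
    rw [n2_zero hz, qf_zero_left, qf_zero_left]
    exact ⟨rfl, rfl⟩
  have hzc : ((n2 z : ℝ) : ℂ) ≠ 0 := by exact_mod_cast hz
  set c : ℂ := -(conj (ip z w) / (n2 z : ℝ)) with hc
  set w' : I → ℂ := fun i => w i + c * z i with hw'
  have hip : ip z w' = 0 := by
    have : ip z w' = ip z w + conj c * ((n2 z : ℝ) : ℂ) := by
      rw [n2_eq]
      unfold ip
      rw [Finset.mul_sum, ← Finset.sum_add_distrib]
      refine Finset.sum_congr rfl fun i _ => ?_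
      simp only [hw', map_add, map_mul]
      ring
    rw [this, hc, map_neg, map_div₀, Complex.conj_conj, Complex.conj_ofReal]
    field_simp
    ring
  have e1 : qf UU z w = qf UU z w' := (qf_shear HS_UU z w c).symm
  have e2 : qf H z w = qf H z w' := (qf_shear hH z w c).symm
  rw [e1, e2]
  by_cases hw : n2 w' = 0
  · left
    rw [n2_zero hw, qf_zero_right, qf_zero_right]
    exact ⟨rfl, rfl⟩
  right
  have hz0 : 0 < n2 z := lt_of_le_of_ne (n2_nonneg z) (Ne.symm hz)
  have hw0 : 0 < n2 w' := lt_of_le_of_ne (n2_nonneg w') (Ne.symm hw)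
  set a := Real.sqrt (n2 z) with ha
  set b := Real.sqrt (n2 w') with hb
  have ha0 : 0 < a := Real.sqrt_pos.mpr hz0
  have hb0 : 0 < b := Real.sqrt_pos.mpr hw0
  have ha2 : a ^ 2 = n2 z := Real.sq_sqrt hz0.le
  have hb2 : b ^ 2 = n2 w' := Real.sq_sqrt hw0.le
  have hac : (a : ℂ) ≠ 0 := by exact_mod_cast ha0.ne'
  have hbc : (b : ℂ) ≠ 0 := by exact_mod_cast hb0.ne'
  have hn : ∀ (t : ℝ) (x : I → ℂ), n2 (fun i => ((t⁻¹ : ℝ) : ℂ) * x i) = (t ^ 2)⁻¹ * n2 x := by
    intro t x
    unfold n2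
    rw [Finset.mul_sum]
    refine Finset.sum_congr rfl fun i _ => ?_
    rw [norm_mul, mul_pow, Complex.norm_real, Real.norm_eq_abs, sq_abs, inv_pow]
  refine ⟨n2 z * n2 w', (fun i => ((a⁻¹ : ℝ) : ℂ) * z i, fun i => ((b⁻¹ : ℝ) : ℂ) * w' i),
    by positivity, ⟨?_, ?_, ?_⟩, ?_, ?_⟩
  · rw [hn, ha2]
    field_simp
  · rw [hn, hb2]
    field_simp
  · change ip (fun i => ((a⁻¹ : ℝ) : ℂ) * z i) (fun i => ((b⁻¹ : ℝ) : ℂ) * w' i) = 0
    have : ip (fun i => ((a⁻¹ : ℝ) : ℂ) * z i) (fun i => ((b⁻¹ : ℝ) : ℂ) * w' i) =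
        ((a⁻¹ : ℝ) : ℂ) * ((b⁻¹ : ℝ) : ℂ) * ip z w' := by
      unfold ip
      rw [Finset.mul_sum]
      refine Finset.sum_congr rfl fun i _ => ?_
      simp only [map_mul, Complex.conj_ofReal]
      ring
    rw [this, hip, mul_zero]
  · rw [qf_UU, hip, zero_mul, sub_zero]
    push_cast
    rfl
  · rw [qf_smul, inv_pow, inv_pow, ha2, hb2, ← mul_assoc, ← Complex.ofReal_mul]
    have : n2 z * n2 w' * ((n2 z)⁻¹ * (n2 w')⁻¹) = 1 := by field_simp
    rw [this, Complex.ofReal_one, one_mul]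

/-- compactness: a positive lower bound of the form on decomposable bivectors -/
theorem cpt {I : Type} [Fintype I] [DecidableEq I] (H : I → I → I → I → ℂ) (hH : HS H)
    (h : ∀ z w : I → ℂ, 0 < (qf UU z w).re → 0 < (qf H z w).re) :
    ∃ κ : ℝ, 0 < κ ∧ ∀ z w : I → ℂ, κ * (qf UU z w).re ≤ (qf H z w).re := by
  rcases (T I).eq_empty_or_nonempty with hT | hT
  · refine ⟨1, one_pos, fun z w => ?_⟩
    rcases reduce hH z w with ⟨h1, h2⟩ | ⟨r, p, _, hp, _⟩
    · rw [h1, h2]
      simp
    · rw [hT] at hp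
      exact absurd hp (Set.notMem_empty _)
  · have hcont : Continuous fun p : (I → ℂ) × (I → ℂ) => (qf H p.1 p.2).re := by
      unfold qf
      fun_prop
    obtain ⟨p0, hp0, hmin⟩ := T_compact.exists_isMinOn hT hcont.continuousOn
    have hU : ∀ p ∈ T I, (qf UU p.1 p.2).re = 1 := by
      intro p hp
      rw [qf_UU, hp.1, hp.2.1, hp.2.2]
      simp
    have hk : 0 < (qf H p0.1 p0.2).re := h _ _ (by rw [hU p0 hp0]; exact one_pos)
    refine ⟨(qf H p0.1 p0.2).re, hk, fun z w => ?_⟩
    rcases reduce hH z w with ⟨h1, h2⟩ | ⟨r, p, hr, hp, e1, e2⟩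
    · rw [h1, h2]
      simp
    · rw [e1, e2, Complex.ofReal_re, Complex.re_ofReal_mul, mul_comm]
      exact mul_le_mul_of_nonneg_left (hmin hp) hr

end Pool.Agent.TH615.J4025
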