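import Pool.Agent.TH37.HG.Stmts2
import Pool.Agent.Helper111.QI.Resid

set_option autoImplicit false

/-!
# HG-X3: splitting off a finite module with fixed-point-free action
-/

open Pool.Agent.Helper294.HallC (del)
open Pool.Agent.TH37.HG
open Pool.Agent.Helper111.QI

namespace Pool.Agent.TH615.HGX3

/-- Laurent polynomials -/
abbrev R : Type := AddMonoidAlgebra ℤ ℤ

/-- the powers of the variable -/
noncomputable def T (n : ℤ) : R := AddMonoidAlgebra.single n 1

lemma T_add (m n : ℤ) : T (m + n) = T m * T n := by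
  rw [T, T, T, AddMonoidAlgebra.single_mul_single, one_mul]

lemma T_zero : T 0 = 1 := rfl

lemma T_pow (m : ℤ) (n : ℕ) : T m ^ n = T (n * m) := by
  induction n with
  | zero => simp [T_zero]
  | succ n ih => rw [pow_succ, ih, ← T_add]; congr 1; push_cast; ring

instance : IsNoetherianRing R := by
  have h : Algebra.FiniteType ℤ R := AddMonoidAlgebra.finiteType_of_fg ℤ ℤ
  exact Algebra.FiniteType.isNoetherianRing ℤ R

instance : IsJacobsonRing R := by
  have h : Algebra.FiniteType ℤ R := AddMonoidAlgebra.finiteType_of_fg ℤ ℤ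
  have := jac_int
  exact isJacobsonRing_of_finiteType (A := ℤ)

section

variable {E Q : Type} [AddCommGroup E] [Group Q] [DistribMulAction Q E]

/-- the powers of `z` -/
def pw (z : Q) : Multiplicative ℤ →* AddMonoid.End E where
  toFun n := DistribMulAction.toAddMonoidEnd Q E (z ^ (Multiplicative.toAdd n))
  map_one' := by
    ext x
    change (z ^ (0 : ℤ)) • x = x
    rw [zpow_zero, one_smul]
  map_mul' m n := by
    ext x
    change (z ^ (Multiplicative.toAdd (m * n))) • x =
      (z ^ (Multiplicative.toAdd m)) • (z ^ (Multiplicative.toAdd n)) • x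
    rw [toAdd_mul, zpow_add, mul_smul]

/-- the action of Laurent polynomials -/
noncomputable def ph (E : Type) [AddCommGroup E] [DistribMulAction Q E] (z : Q) :
    R →+* AddMonoid.End E :=
  (AddMonoidAlgebra.lift ℤ (AddMonoid.End E) ℤ (pw z) : R →ₐ[ℤ] AddMonoid.End E)

lemma ph_T (z : Q) (n : ℤ) (x : E) : ph E z (T n) x = z ^ n • x := by
  have h : (AddMonoidAlgebra.lift ℤ (AddMonoid.End E) ℤ (pw z) : R →ₐ[ℤ] AddMonoid.End E) (T n) =
      pw z (Multiplicative.ofAdd n) := by
    rw [T, AddMonoidAlgebra.lift_single, one_smul]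
  change ((AddMonoidAlgebra.lift ℤ (AddMonoid.End E) ℤ (pw z) : R →ₐ[ℤ] AddMonoid.End E) (T n)) x =
    z ^ n • x
  rw [h]
  rfl

end

/-- a maximal ideal not containing a given non-nilpotent element -/
lemma exists_max (I : Ideal R) (d : R) (h : ∀ n : ℕ, d ^ n ∉ I) :
    ∃ m : Ideal R, m.IsMaximal ∧ I ≤ m ∧ d ∉ m := by
  have h1 : d ∉ I.radical := by
    rintro ⟨n, hn⟩
    exact h n hn
  rw [Ideal.radical_eq_jacobson, Ideal.jacobson, Ideal.mem_sInf] at h1
  push Not at h1
  obtain ⟨m, ⟨h2, h3⟩, h4⟩ := h1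
  exact ⟨m, h3, h2, h4⟩

/-- the arithmetic of a unit of a finite field -/
lemma exists_pqr (m : Ideal R) (hm : m.IsMaximal) (h : T 1 - 1 ∉ m) :
    ∃ p q r : ℕ, p.Prime ∧ q.Prime ∧ p ≠ q ∧ 0 < r ∧ (p : R) ∈ m ∧
      T ((r * q : ℕ) : ℤ) - 1 ∈ m ∧ T (r : ℤ) - 1 ∉ m := by
  have hft : Algebra.FiniteType ℤ R := AddMonoidAlgebra.finiteType_of_fg ℤ ℤ
  have hft' : @Algebra.FiniteType ℤ R _ _ (Ring.toIntAlgebra R) := by
    have e : (Ring.toIntAlgebra R) = (AddMonoidAlgebra.algebra : Algebra ℤ R) :=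
      Subsingleton.elim _ _
    rw [e]
    exact hft
  have hfin : Finite (R ⧸ m) := @residue_finite R _ hft' m _
  let F : Field (R ⧸ m) := Ideal.Quotient.field m
  have hF : Fintype (R ⧸ m) := Fintype.ofFinite _
  obtain ⟨p, hp⟩ := CharP.exists (R ⧸ m)
  obtain ⟨n, hpp, hn⟩ := FiniteField.card (R ⧸ m) p
  set ζ : R ⧸ m := Ideal.Quotient.mk m (T 1) with hζ
  have hu : IsUnit ζ := by
    have : ζ * Ideal.Quotient.mk m (T (-1)) = 1 := by
      rw [hζ, ← map_mul, ← T_add]
      simp [T_zero]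
    exact IsUnit.of_mul_eq_one _ this
  have hζ1 : ζ ≠ 1 := by
    intro h1
    apply h
    rw [← Ideal.Quotient.eq_zero_iff_mem, map_sub, map_one, ← hζ, h1, sub_self]
  have hc1 : ζ ^ (Fintype.card (R ⧸ m) - 1) = 1 :=
    FiniteField.pow_card_sub_one_eq_one ζ hu.ne_zero
  have hc2 : orderOf ζ ∣ Fintype.card (R ⧸ m) - 1 := orderOf_dvd_of_pow_eq_one hc1
  have hcard : 1 < Fintype.card (R ⧸ m) := Fintype.one_lt_card
  have hc3 : 0 < orderOf ζ := by
    apply Nat.pos_of_ne_zero
    intro h0
    rw [h0, zero_dvd_iff] at hc2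
    omega
  have hc4 : orderOf ζ ≠ 1 := fun h0 => hζ1 (orderOf_eq_one_iff.1 h0)
  obtain ⟨q, hq, r, hr⟩ := Nat.exists_prime_and_dvd hc4
  have hr0 : 0 < r := by
    apply Nat.pos_of_ne_zero
    rintro rfl
    omega
  refine ⟨p, q, r, hpp, hq, ?_, hr0, ?_, ?_, ?_⟩
  · rintro rfl
    have e1 : p ∣ Fintype.card (R ⧸ m) - 1 := (Dvd.intro r hr.symm).trans hc2
    have e2 : p ∣ Fintype.card (R ⧸ m) := by
      rw [hn]
      exact dvd_pow_self p n.ne_zero
    have e3 : p ∣ 1 := by
      have := Nat.dvd_sub e2 e1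
      rwa [show Fintype.card (R ⧸ m) - (Fintype.card (R ⧸ m) - 1) = 1 by omega] at this
    exact hpp.one_lt.ne' (Nat.dvd_one.1 e3)
  · rw [← Ideal.Quotient.eq_zero_iff_mem, map_natCast]
    exact CharP.cast_eq_zero _ p
  · rw [← Ideal.Quotient.eq_zero_iff_mem, map_sub, map_one]
    have : T ((r * q : ℕ) : ℤ) = T 1 ^ (orderOf ζ) := by
      rw [T_pow, hr]; congr 1; push_cast; ring
    rw [this, map_pow, ← hζ, pow_orderOf_eq_one, sub_self]
  · rw [← Ideal.Quotient.eq_zero_iff_mem, map_sub, map_one]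
    have : T (r : ℤ) = T 1 ^ r := by
      rw [T_pow]; congr 1; ring
    rw [this, map_pow, ← hζ]
    intro h0
    have h5 : ζ ^ r = 1 := sub_eq_zero.1 h0
    have h6 := orderOf_dvd_of_pow_eq_one h5
    have h7 := Nat.le_of_dvd hr0 h6
    rw [hr] at h7
    have := hq.two_le
    nlinarith

theorem x3' : X3Stmt := by
  intro E Q _ _ _ z b hb
  let iM : Module R E := Module.compHom E (ph E z)
  have hsm : ∀ (r : R) (x : E), r • x = ph E z r x := fun _ _ => rfl
  have hT : ∀ (n : ℤ) (x : E), T n • x = z ^ n • x := fun n x => by rw [hsm, ph_T]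
  set d : R := T 1 - 1 with hd
  have hdel : ∀ x : E, d • x = del z x := by
    intro x
    rw [hd, sub_smul, hT, one_smul, zpow_one]; rfl
  have hdn : ∀ (n : ℕ) (x : E), (del z)^[n] x = d ^ n • x := by
    intro n
    induction n with
    | zero => intro x; simp
    | succ n ih =>
      intro x
      rw [Function.iterate_succ_apply', ih, ← hdel, smul_smul, pow_succ']
  let I : ℕ →o Ideal R := ⟨fun k => LinearMap.ker (LinearMap.toSpanSingleton R E (d ^ k • b)), by
    apply monotone_nat_of_le_succ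
    intro k r hr
    rw [LinearMap.mem_ker, LinearMap.toSpanSingleton_apply] at hr ⊢
    rw [pow_succ', mul_smul, smul_smul, mul_comm, mul_smul, hr, smul_zero]⟩
  have hI : ∀ k (r : R), r ∈ I k ↔ r • (d ^ k • b) = 0 := fun k r => by
    change r ∈ LinearMap.ker (LinearMap.toSpanSingleton R E (d ^ k • b)) ↔ _
    rw [LinearMap.mem_ker, LinearMap.toSpanSingleton_apply]
  obtain ⟨k, hk⟩ := (monotone_stabilizes_iff_noetherian (R := R) (M := R)).2 inferInstance I
  set b' : E := d ^ k • b with hb'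
  have hnil : ∀ n : ℕ, d ^ n ∉ I k := by
    intro n hn
    rw [hI, smul_smul, ← pow_add] at hn
    exact hb (n + k) (by rw [hdn, hn])
  obtain ⟨m, hm, hIm, hdm⟩ := exists_max (I k) d hnil
  obtain ⟨p, q, r, hp, hq, hpq, hr, h1, h2, h3⟩ := exists_pqr m hm hdm
  have hB : AddSubgroup.closure {x : E | ∃ i : ℤ, x = z ^ i • b'} =
      (Submodule.span R {b'}).toAddSubgroup := by
    apply le_antisymm
    · rw [AddSubgroup.closure_le]
      rintro _ ⟨i, rfl⟩
      have : z ^ i • b' ∈ Submodule.span R {b'} := by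
        rw [← hT]
        exact Submodule.smul_mem _ _ (Submodule.mem_span_singleton_self b')
      exact this
    · intro x hx
      have hx' : x ∈ Submodule.span R {b'} := hx
      rw [Submodule.mem_span_singleton] at hx'
      obtain ⟨s, rfl⟩ := hx'
      induction s using AddMonoidAlgebra.induction_linear with
      | zero => rw [zero_smul]; exact AddSubgroup.zero_mem _
      | add u v hu hv =>
        rw [add_smul]
        exact AddSubgroup.add_mem _
          (hu (Submodule.smul_mem _ _ (Submodule.mem_span_singleton_self b')))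
          (hv (Submodule.smul_mem _ _ (Submodule.mem_span_singleton_self b')))
      | single n c =>
        have e1 : (AddMonoidAlgebra.single n c : R) = c • T n := by
          rw [T, AddMonoidAlgebra.smul_single, smul_eq_mul, mul_one]
        rw [e1, smul_assoc]
        apply AddSubgroup.zsmul_mem
        rw [hT]
        exact AddSubgroup.subset_closure ⟨n, rfl⟩
  let P : Submodule R E := Submodule.map (LinearMap.toSpanSingleton R E b') m
  have hP : ∀ x, x ∈ P ↔ ∃ s ∈ m, s • b' = x := by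
    intro x
    change x ∈ Submodule.map (LinearMap.toSpanSingleton R E b') m ↔ _
    rw [Submodule.mem_map]
    simp only [LinearMap.toSpanSingleton_apply]
  refine ⟨b', k, _, P.toAddSubgroup, p, q, r, (hdn k b).symm, rfl, ?_, ?_, ?_, hp, hq, hpq, hr,
    ?_, ?_, ?_⟩
  · rw [hB]
    intro x hx
    have hx' : x ∈ P := hx
    obtain ⟨s, _, rfl⟩ := (hP x).1 hx'
    exact Submodule.smul_mem _ _ (Submodule.mem_span_singleton_self b')
  · intro x hx
    have hx' : x ∈ P := hx
    refine ⟨?_, ?_⟩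
    · have e1 : z • x = T 1 • x := by rw [hT, zpow_one]
      rw [e1]
      exact P.smul_mem _ hx'
    · have e1 : z⁻¹ • x = T (-1) • x := by rw [hT, zpow_neg_one]
      rw [e1]
      exact P.smul_mem _ hx'
  · intro x hx hzx
    rw [hB] at hx
    have hx' : x ∈ Submodule.span R {b'} := hx
    rw [Submodule.mem_span_singleton] at hx'
    obtain ⟨s, rfl⟩ := hx'
    have e1 : d • (s • b') = 0 := by
      rw [hdel]
      unfold del
      rw [hzx, sub_self]
    have e2 : s ∈ I (k + 1) := by
      rw [hI, pow_succ', mul_smul, smul_smul, mul_comm, mul_smul]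
      exact e1
    rw [← hk (k + 1) (by omega)] at e2
    exact (hI k s).1 e2
  · have : p • b' = (p : R) • b' := by rw [Nat.cast_smul_eq_nsmul]
    rw [this]
    exact (hP _).2 ⟨_, h1, rfl⟩
  · have : z ^ (r * q) • b' - b' = (T ((r * q : ℕ) : ℤ) - 1) • b' := by
      rw [sub_smul, hT, one_smul, zpow_natCast]
    rw [this]
    exact (hP _).2 ⟨_, h2, rfl⟩
  · have : z ^ r • b' - b' = (T (r : ℤ) - 1) • b' := by
      rw [sub_smul, hT, one_smul, zpow_natCast]
    rw [this]
    intro hc
    obtain ⟨s, hs, he⟩ := (hP _).1 hc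
    apply h3
    have e1 : T (r : ℤ) - 1 - s ∈ I k := by
      rw [hI, ← hb', sub_smul, he, sub_self]
    have e2 := hIm e1
    have e3 := m.add_mem e2 hs
    rwa [sub_add_cancel] at e3

theorem x3 (_ : MfinStmt) : X3Stmt := x3'

end Pool.Agent.TH615.HGX3
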