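import Pool.Agent.TH37.HG.Stmts2

set_option autoImplicit false

/-!
# HG-X4: reduction of configurations of module type
-/

open Pool.Agent.Helper294.HallC (del)
open Pool.Agent.TH37.HG
open Pool.Agent.H53R2
open scoped commutatorElement

namespace Pool.Agent.TH615.HGX4

/-- the conjugation module of an abelian normal subgroup -/
structure Md {G : Type} [Group G] (D : Subgroup G) (E : Type) [AddCommGroup E]
    [DistribMulAction G E] (j : E → G) : Prop where
  add : ∀ x y, j (x + y) = j x * j y
  inj : Function.Injective j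
  mem : ∀ x, j x ∈ D
  surj : ∀ d ∈ D, ∃ x, j x = d
  act : ∀ (g : G) (x : E), j (g • x) = g * j x * g⁻¹

theorem exists_mod {G : Type} [Group G] (D : Subgroup G) (hD : D.Normal) (hDD : ⁅D, D⁆ = ⊥) :
    ∃ (E : Type) (_ : AddCommGroup E) (_ : DistribMulAction G E) (j : E → G), Md D E j := by
  let cg : CommGroup ↥D :=
    { (inferInstance : Group ↥D) with
      mul_comm := by
        intro a b
        have h1 : ⁅(a : G), (b : G)⁆ ∈ (⊥ : Subgroup G) :=
          hDD ▸ Subgroup.commutator_mem_commutator a.2 b.2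
        rw [Subgroup.mem_bot, commutatorElement_eq_one_iff_mul_comm] at h1
        exact Subtype.ext h1 }
  let act : DistribMulAction G (Additive ↥D) :=
    { smul := fun g e => Additive.ofMul ((MulAut.conjNormal g : MulAut ↥D) e.toMul)
      one_smul := by
        intro e
        show Additive.ofMul ((MulAut.conjNormal 1 : MulAut ↥D) e.toMul) = e
        rw [map_one]; rfl
      mul_smul := by
        intro g h e
        show Additive.ofMul ((MulAut.conjNormal (g * h) : MulAut ↥D) e.toMul) =
          Additive.ofMul ((MulAut.conjNormal g : MulAut ↥D) ((MulAut.conjNormal h : MulAut ↥D)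
            e.toMul))
        rw [map_mul]; rfl
      smul_zero := by
        intro g
        show Additive.ofMul ((MulAut.conjNormal g : MulAut ↥D) 1) = 0
        rw [map_one]; rfl
      smul_add := by
        intro g a b
        show Additive.ofMul ((MulAut.conjNormal g : MulAut ↥D) (a.toMul * b.toMul)) = _
        rw [map_mul]; rfl }
  refine ⟨Additive ↥D, inferInstance, act, fun e => ((e.toMul : ↥D) : G), ?_⟩
  refine ⟨fun x y => rfl, ?_, fun x => (x.toMul : ↥D).2, fun d hd => ⟨Additive.ofMul ⟨d, hd⟩, rfl⟩,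
    ?_⟩
  · intro x y h
    exact Additive.toMul.injective (Subtype.ext h)
  · intro g x
    show (((MulAut.conjNormal g : MulAut ↥D) x.toMul : ↥D) : G) = _
    rw [MulAut.conjNormal_apply]

variable {G : Type} [Group G] {D : Subgroup G} {E : Type} [AddCommGroup E]
    [DistribMulAction G E] {j : E → G}

lemma Md.zero (h : Md D E j) : j 0 = 1 := by
  have h1 := h.add 0 0
  rw [add_zero] at h1
  exact (mul_eq_left.1 h1.symm)

lemma Md.neg (h : Md D E j) (x : E) : j (-x) = (j x)⁻¹ := by
  rw [eq_inv_iff_mul_eq_one, ← h.add, neg_add_cancel, h.zero]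

lemma Md.nsmul (h : Md D E j) (n : ℕ) (x : E) : j (n • x) = j x ^ n := by
  induction n with
  | zero => rw [zero_smul, h.zero, pow_zero]
  | succ n ih => rw [succ_nsmul, h.add, ih, pow_succ]

lemma Md.comm (h : Md D E j) (x : E) (g : G) : ⁅j x, g⁆ = j (x - g • x) := by
  rw [sub_eq_add_neg, h.add, h.neg, h.act, commutatorElement_def]
  group

lemma Md.comm_one (h : Md D E j) (x : E) (g : G) : ⁅j x, g⁆ = 1 ↔ g • x = x := by
  rw [h.comm, ← h.zero, h.inj.eq_iff, sub_eq_zero, eq_comm]

lemma Md.triv (h : Md D E j) (hDD : ⁅D, D⁆ = ⊥) {g : G} (hg : g ∈ D) (x : E) : g • x = x := by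
  rw [← h.comm_one]
  have h1 : ⁅j x, g⁆ ∈ (⊥ : Subgroup G) :=
    hDD ▸ Subgroup.commutator_mem_commutator (h.mem x) hg
  exact h1

lemma Md.cent (h : Md D E j) {g : G} (hg : ∀ d ∈ D, ⁅g, d⁆ = 1) (x : E) : g • x = x := by
  rw [← h.comm_one, commutatorElement_eq_one_iff_mul_comm]
  have := hg _ (h.mem x)
  rw [commutatorElement_eq_one_iff_mul_comm] at this
  exact this.symm

lemma Md.cent' (h : Md D E j) {g : G} (hg : ∀ x : E, g • x = x) : ∀ d ∈ D, ⁅g, d⁆ = 1 := by
  intro d hd
  obtain ⟨x, rfl⟩ := h.surj d hd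
  have := (h.comm_one x g).2 (hg x)
  rw [commutatorElement_eq_one_iff_mul_comm] at this ⊢
  exact this.symm

lemma comm_act {g k : G} (h : ∀ x : E, ⁅g, k⁆ • x = x) (x : E) : g • k • x = k • g • x := by
  have h1 := h (k • g • x)
  rw [commutatorElement_def] at h1
  rw [← h1]
  simp only [← mul_smul]
  congr 1
  group

lemma pow_fix {g : G} {x : E} (h : g • x = x) (n : ℕ) : g ^ n • x = x := by
  induction n with
  | zero => simp
  | succ n ih => rw [pow_succ, mul_smul, h, ih]

lemma comm_act' {g k : G} (h : ∀ x : E, g • k • x = k • g • x) (x : E) : ⁅g, k⁆ • x = x := by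
  rw [commutatorElement_def]
  have h1 := h (g⁻¹ • k⁻¹ • x)
  rw [smul_inv_smul] at h1
  rw [mul_smul, mul_smul, mul_smul, h1, smul_inv_smul]

lemma pow_comm_act {g k : G} (h : ∀ x : E, g • k • x = k • g • x) (n : ℕ) (x : E) :
    g ^ n • k • x = k • g ^ n • x := by
  induction n generalizing x with
  | zero => simp
  | succ n ih => rw [pow_succ, mul_smul, h, ih, ← mul_smul (g ^ n) g x]

theorem x4 (h3 : X3Stmt) : X4Stmt := by
  intro W hW G _ hG D hD hDD b hb m t hc hcfg hbm
  obtain ⟨E, _, _, j, hj⟩ := exists_mod D hD hDD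
  obtain ⟨β, rfl⟩ := hj.surj b hb
  set mi : ℤ → G := fun i => t ^ i * m * t ^ (-i) with hmi
  -- commutation of the automorphisms
  have c1 : ∀ i (x : E), m • mi i • x = mi i • m • x := fun i x =>
    comm_act (fun x => hj.cent (hc i) x) x
  have c2 : ∀ i : ℤ, i ≠ 0 → mi i • β = β := fun i hi => (hj.comm_one β _).1 (hcfg i hi)
  have hdadd : ∀ x y : E, del m (x + y) = del m x + del m y := by
    intro x y; simp only [del, smul_add]; abel
  have c3 : ∀ (i : ℤ) (x : E), mi i • del m x = del m (mi i • x) := by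
    intro i x
    simp only [del, smul_sub, c1]
  have c4 : ∀ (i : ℤ), i ≠ 0 → ∀ k, mi i • (del m)^[k] β = (del m)^[k] β := by
    intro i hi k
    induction k with
    | zero => exact c2 i hi
    | succ k ih => rw [Function.iterate_succ_apply', c3, ih]
  have hm0 : mi 0 = m := by simp [hmi]
  by_cases hnil : ∃ n : ℕ, (del m)^[n] β = 0
  · exfalso
    classical
    obtain ⟨n, hn, hmin⟩ := WellFounded.has_min (r := ((· < ·) : ℕ → ℕ → Prop)) Nat.lt_wfRel.wf
      {n : ℕ | (del m)^[n] β = 0} hnil
    have hd1 : del m β ≠ 0 := by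
      intro h0
      apply hbm
      rw [hj.comm_one]
      exact sub_eq_zero.1 h0
    have hn0 : n ≠ 0 := by
      rintro rfl
      have h0 : β = 0 := hn
      apply hd1
      rw [h0]
      simp [del]
    have hn1 : n ≠ 1 := by
      rintro rfl
      exact hd1 hn
    obtain ⟨k, rfl⟩ : ∃ k, n = k + 2 := ⟨n - 2, by omega⟩
    have hk1 : (del m)^[k + 1] β ≠ 0 := fun h0 => hmin (k + 1) h0 (by omega)
    set β' := (del m)^[k] β with hβ'
    have e1 : del m β' ≠ 0 := by
      rw [hβ', ← Function.iterate_succ_apply' (del m)]; exact hk1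
    have e2 : del m (del m β') = 0 := by
      rw [hβ', ← Function.iterate_succ_apply' (del m), ← Function.iterate_succ_apply' (del m)]
      exact hn
    have e3 : ⁅j β', m⁆ = j (-(del m β')) := by
      rw [hj.comm]; congr 1; simp [del]
    have hcen : ⁅j β', m⁆ = 1 := by
      apply hW G hG (j β') m t
      · intro i hi
        exact (hj.comm_one β' _).2 (c4 i hi k)
      · intro i
        rw [e3]
        refine ⟨?_, ?_⟩
        · rw [hj.comm_one]
          apply hj.triv hDD
          have := hD.conj_mem (j β') (hj.mem β') (t ^ i)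
          rwa [← zpow_neg] at this
        · rw [hj.comm_one, smul_neg]
          congr 1
          by_cases hi : i = 0
          · subst hi
            have : t ^ (0 : ℤ) * m * t ^ (-(0 : ℤ)) = m := by simp
            rw [this]
            exact sub_eq_zero.1 e2
          · have := c4 i hi (k + 1)
            rw [Function.iterate_succ_apply'] at this
            exact this
    rw [e3, ← hj.zero, hj.inj.eq_iff, neg_eq_zero] at hcen
    exact e1 hcen
  · push Not at hnil
    obtain ⟨β', k, B, P, p, q, r, hβ', hB, hPB, hPm, hinj, hp, hq, hpq, hr, f1, f2, f3⟩ :=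
      h3 E G m β hnil
    have g1 : ∀ i : ℤ, i ≠ 0 → mi i • β' = β' := by
      intro i hi; rw [hβ']; exact c4 i hi k
    have c1z : ∀ (i n : ℤ) (x : E), mi i • m ^ n • x = m ^ n • mi i • x := by
      intro i n x
      rcases n with n | n
      · rw [Int.ofNat_eq_natCast, zpow_natCast]
        exact (pow_comm_act (c1 i) n x).symm
      · have h6 : ∀ x : E, m⁻¹ • mi i • x = mi i • m⁻¹ • x := by
          intro x
          have h7 := c1 i (m⁻¹ • x)
          rw [smul_inv_smul] at h7
          rw [← h7, inv_smul_smul]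
        rw [zpow_negSucc, ← inv_pow]
        exact (pow_comm_act h6 (n + 1) x).symm
    have g2 : ∀ i : ℤ, i ≠ 0 → ∀ x ∈ B, mi i • x = x := by
      intro i hi x hx
      rw [hB] at hx
      induction hx using AddSubgroup.closure_induction with
      | mem x hx =>
        obtain ⟨n, rfl⟩ := hx
        rw [c1z, g1 i hi]
      | zero => rw [smul_zero]
      | add x y _ _ h1 h2 => rw [smul_add, h1, h2]
      | neg x _ h1 => rw [smul_neg, h1]
    -- the sum of the conjugates of `P`
    let PP : AddSubgroup E := AddSubgroup.closure {e : E | ∃ i : ℤ, ∃ x ∈ P, e = t ^ i • x}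
    have hPP : P ≤ PP := fun x hx => AddSubgroup.subset_closure ⟨0, x, hx, by simp⟩
    have mconj : ∀ (i : ℤ) (x : E), m • t ^ i • x = t ^ i • mi (-i) • x := by
      intro i x
      rw [← mul_smul, ← mul_smul]
      congr 1
      simp only [hmi, neg_neg, ← mul_assoc]
      rw [← zpow_add]
      simp
    have g3 : ∀ (i : ℤ), i ≠ 0 → ∀ x ∈ P, m • t ^ i • x = t ^ i • x := by
      intro i hi x hx
      rw [mconj, g2 (-i) (by omega) x (hPB hx)]
    have g4 : ∀ e ∈ PP, ∃ a ∈ P, m • (e - a) = e - a := by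
      intro e he
      induction he using AddSubgroup.closure_induction with
      | mem x hx =>
        obtain ⟨i, x, hx, rfl⟩ := hx
        by_cases hi : i = 0
        · subst hi
          exact ⟨x, hx, by simp⟩
        · exact ⟨0, P.zero_mem, by rw [sub_zero, g3 i hi x hx]⟩
      | zero => exact ⟨0, P.zero_mem, by simp⟩
      | add x y _ _ h1 h2 =>
        obtain ⟨a, ha, h1⟩ := h1
        obtain ⟨c, hc', h2⟩ := h2
        refine ⟨a + c, P.add_mem ha hc', ?_⟩
        rw [show x + y - (a + c) = (x - a) + (y - c) by abel, smul_add, h1, h2]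
      | neg x _ h1 =>
        obtain ⟨a, ha, h1⟩ := h1
        refine ⟨-a, P.neg_mem ha, ?_⟩
        rw [show -x - -a = -(x - a) by abel, smul_neg, h1]
    have g5 : ∀ x ∈ B, x ∈ PP → x ∈ P := by
      intro x hx hx'
      obtain ⟨a, ha, h1⟩ := g4 x hx'
      have h2 := hinj (x - a) (B.sub_mem hx (hPB ha)) h1
      rwa [sub_eq_zero.1 h2]
    -- stability of `PP`
    have s1 : ∀ (g : G), (∀ i : ℤ, ∀ x ∈ P, g • t ^ i • x ∈ PP) → ∀ e ∈ PP, g • e ∈ PP := by
      intro g hg e he
      induction he using AddSubgroup.closure_induction with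
      | mem x hx =>
        obtain ⟨i, x, hx, rfl⟩ := hx
        exact hg i x hx
      | zero => rw [smul_zero]; exact PP.zero_mem
      | add x y _ _ h1 h2 => rw [smul_add]; exact PP.add_mem h1 h2
      | neg x _ h1 => rw [smul_neg]; exact PP.neg_mem h1
    have st : ∀ e ∈ PP, t • e ∈ PP := by
      apply s1
      intro i x hx
      rw [← mul_smul]
      exact AddSubgroup.subset_closure ⟨1 + i, x, hx, by rw [zpow_add, zpow_one]⟩
    have st' : ∀ e ∈ PP, t⁻¹ • e ∈ PP := by
      apply s1
      intro i x hx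
      rw [← mul_smul]
      exact AddSubgroup.subset_closure ⟨-1 + i, x, hx, by rw [zpow_add, zpow_neg_one]⟩
    have sm : ∀ e ∈ PP, m • e ∈ PP := by
      apply s1
      intro i x hx
      by_cases hi : i = 0
      · subst hi
        rw [zpow_zero, one_smul]
        exact hPP (hPm x hx).1
      · rw [g3 i hi x hx]
        exact AddSubgroup.subset_closure ⟨i, x, hx, rfl⟩
    have sm' : ∀ e ∈ PP, m⁻¹ • e ∈ PP := by
      apply s1
      intro i x hx
      by_cases hi : i = 0
      · subst hi
        rw [zpow_zero, one_smul]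
        exact hPP (hPm x hx).2
      · have : m⁻¹ • t ^ i • x = t ^ i • x := by
          rw [inv_smul_eq_iff, g3 i hi x hx]
        rw [this]
        exact AddSubgroup.subset_closure ⟨i, x, hx, rfl⟩
    -- the group
    let Γ : Subgroup G := Subgroup.closure {j β', m, t}
    have hb' : j β' ∈ Γ := Subgroup.subset_closure (by simp)
    have hm' : m ∈ Γ := Subgroup.subset_closure (by simp)
    have ht' : t ∈ Γ := Subgroup.subset_closure (by simp)
    have sG : ∀ g ∈ Γ, (∀ e ∈ PP, g • e ∈ PP) ∧ ∀ e ∈ PP, g⁻¹ • e ∈ PP := by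
      intro g hg
      induction hg using Subgroup.closure_induction with
      | mem g hg =>
        rcases hg with rfl | rfl | rfl
        · refine ⟨fun e he => ?_, fun e he => ?_⟩
          · rw [hj.triv hDD (hj.mem β')]; exact he
          · rw [hj.triv hDD (D.inv_mem (hj.mem β'))]; exact he
        · exact ⟨sm, sm'⟩
        · exact ⟨st, st'⟩
      | one => exact ⟨fun e he => by rwa [one_smul], fun e he => by rwa [inv_one, one_smul]⟩
      | mul g k _ _ h1 h2 =>
        refine ⟨fun e he => ?_, fun e he => ?_⟩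
        · rw [mul_smul]; exact h1.1 _ (h2.1 _ he)
        · rw [mul_inv_rev, mul_smul]; exact h2.2 _ (h1.2 _ he)
      | inv g _ h1 => exact ⟨h1.2, by rw [inv_inv]; exact h1.1⟩
    let NG : Subgroup G :=
      { carrier := {g | ∃ e ∈ PP, j e = g}
        one_mem' := ⟨0, PP.zero_mem, hj.zero⟩
        mul_mem' := by
          rintro _ _ ⟨x, hx, rfl⟩ ⟨y, hy, rfl⟩
          exact ⟨x + y, PP.add_mem hx hy, hj.add x y⟩
        inv_mem' := by
          rintro _ ⟨x, hx, rfl⟩
          exact ⟨-x, PP.neg_mem hx, hj.neg x⟩ }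
    have hNG : ∀ e, j e ∈ NG ↔ e ∈ PP := by
      intro e
      constructor
      · rintro ⟨x, hx, h1⟩
        rwa [← hj.inj h1]
      · intro he
        exact ⟨e, he, rfl⟩
    let N : Subgroup ↥Γ := NG.subgroupOf Γ
    have hN : N.Normal := by
      constructor
      intro n hn g
      rw [Subgroup.mem_subgroupOf] at hn ⊢
      obtain ⟨x, hx, h1⟩ := hn
      refine ⟨(g : G) • x, (sG g g.2).1 x hx, ?_⟩
      rw [hj.act, h1]; rfl
    have hNmem : ∀ g : ↥Γ, (QuotientGroup.mk g : ↥Γ ⧸ N) = 1 ↔ (g : G) ∈ NG := by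
      intro g
      rw [QuotientGroup.eq_one_iff, Subgroup.mem_subgroupOf]
    let B' : ↥Γ := ⟨j β', hb'⟩
    let M' : ↥Γ := ⟨m, hm'⟩
    let T' : ↥Γ := ⟨t, ht'⟩
    have hcomm : ∀ (g : ↥Γ), (⁅(QuotientGroup.mk B' : ↥Γ ⧸ N), (QuotientGroup.mk g : ↥Γ ⧸ N)⁆ = 1 ↔
        β' - (g : G) • β' ∈ PP) := by
      intro g
      have h1 : ⁅(QuotientGroup.mk B' : ↥Γ ⧸ N), (QuotientGroup.mk g : ↥Γ ⧸ N)⁆ =
          QuotientGroup.mk ⁅B', g⁆ := rfl
      rw [h1, hNmem]
      have h2 : ((⁅B', g⁆ : ↥Γ) : G) = ⁅j β', (g : G)⁆ := rfl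
      rw [h2, hj.comm, hNG]
    have hβB : β' ∈ B := by
      rw [hB]; exact AddSubgroup.subset_closure ⟨0, by simp⟩
    refine ⟨p, q, ↥Γ ⧸ N, inferInstance, QuotientGroup.mk B', QuotientGroup.mk (M' ^ r),
      QuotientGroup.mk T', hp, hq, hpq, (hG.subgroup Γ).quot N, ?_, ?_⟩
    · refine ⟨(D.subgroupOf Γ).map (QuotientGroup.mk' N), ?_, ?_, ?_, ?_, ?_, ?_, ?_⟩
      · exact Subgroup.Normal.map inferInstance _ (QuotientGroup.mk'_surjective N)
      · rw [← Subgroup.map_commutator, eq_bot_iff]
        rintro _ ⟨x, hx, rfl⟩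
        have h1 : ⁅D.subgroupOf Γ, D.subgroupOf Γ⁆ ≤ ⊥ := by
          rw [Subgroup.commutator_le]
          intro a ha c hc'
          rw [Subgroup.mem_subgroupOf] at ha hc'
          have h2 : ⁅(a : G), (c : G)⁆ ∈ (⊥ : Subgroup G) :=
            hDD ▸ Subgroup.commutator_mem_commutator ha hc'
          rw [Subgroup.mem_bot] at h2 ⊢
          exact Subtype.ext h2
        have h3 := h1 hx
        rw [Subgroup.mem_bot] at h3 ⊢
        rw [h3, map_one]
      · exact ⟨B', Subgroup.mem_subgroupOf.2 (hj.mem β'), rfl⟩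
      · have h1 : (QuotientGroup.mk B' : ↥Γ ⧸ N) ^ p = QuotientGroup.mk (B' ^ p) := rfl
        rw [h1, hNmem]
        have h2 : ((B' ^ p : ↥Γ) : G) = j (p • β') := by
          rw [hj.nsmul]; rfl
        rw [h2, hNG]
        exact hPP f1
      · intro i hi
        have h1 : (QuotientGroup.mk T' : ↥Γ ⧸ N) ^ i * QuotientGroup.mk (M' ^ r) *
            (QuotientGroup.mk T' : ↥Γ ⧸ N) ^ (-i) =
            QuotientGroup.mk (T' ^ i * M' ^ r * T' ^ (-i)) := rfl
        rw [h1, hcomm]
        have h2 : ((T' ^ i * M' ^ r * T' ^ (-i) : ↥Γ) : G) = mi i ^ r := by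
          have : ((T' ^ i * M' ^ r * T' ^ (-i) : ↥Γ) : G) = t ^ i * m ^ r * t ^ (-i) := rfl
          rw [this, hmi]
          simp only [zpow_neg]
          rw [conj_pow]
        rw [h2]
        have h3 : mi i ^ r • β' = β' := pow_fix (g1 i hi) r
        rw [h3, sub_self]
        exact PP.zero_mem
      · rintro i _ ⟨d, hd, rfl⟩
        have h1 : ⁅⁅(QuotientGroup.mk (M' ^ r) : ↥Γ ⧸ N), (QuotientGroup.mk T' : ↥Γ ⧸ N) ^ i *
            QuotientGroup.mk (M' ^ r) * (QuotientGroup.mk T' : ↥Γ ⧸ N) ^ (-i)⁆,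
            QuotientGroup.mk' N d⁆ =
            QuotientGroup.mk ⁅⁅M' ^ r, T' ^ i * M' ^ r * T' ^ (-i)⁆, d⁆ := rfl
        rw [h1]
        have h4 : (⁅⁅M' ^ r, T' ^ i * M' ^ r * T' ^ (-i)⁆, d⁆ : ↥Γ) = 1 := by
          apply Subtype.ext
          have h5 : ((⁅⁅M' ^ r, T' ^ i * M' ^ r * T' ^ (-i)⁆, d⁆ : ↥Γ) : G) =
              ⁅⁅m ^ r, t ^ i * m ^ r * t ^ (-i)⁆, (d : G)⁆ := rfl
          rw [h5]
          apply hj.cent' _ _ (Subgroup.mem_subgroupOf.1 hd)
          have h2 : t ^ i * m ^ r * t ^ (-i) = mi i ^ r := by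
            rw [hmi]
            simp only [zpow_neg]
            rw [conj_pow]
          rw [h2]
          apply comm_act'
          intro x
          apply pow_comm_act
          intro y
          symm
          apply pow_comm_act
          intro w
          exact (c1 i w).symm
        rw [h4]; rfl
      · have h1 : (QuotientGroup.mk (M' ^ r) : ↥Γ ⧸ N) ^ q = QuotientGroup.mk (M' ^ (r * q)) := by
          rw [pow_mul]; rfl
        rw [h1, hcomm]
        have h2 : ((M' ^ (r * q) : ↥Γ) : G) = m ^ (r * q) := rfl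
        rw [h2, ← neg_sub]
        exact PP.neg_mem (hPP f2)
    · intro h0
      rw [hcomm] at h0
      have h2 : ((M' ^ r : ↥Γ) : G) = m ^ r := rfl
      rw [h2] at h0
      apply f3
      have h3 : β' - m ^ r • β' ∈ P := by
        apply g5 _ _ h0
        apply B.sub_mem hβB
        rw [hB]
        exact AddSubgroup.subset_closure ⟨r, by rw [zpow_natCast]⟩
      rw [← neg_sub]
      exact P.neg_mem h3

end Pool.Agent.TH615.HGX4
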