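import Mathlib
import Pool.Agent.TH371.Apy.Defs

/-! # Closeness lemma for two solutions of a three-term recurrence -/

set_option autoImplicit false

namespace Pool.Agent.TH615.Apy

open Pool.Agent.TH371.Apy
open Finset

/-- the number `exp (-17/10)` -/
noncomputable def E : ℝ := Real.exp (-(17 / 10))

theorem E_pos : 0 < E := Real.exp_pos _

theorem E_le : E ≤ 1827 / 10000 := by
  have h1 : (10000 / 1827 : ℝ) ≤ Real.exp (17 / 10) := by
    refine le_trans ?_ (Real.sum_le_exp_of_nonneg (by norm_num : (0 : ℝ) ≤ 17 / 10) 12)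
    norm_num [Finset.sum_range_succ, Nat.factorial]
  have h2 : E * Real.exp (17 / 10) = 1 := by
    unfold E
    rw [← Real.exp_add]
    norm_num
  have h3 : E * (10000 / 1827) ≤ 1 := by
    rw [← h2]
    exact mul_le_mul_of_nonneg_left h1 E_pos.le
  linarith

theorem E_ge : 6 ≤ 33 * E := by
  have h0 : Real.exp (7 / 10) ≤ 2015 / 1000 := by
    refine (Real.exp_bound' (by norm_num : (0 : ℝ) ≤ 7 / 10) (by norm_num) (n := 6)
      (by norm_num)).trans ?_
    norm_num [Finset.sum_range_succ, Nat.factorial]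
  have h1 : Real.exp (17 / 10) ≤ 55 / 10 := by
    have e : (17 / 10 : ℝ) = 1 + 7 / 10 := by norm_num
    rw [e, Real.exp_add]
    have h3 := Real.exp_one_lt_d9
    have h4 := Real.exp_pos (7 / 10)
    have h5 := Real.exp_pos 1
    calc Real.exp 1 * Real.exp (7 / 10) ≤ 2.7182818286 * (2015 / 1000) :=
          mul_le_mul h3.le h0 h4.le (by norm_num)
      _ ≤ 55 / 10 := by norm_num
  have h2 : E * Real.exp (17 / 10) = 1 := by
    unfold E
    rw [← Real.exp_add]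
    norm_num
  have h3 : 1 ≤ E * (55 / 10) := by
    rw [← h2]
    exact mul_le_mul_of_nonneg_left h1 E_pos.le
  linarith

theorem exp_eq (n : ℕ) : Real.exp (-(17 / 10) * (n : ℝ)) = E ^ n := by
  unfold E
  rw [← Real.exp_nat_mul]
  congr 1
  ring

/-- `(n+1)^2 E^n` -/
noncomputable def g (n : ℕ) : ℝ := ((n : ℝ) + 1) ^ 2 * E ^ n

theorem g_pos (n : ℕ) : 0 < g n := by
  unfold g
  have := E_pos
  positivity

theorem sq_ratio (n : ℕ) (hn : 52 ≤ n) : ((n : ℝ) + 2) ^ 2 * 53 ^ 2 ≤ 54 ^ 2 * ((n : ℝ) + 1) ^ 2 := by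
  have h : (52 : ℝ) ≤ n := by exact_mod_cast hn
  have h1 : ((n : ℝ) + 2) * 53 ≤ 54 * ((n : ℝ) + 1) := by linarith
  have h2 : (0 : ℝ) ≤ ((n : ℝ) + 2) * 53 := by positivity
  have := pow_le_pow_left₀ h2 h1 2
  rw [mul_pow, mul_pow] at this
  exact this

theorem g_succ (n : ℕ) (hn : 52 ≤ n) : g (n + 1) ≤ 19 / 100 * g n := by
  unfold g
  have h := sq_ratio n hn
  have hE := E_le
  have hE0 := E_pos
  have hp : 0 < E ^ n := pow_pos hE0 n
  have e : (((n + 1 : ℕ) : ℝ) + 1) = (n : ℝ) + 2 := by push_cast; ring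
  rw [e, pow_succ]
  have h1 : ((n : ℝ) + 2) ^ 2 ≤ 54 ^ 2 / 53 ^ 2 * ((n : ℝ) + 1) ^ 2 := by
    rw [div_mul_eq_mul_div, le_div_iff₀ (by norm_num)]
    exact h
  calc ((n : ℝ) + 2) ^ 2 * (E ^ n * E) = ((n : ℝ) + 2) ^ 2 * E * E ^ n := by ring
    _ ≤ (54 ^ 2 / 53 ^ 2 * ((n : ℝ) + 1) ^ 2) * (1827 / 10000) * E ^ n := by
        apply mul_le_mul_of_nonneg_right _ hp.le
        exact mul_le_mul h1 hE hE0.le (by positivity)
    _ ≤ 19 / 100 * (((n : ℝ) + 1) ^ 2 * E ^ n) := by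
        have h2 : (0 : ℝ) ≤ ((n : ℝ) + 1) ^ 2 * E ^ n := by positivity
        have h3 : (54 ^ 2 / 53 ^ 2 * ((n : ℝ) + 1) ^ 2) * (1827 / 10000) * E ^ n =
            (54 ^ 2 / 53 ^ 2 * (1827 / 10000)) * (((n : ℝ) + 1) ^ 2 * E ^ n) := by ring
        rw [h3]
        exact mul_le_mul_of_nonneg_right (by norm_num) h2

theorem g_small (M : ℕ) (hM : 52 ≤ M) : 290 * g M ≤ 7 / 100 * (1 / 4) ^ M := by
  induction M, hM using Nat.le_induction with
  | base =>
    unfold g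
    have h1 : E ^ 52 ≤ (1827 / 10000) ^ 52 := pow_le_pow_left₀ E_pos.le E_le 52
    have h2 : (290 : ℝ) * ((((52 : ℕ) : ℝ) + 1) ^ 2 * (1827 / 10000) ^ 52) ≤
        7 / 100 * (1 / 4) ^ 52 := by norm_num
    refine le_trans ?_ h2
    have h3 : (0 : ℝ) ≤ (((52 : ℕ) : ℝ) + 1) ^ 2 := by positivity
    exact mul_le_mul_of_nonneg_left (mul_le_mul_of_nonneg_left h1 h3) (by norm_num)
  | succ n hn ih =>
    have h := g_succ n hn
    have h2 : (0 : ℝ) < (1 / 4) ^ n := by positivity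
    rw [pow_succ]
    linarith

theorem g_anti (M n : ℕ) (hM : 52 ≤ M) (hn : M ≤ n) : g n ≤ g M := by
  induction n, hn using Nat.le_induction with
  | base => exact le_rfl
  | succ n hn ih =>
    have h := g_succ n (hM.trans hn)
    have := g_pos n
    linarith

section main

variable (d : ℕ) (hd : 2 ≤ d) (σ t : ℝ) (hσ : |σ| ≤ 1) (ht : 11 ≤ t)
    (lam u P b ε : ℕ → ℝ) (hu0 : 1 ≤ u 0) (hu : ∀ n, 3 * u n ≤ u (n + 1))
    (ru : ∀ n : ℕ, ((n : ℝ) + 2) ^ d * u (n + 2) =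
      lam n * u (n + 1) + σ * ((n : ℝ) + 1) ^ d * u n)
    (rP : ∀ n : ℕ, t * ((n : ℝ) + 2) ^ d * P (n + 2) =
      lam n * P (n + 1) + σ * ((n : ℝ) + 1) ^ d / t * P n + ε n)
    (hP : ∀ n : ℕ, 1 ≤ 100 * ((n : ℝ) + 1) ^ 2 * P n)
    (hε : ∀ n : ℕ, |ε n| ≤ 20 * ((n : ℝ) + 2) ^ 2 * Real.exp (-(17 / 10) * ((n : ℝ) + 1)))
    (hW : |u 0 * (t * P 1) - u 1 * P 0| ≤ 1000)
    (hb : ∀ n : ℕ, 1 ≤ n → |b n - P n| ≤ 10 * Real.exp (-(17 / 10) * (n : ℝ)))

include hu0 hu in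
theorem u_ge (n : ℕ) : 3 ^ n ≤ u n := by
  induction n with
  | zero => simpa using hu0
  | succ n ih => rw [pow_succ]; have := hu n; linarith

include hP in
theorem P_pos (n : ℕ) : 0 < P n := by
  have h := hP n
  by_contra hc
  push Not at hc
  have h2 : 100 * ((n : ℝ) + 1) ^ 2 * P n ≤ 0 :=
    mul_nonpos_of_nonneg_of_nonpos (by positivity) hc
  linarith

/-- the Casoratian -/
noncomputable def W (t : ℝ) (u P : ℕ → ℝ) (n : ℕ) : ℝ :=
  u n * (t ^ (n + 1) * P (n + 1)) - u (n + 1) * (t ^ n * P n)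

include ht ru rP in
theorem W_succ (n : ℕ) : ((n : ℝ) + 2) ^ d * W t u P (n + 1) =
    -σ * ((n : ℝ) + 1) ^ d * W t u P n + u (n + 1) * t ^ (n + 1) * ε n := by
  have h1 := ru n
  have h2 := rP n
  have ht0 : t ≠ 0 := by
    have : (0 : ℝ) < t := by linarith
    exact this.ne'
  unfold W
  have e1 : ((n : ℝ) + 2) ^ d * (u (n + 1) * (t ^ (n + 1 + 1) * P (n + 1 + 1)) -
      u (n + 1 + 1) * (t ^ (n + 1) * P (n + 1))) =
      u (n + 1) * t ^ (n + 1) * (t * ((n : ℝ) + 2) ^ d * P (n + 2)) -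
        (((n : ℝ) + 2) ^ d * u (n + 2)) * (t ^ (n + 1) * P (n + 1)) := by
    ring
  rw [e1, h1, h2]
  field_simp
  ring

/-- the majorant of the inhomogeneity -/
noncomputable def ee (t : ℝ) (u : ℕ → ℝ) (n : ℕ) : ℝ := u n * t ^ n * (20 * g n)

include ht hu0 hu in
theorem ee_succ (n : ℕ) : 6 * ee t u n ≤ ee t u (n + 1) := by
  have hun : 0 < u n := lt_of_lt_of_le (by positivity) (u_ge u hu0 hu n)
  have ht0 : 0 < t := by linarith
  have hE := E_ge
  have hE0 := E_pos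
  unfold ee g
  have e : (((n + 1 : ℕ) : ℝ) + 1) = (n : ℝ) + 2 := by push_cast; ring
  rw [e]
  have h1 : 3 * u n ≤ u (n + 1) := hu n
  have h2 : 11 * t ^ n ≤ t ^ (n + 1) := by
    rw [pow_succ, mul_comm (t ^ n) t]
    exact mul_le_mul_of_nonneg_right ht (by positivity)
  have h3 : ((n : ℝ) + 1) ^ 2 ≤ ((n : ℝ) + 2) ^ 2 :=
    pow_le_pow_left₀ (by positivity) (by linarith) 2
  calc 6 * (u n * t ^ n * (20 * (((n : ℝ) + 1) ^ 2 * E ^ n)))
      ≤ (33 * E) * (u n * t ^ n * (20 * (((n : ℝ) + 1) ^ 2 * E ^ n))) :=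
        mul_le_mul_of_nonneg_right hE (by positivity)
    _ = (3 * u n) * (11 * t ^ n) * (20 * (((n : ℝ) + 1) ^ 2 * E ^ (n + 1))) := by
        rw [pow_succ]; ring
    _ ≤ u (n + 1) * t ^ (n + 1) * (20 * (((n : ℝ) + 2) ^ 2 * E ^ (n + 1))) := by
        apply mul_le_mul _ _ (by positivity) (by
          have : 0 < u (n + 1) := by linarith
          positivity)
        · exact mul_le_mul h1 h2 (by positivity) (by linarith)
        · exact mul_le_mul_of_nonneg_left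
            (mul_le_mul_of_nonneg_right h3 (by positivity)) (by norm_num)

include hσ ht ru rP hε hW hu0 hu in
theorem V_le (n : ℕ) : ((n : ℝ) + 1) ^ d * |W t u P n| ≤ 1000 + 6 / 5 * ee t u n := by
  have ht0 : 0 < t := by linarith
  induction n with
  | zero =>
    have h0 : 0 < ee t u 0 := by
      unfold ee
      have := g_pos 0
      have hu1 : 0 < u 0 := by linarith
      positivity
    have e : W t u P 0 = u 0 * (t * P 1) - u 1 * P 0 := by
      unfold W; simp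
    rw [e]
    have e2 : (((0 : ℕ) : ℝ) + 1) ^ d = 1 := by simp
    rw [e2, one_mul]
    linarith
  | succ n ih =>
    have hs := W_succ d σ t ht lam u P ε ru rP n
    have hun : 0 < u (n + 1) := lt_of_lt_of_le (by positivity) (u_ge u hu0 hu (n + 1))
    have e : (((n + 1 : ℕ) : ℝ) + 1) = (n : ℝ) + 2 := by push_cast; ring
    rw [e]
    have hpos : (0 : ℝ) ≤ ((n : ℝ) + 2) ^ d := by positivity
    have hpos1 : (0 : ℝ) ≤ ((n : ℝ) + 1) ^ d := by positivity
    have h1 : ((n : ℝ) + 2) ^ d * |W t u P (n + 1)| = |((n : ℝ) + 2) ^ d * W t u P (n + 1)| := by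
      rw [abs_mul, abs_of_nonneg hpos]
    rw [h1, hs]
    have h2 : |-σ * ((n : ℝ) + 1) ^ d * W t u P n| ≤ ((n : ℝ) + 1) ^ d * |W t u P n| := by
      rw [abs_mul, abs_mul, abs_neg, abs_of_nonneg hpos1]
      have : |σ| * (((n : ℝ) + 1) ^ d * |W t u P n|) ≤ 1 * (((n : ℝ) + 1) ^ d * |W t u P n|) :=
        mul_le_mul_of_nonneg_right hσ (by positivity)
      linarith
    have h3 : |u (n + 1) * t ^ (n + 1) * ε n| ≤ ee t u (n + 1) := by
      rw [abs_mul, abs_of_nonneg (by positivity : 0 ≤ u (n + 1) * t ^ (n + 1))]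
      unfold ee
      apply mul_le_mul_of_nonneg_left _ (by positivity)
      have h4 := hε n
      have e3 : Real.exp (-(17 / 10) * ((n : ℝ) + 1)) = E ^ (n + 1) := by
        rw [← exp_eq]; push_cast; rfl
      rw [e3] at h4
      unfold g
      rw [e]
      linarith
    have h5 := ee_succ t ht u hu0 hu n
    have h6 := abs_add_le (-σ * ((n : ℝ) + 1) ^ d * W t u P n) (u (n + 1) * t ^ (n + 1) * ε n)
    linarith

theorem tiny (n : ℕ) (hn : 52 ≤ n) : 9500 * (1 / 33 : ℝ) ^ n ≤ 3 * g n := by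
  have h1 : (9500 : ℝ) * (1 / 33) ^ n ≤ 3 * E ^ n := by
    have hE : (6 / 33 : ℝ) ≤ E := by have := E_ge; linarith
    have h2 : (6 / 33 : ℝ) ^ n ≤ E ^ n := pow_le_pow_left₀ (by norm_num) hE n
    have h3 : (6 / 33 : ℝ) ^ n = 6 ^ n * (1 / 33) ^ n := by
      rw [← mul_pow]; norm_num
    have h4 : (9500 : ℝ) ≤ 3 * 6 ^ n := by
      have : (6 : ℝ) ^ 52 ≤ 6 ^ n := pow_le_pow_right₀ (by norm_num) hn
      have h5 : (9500 : ℝ) ≤ 3 * 6 ^ 52 := by norm_num
      linarith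
    have h6 : (0 : ℝ) ≤ (1 / 33) ^ n := by positivity
    calc (9500 : ℝ) * (1 / 33) ^ n ≤ (3 * 6 ^ n) * (1 / 33) ^ n :=
          mul_le_mul_of_nonneg_right h4 h6
      _ = 3 * ((6 / 33 : ℝ) ^ n) := by rw [h3]; ring
      _ ≤ 3 * E ^ n := by linarith
  have h7 : E ^ n ≤ g n := by
    unfold g
    have h8 : (0 : ℝ) ≤ E ^ n := pow_nonneg E_pos.le n
    have h9 : (1 : ℝ) ≤ ((n : ℝ) + 1) ^ 2 := by
      have : (0 : ℝ) ≤ (n : ℝ) := Nat.cast_nonneg n
      nlinarith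
    nlinarith
  linarith

/-- the quotient of the two solutions -/
noncomputable def q (t : ℝ) (u P : ℕ → ℝ) (n : ℕ) : ℝ := u n / (t ^ n * P n)

include hd hσ ht ru rP hε hW hu0 hu hP in
theorem q_step (n : ℕ) (hn : 52 ≤ n) :
    |q t u P (n + 1) - q t u P n| ≤ 230 * g n * q t u P n := by
  have ht0 : 0 < t := by linarith
  have hun : 0 < u n := lt_of_lt_of_le (by positivity) (u_ge u hu0 hu n)
  have hPn := P_pos P hP n
  have hPn1 := P_pos P hP (n + 1)
  have hV := V_le d σ t hσ ht lam u P ε hu0 hu ru rP hε hW n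
  have e1 : q t u P (n + 1) - q t u P n =
      -(W t u P n / (u n * (t ^ (n + 1) * P (n + 1)))) * q t u P n := by
    unfold q W
    have h1 : t ^ n ≠ 0 := by positivity
    have h2 : t ^ (n + 1) ≠ 0 := by positivity
    have h3 := hPn.ne'
    have h4 := hPn1.ne'
    have h5 := hun.ne'
    field_simp
    ring
  have hq : 0 ≤ q t u P n := by unfold q; positivity
  rw [e1, abs_mul, abs_neg, abs_of_nonneg hq]
  apply mul_le_mul_of_nonneg_right _ hq
  rw [abs_div, abs_of_nonneg (by positivity : 0 ≤ u n * (t ^ (n + 1) * P (n + 1))),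
    div_le_iff₀ (by positivity)]
  -- the factor (n+1)^2
  have hn1 : (1 : ℝ) ≤ (n : ℝ) + 1 := by
    have : (0 : ℝ) ≤ (n : ℝ) := Nat.cast_nonneg n
    linarith
  have hd2 : ((n : ℝ) + 1) ^ 2 * |W t u P n| ≤ 1000 + 6 / 5 * ee t u n := by
    refine le_trans ?_ hV
    exact mul_le_mul_of_nonneg_right (pow_le_pow_right₀ hn1 hd) (abs_nonneg _)
  have hP1 : 1 ≤ 100 * ((n : ℝ) + 2) ^ 2 * P (n + 1) := by
    have := hP (n + 1)
    have e : (((n + 1 : ℕ) : ℝ) + 1) = (n : ℝ) + 2 := by push_cast; ring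
    rw [e] at this
    exact this
  have hrat := sq_ratio n hn
  have hge : (1 / 33 : ℝ) ^ n * (u n * t ^ n) ≥ 1 := by
    have h1 : (33 : ℝ) ^ n ≤ u n * t ^ n := by
      have h2 := u_ge u hu0 hu n
      have h3 : (11 : ℝ) ^ n ≤ t ^ n := pow_le_pow_left₀ (by norm_num) ht n
      have h4 : (33 : ℝ) ^ n = 3 ^ n * 11 ^ n := by rw [← mul_pow]; norm_num
      rw [h4]
      exact mul_le_mul h2 h3 (by positivity) hun.le
    have h5 : (1 / 33 : ℝ) ^ n * 33 ^ n = 1 := by rw [← mul_pow]; norm_num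
    have h6 : (1 / 33 : ℝ) ^ n * 33 ^ n ≤ (1 / 33 : ℝ) ^ n * (u n * t ^ n) :=
      mul_le_mul_of_nonneg_left h1 (by positivity)
    linarith
  have htiny := tiny n hn
  have hg := g_pos n
  set X : ℝ := u n * t ^ n with hX
  have hXpos : 0 < X := by positivity
  -- 1000 <= (1000/33^n) X
  have hA : 1000 + 6 / 5 * ee t u n ≤ (1000 * (1 / 33) ^ n + 24 * g n) * X := by
    have : ee t u n = X * (20 * g n) := rfl
    rw [this]
    nlinarith
  -- final estimate
  have hB : 100 * (54 ^ 2 / 53 ^ 2 : ℝ) / 11 * (1000 * (1 / 33) ^ n + 24 * g n) ≤ 230 * g n := by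
    have h1 : 0 ≤ (1 / 33 : ℝ) ^ n := by positivity
    have h2 : 100 * (54 ^ 2 / 53 ^ 2 : ℝ) / 11 * (1000 * (1 / 33) ^ n + 24 * g n) =
        (100 * (54 ^ 2 / 53 ^ 2 : ℝ) / 11 * 1000) * (1 / 33) ^ n +
          (100 * (54 ^ 2 / 53 ^ 2 : ℝ) / 11 * 24) * g n := by ring
    rw [h2]
    have h3 : (100 * (54 ^ 2 / 53 ^ 2 : ℝ) / 11 * 1000) * (1 / 33) ^ n ≤ 9500 * (1 / 33) ^ n :=
      mul_le_mul_of_nonneg_right (by norm_num) h1
    have h4 : (100 * (54 ^ 2 / 53 ^ 2 : ℝ) / 11 * 24) * g n ≤ 227 * g n :=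
      mul_le_mul_of_nonneg_right (by norm_num) hg.le
    linarith
  have hC : ((n : ℝ) + 1) ^ 2 * |W t u P n| ≤
      ((n : ℝ) + 1) ^ 2 * (230 * g n * (u n * (t ^ (n + 1) * P (n + 1)))) := by
    calc ((n : ℝ) + 1) ^ 2 * |W t u P n| ≤ (1000 * (1 / 33) ^ n + 24 * g n) * X :=
          hd2.trans hA
      _ ≤ (1000 * (1 / 33) ^ n + 24 * g n) * X * (100 * ((n : ℝ) + 2) ^ 2 * P (n + 1)) := by
          have h0 : 0 ≤ (1000 * (1 / 33) ^ n + 24 * g n) * X := by positivity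
          nlinarith
      _ ≤ (1000 * (1 / 33) ^ n + 24 * g n) * X *
            (100 * (54 ^ 2 / 53 ^ 2 * ((n : ℝ) + 1) ^ 2) * P (n + 1)) := by
          have h0 : 0 ≤ (1000 * (1 / 33) ^ n + 24 * g n) * X := by positivity
          apply mul_le_mul_of_nonneg_left _ h0
          apply mul_le_mul_of_nonneg_right _ hPn1.le
          have : ((n : ℝ) + 2) ^ 2 ≤ 54 ^ 2 / 53 ^ 2 * ((n : ℝ) + 1) ^ 2 := by
            rw [div_mul_eq_mul_div, le_div_iff₀ (by norm_num)]
            exact hrat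
          linarith
      _ = (100 * (54 ^ 2 / 53 ^ 2 : ℝ) / 11 * (1000 * (1 / 33) ^ n + 24 * g n)) *
            (11 * (X * P (n + 1) * ((n : ℝ) + 1) ^ 2)) := by ring
      _ ≤ (230 * g n) * (t * (X * P (n + 1) * ((n : ℝ) + 1) ^ 2)) := by
          apply mul_le_mul hB _ (by positivity) (by positivity)
          exact mul_le_mul_of_nonneg_right ht (by positivity)
      _ = ((n : ℝ) + 1) ^ 2 * (230 * g n * (u n * (t ^ (n + 1) * P (n + 1)))) := by
          rw [hX]; ring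
  exact le_of_mul_le_mul_left hC (by positivity)

include hd hσ ht ru rP hε hW hu0 hu hP in
theorem q_close (M n : ℕ) (hM : 52 ≤ M) (hn : M ≤ n) :
    |q t u P n - q t u P M| ≤ 11 / 10 * (290 * g M - 290 * g n) * q t u P M := by
  have ht0 : 0 < t := by linarith
  have hqpos : ∀ k, 0 < q t u P k := by
    intro k
    have h1 : 0 < u k := lt_of_lt_of_le (by positivity) (u_ge u hu0 hu k)
    have h2 := P_pos P hP k
    unfold q
    positivity
  have hgM := g_small M hM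
  have h4 : ((1 : ℝ) / 4) ^ M ≤ 1 := pow_le_one₀ (by norm_num) (by norm_num)
  induction n, hn using Nat.le_induction with
  | base => simp
  | succ n hn ih =>
    have hn52 := hM.trans hn
    have h1 := q_step d hd σ t hσ ht lam u P ε hu0 hu ru rP hP hε hW n hn52
    have h2 := g_succ n hn52
    have h3 := g_pos n
    have hQ := hqpos M
    -- q n <= (11/10) q M
    have h5 : q t u P n ≤ 11 / 10 * q t u P M := by
      have h6 := (abs_le.1 ih).2
      have h7 : 11 / 10 * (290 * g M - 290 * g n) ≤ 1 / 10 := by linarith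
      have h8 := mul_le_mul_of_nonneg_right h7 hQ.le
      linarith
    have h9 : |q t u P (n + 1) - q t u P M| ≤
        |q t u P (n + 1) - q t u P n| + |q t u P n - q t u P M| := abs_sub_le _ _ _
    have h10 : 230 * g n * q t u P n ≤ 230 * g n * (11 / 10 * q t u P M) :=
      mul_le_mul_of_nonneg_left h5 (by positivity)
    have h11 : 230 * g n ≤ 290 * g n - 290 * g (n + 1) := by linarith
    have h12 : 230 * g n * (11 / 10 * q t u P M) ≤
        (290 * g n - 290 * g (n + 1)) * (11 / 10 * q t u P M) :=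
      mul_le_mul_of_nonneg_right h11 (by positivity)
    calc |q t u P (n + 1) - q t u P M|
        ≤ (290 * g n - 290 * g (n + 1)) * (11 / 10 * q t u P M) +
          11 / 10 * (290 * g M - 290 * g n) * q t u P M := by linarith
      _ = 11 / 10 * (290 * g M - 290 * g (n + 1)) * q t u P M := by ring

end main

theorem close_of_rec (d : ℕ) (hd : 2 ≤ d) (σ t : ℝ) (hσ : |σ| ≤ 1) (ht : 11 ≤ t)
    (lam u P b ε : ℕ → ℝ) (hu0 : 1 ≤ u 0) (hu : ∀ n, 3 * u n ≤ u (n + 1))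
    (ru : ∀ n : ℕ, ((n : ℝ) + 2) ^ d * u (n + 2) =
      lam n * u (n + 1) + σ * ((n : ℝ) + 1) ^ d * u n)
    (rP : ∀ n : ℕ, t * ((n : ℝ) + 2) ^ d * P (n + 2) =
      lam n * P (n + 1) + σ * ((n : ℝ) + 1) ^ d / t * P n + ε n)
    (hP : ∀ n : ℕ, 1 ≤ 100 * ((n : ℝ) + 1) ^ 2 * P n)
    (hε : ∀ n : ℕ, |ε n| ≤ 20 * ((n : ℝ) + 2) ^ 2 * Real.exp (-(17 / 10) * ((n : ℝ) + 1)))
    (hW : |u 0 * (t * P 1) - u 1 * P 0| ≤ 1000)
    (hb : ∀ n : ℕ, 1 ≤ n → |b n - P n| ≤ 10 * Real.exp (-(17 / 10) * (n : ℝ))) :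
    Close u b := by
  intro M hM
  have ht0 : 0 < t := by linarith
  have hqM : 0 < q t u P M := by
    have h1 : 0 < u M := lt_of_lt_of_le (by positivity) (u_ge u hu0 hu M)
    have h2 := P_pos P hP M
    unfold q
    positivity
  refine ⟨q t u P M, t, hqM, ht0, ?_⟩
  intro n hn
  have hPn := P_pos P hP n
  have h1 := q_close d hd σ t hσ ht lam u P ε hu0 hu ru rP hP hε hW M n hM hn
  have hsm := g_small M hM
  have hanti := g_anti M n hM hn
  have hgn := g_pos n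
  have h4pos : (0 : ℝ) < (1 / 4) ^ M := by positivity
  have h4 : ((1 : ℝ) / 4) ^ M ≤ 1 := pow_le_one₀ (by norm_num) (by norm_num)
  set C := q t u P M with hC
  have htn : 0 < t ^ n := by positivity
  -- u n
  have eu : u n = q t u P n * (t ^ n * P n) := by
    unfold q
    field_simp
  have hx : |q t u P n - C| ≤ 77 / 1000 * (1 / 4) ^ M * C := by
    refine h1.trans (mul_le_mul_of_nonneg_right ?_ hqM.le)
    linarith
  have hy : |b n - P n| ≤ 1 / 4 * (1 / 4) ^ M * P n := by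
    have h2 := hb n (by omega)
    rw [exp_eq] at h2
    have h3 : 10 * E ^ n ≤ 1000 * g n * P n := by
      have h5 := hP n
      have h6 : 0 ≤ 10 * E ^ n := by have := E_pos; positivity
      have h7 : 1000 * g n * P n = 10 * E ^ n * (100 * ((n : ℝ) + 1) ^ 2 * P n) := by
        unfold g; ring
      rw [h7]
      nlinarith
    have h8 : 1000 * g n ≤ 1 / 4 * (1 / 4) ^ M := by linarith
    have h9 := mul_le_mul_of_nonneg_right h8 hPn.le
    linarith
  have hbn : 3 / 4 * P n ≤ b n := by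
    have h2 := (abs_le.1 hy).1
    have h3 : 1 / 4 * (1 / 4) ^ M * P n ≤ 1 / 4 * P n := by
      apply mul_le_mul_of_nonneg_right _ hPn.le
      linarith
    linarith
  have e1 : u n - C * t ^ n * b n =
      (q t u P n - C) * (t ^ n * P n) - C * t ^ n * (b n - P n) := by
    rw [eu]; ring
  have hCt : 0 < C * t ^ n := by positivity
  have h2 : |u n - C * t ^ n * b n| ≤
      77 / 1000 * (1 / 4) ^ M * C * (t ^ n * P n) + C * t ^ n * (1 / 4 * (1 / 4) ^ M * P n) := by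
    rw [e1]
    refine (abs_sub _ _).trans ?_
    apply add_le_add
    · rw [abs_mul, abs_of_pos (by positivity : 0 < t ^ n * P n)]
      exact mul_le_mul_of_nonneg_right hx (by positivity)
    · rw [abs_mul, abs_of_pos hCt]
      exact mul_le_mul_of_nonneg_left hy hCt.le
  have h3 : (1 / 4) ^ M * (C * t ^ n * (3 / 4 * P n)) ≤ (1 / 4) ^ M * (C * t ^ n * b n) :=
    mul_le_mul_of_nonneg_left (mul_le_mul_of_nonneg_left hbn hCt.le) h4pos.le
  have h5 : 0 ≤ (1 / 4) ^ M * (C * t ^ n * P n) := by positivity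
  have h6 : 77 / 1000 * (1 / 4) ^ M * C * (t ^ n * P n) + C * t ^ n * (1 / 4 * (1 / 4) ^ M * P n) =
      327 / 1000 * ((1 / 4) ^ M * (C * t ^ n * P n)) := by ring
  have h7 : (1 / 4) ^ M * (C * t ^ n * (3 / 4 * P n)) =
      3 / 4 * ((1 / 4) ^ M * (C * t ^ n * P n)) := by ring
  rw [h6] at h2
  rw [h7] at h3
  linarith

end Pool.Agent.TH615.Apy
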