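import Pool.Agent.TH371.Apy.Sys

/-! Jobs APY8, APY9: the integration by parts identities for the two densities. -/

set_option autoImplicit false

namespace Pool.Agent.TH615.Apy

open MeasureTheory Set Real
open Pool.Agent.TH371.Apy

/-! ### the constants -/

theorem tB_pos : 0 < tB := by
  unfold tB
  positivity

theorem tA_pos : 0 < tA := by
  unfold tA
  positivity

theorem tB_sub : tB - 1 / tB = 11 := by
  have h5 : √5 * √5 = 5 := Real.mul_self_sqrt (by norm_num)
  have h : tB * tB = 11 * tB + 1 := by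
    unfold tB
    linear_combination (25 / 4) * h5
  have h0 := tB_pos
  field_simp
  linarith

theorem tA_add : tA + 1 / tA = 34 := by
  have h2 : √2 * √2 = 2 := Real.mul_self_sqrt (by norm_num)
  have h : tA * tA = 34 * tA - 1 := by
    unfold tA
    linear_combination 144 * h2
  have h0 := tA_pos
  field_simp
  linarith

theorem qB_eq (y : ℝ) : qB y = 11 - tB * exp (-y) + exp y / tB := by
  have h := tB_sub
  unfold qB
  rw [sub_div]
  linarith

theorem qA_eq (y : ℝ) : qA y = 34 - tA * exp (-y) - exp y / tA := by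
  have h := tA_add
  unfold qA
  rw [sub_div]
  linarith

theorem deriv_expneg (y : ℝ) : HasDerivAt (fun y : ℝ => exp (-y)) (-exp (-y)) y := by
  have h := (hasDerivAt_neg y).exp
  rwa [mul_neg, mul_one] at h

theorem deriv_qB (y : ℝ) : HasDerivAt qB (qB' y) y := by
  have h1 := (((deriv_expneg y).const_sub 1).const_mul tB).add
    (((Real.hasDerivAt_exp y).sub_const 1).div_const tB)
  have h2 : tB * - -exp (-y) + exp y / tB = qB' y := by
    unfold qB'
    ring
  rw [h2] at h1
  exact h1

theorem deriv_qA (y : ℝ) : HasDerivAt qA (qA' y) y := by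
  have h1 := (((deriv_expneg y).const_sub 1).const_mul tA).sub
    (((Real.hasDerivAt_exp y).sub_const 1).div_const tA)
  have h2 : tA * - -exp (-y) - exp y / tA = qA' y := by
    unfold qA'
    ring
  rw [h2] at h1
  exact h1

theorem deriv_qA' (y : ℝ) : HasDerivAt qA' (qA y - 34) y := by
  have h1 := ((deriv_expneg y).const_mul tA).sub ((Real.hasDerivAt_exp y).div_const tA)
  have h2 : tA * -exp (-y) - exp y / tA = qA y - 34 := by
    rw [qA_eq]
    ring
  rw [h2] at h1
  exact h1

theorem cont_qB : Continuous qB :=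
  continuous_iff_continuousAt.mpr fun y => (deriv_qB y).continuousAt

theorem cont_qA : Continuous qA :=
  continuous_iff_continuousAt.mpr fun y => (deriv_qA y).continuousAt

theorem cont_qA' : Continuous qA' :=
  continuous_iff_continuousAt.mpr fun y => (deriv_qA' y).continuousAt

theorem cont_qB' : Continuous qB' := by
  unfold qB'
  fun_prop

theorem qB_pos {y : ℝ} (hy : 0 < y) : 0 < qB y := by
  unfold qB
  have h1 : exp (-y) < 1 := by
    rw [Real.exp_lt_one_iff]
    linarith
  have h2 : 1 < exp y := Real.one_lt_exp_iff.mpr hy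
  have h3 := tB_pos
  have h4 : 0 < tB * (1 - exp (-y)) := mul_pos h3 (by linarith)
  have h5 : 0 < (exp y - 1) / tB := div_pos (by linarith) h3
  linarith

theorem qA_pos {y : ℝ} (hy : 0 < y) (hy2 : y < 2) : 0 < qA y := by
  have h1 : exp (-y) < 1 := by
    rw [Real.exp_lt_one_iff]
    linarith
  have h3 := tA_pos
  have h4 : exp y < 9 := by
    have h5 : exp y < exp 2 := Real.exp_lt_exp.mpr hy2
    have h6 : exp 2 = exp 1 * exp 1 := by
      rw [← Real.exp_add]
      norm_num
    have h7 := Real.exp_one_lt_d9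
    have h8 := Real.exp_pos 1
    have h9 : exp 1 * exp 1 < 3 * 3 :=
      mul_lt_mul'' (by linarith) (by linarith) h8.le h8.le
    linarith
  have h17 : 17 ≤ tA := by
    unfold tA
    have := Real.sqrt_nonneg 2
    linarith
  have h10 : qA y = (1 - exp (-y)) * (tA - exp y / tA) := by
    unfold qA
    have h11 : exp (-y) * exp y = 1 := by
      rw [← Real.exp_add]
      simp
    have h12 : (1 - exp (-y)) * (tA - exp y / tA) =
        tA * (1 - exp (-y)) - (exp y - exp (-y) * exp y) / tA := by ring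
    rw [h12, h11]
  rw [h10]
  apply mul_pos (by linarith)
  have h13 : exp y / tA < 9 / 17 := by
    apply div_lt_div₀ h4 h17 (by norm_num) (by norm_num)
  linarith

/-! ### zeta(2) -/

theorem deriv_expz (z y : ℝ) : HasDerivAt (fun y : ℝ => exp (-(z * y))) (-z * exp (-(z * y))) y := by
  have h0 : HasDerivAt (fun y : ℝ => -(z * y)) (-(z * 1)) y := ((hasDerivAt_id y).const_mul z).neg
  have h := h0.exp
  have h2 : exp (-(z * y)) * -(z * 1) = -z * exp (-(z * y)) := by
    ring
  rw [h2] at h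
  exact h

theorem recP_B {f h : ℝ → ℝ} (H : Sys aB bB f h (173 / 100) 1 0) (n : ℕ) :
    tB * ((n : ℝ) + 2) ^ 2 *
        (∫ y in (0 : ℝ)..(17 / 10), exp (-((((n + 2 : ℕ) : ℝ) + 1 / 2) * y)) * f y) =
      (11 * ((n : ℝ) + 1) ^ 2 + 11 * ((n : ℝ) + 1) + 3) *
        (∫ y in (0 : ℝ)..(17 / 10), exp (-((((n + 1 : ℕ) : ℝ) + 1 / 2) * y)) * f y) +
      1 * ((n : ℝ) + 1) ^ 2 / tB *
        (∫ y in (0 : ℝ)..(17 / 10), exp (-(((n : ℝ) + 1 / 2) * y)) * f y) +
      exp (-(((n : ℝ) + 3 / 2) * (17 / 10))) *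
        (((n : ℝ) + 3 / 2) * qB (17 / 10) * f (17 / 10) + h (17 / 10)) := by
  set z : ℝ := (n : ℝ) + 3 / 2 with hz
  have hsub : Icc (0 : ℝ) (17 / 10) ⊆ Icc 0 (173 / 100) := Icc_subset_Icc le_rfl (by norm_num)
  have hcf : ContinuousOn f (Icc 0 (17 / 10)) := H.cf.mono hsub
  have hch : ContinuousOn h (Icc 0 (17 / 10)) := H.ch.mono hsub
  have hexpc : ∀ w : ℝ, Continuous (fun y : ℝ => exp (-(w * y))) := fun w => by fun_prop
  have hle : (0 : ℝ) ≤ 17 / 10 := by norm_num
  -- integrability
  have hint : ∀ w : ℝ, IntervalIntegrable (fun y => exp (-(w * y)) * f y) volume 0 (17 / 10) := by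
    intro w
    apply ContinuousOn.intervalIntegrable_of_Icc hle
    exact (hexpc w).continuousOn.mul hcf
  -- the primitive
  have hder : ∀ y ∈ Ioo (0 : ℝ) (17 / 10),
      HasDerivAt (fun y => exp (-(z * y)) * (z * qB y * f y + h y))
        (exp (-(z * y)) * f y * (-z ^ 2 * qB y + z * qB' y + (10 - qB y) / 4)) y := by
    intro y hy
    have hy' : y ∈ Ioo (0 : ℝ) (173 / 100) := ⟨hy.1, hy.2.trans (by norm_num)⟩
    have hq := qB_pos hy.1
    have h1 := H.df y hy'
    have h2 := H.dh y hy'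
    have h3 := (deriv_expz z y).mul ((((deriv_qB y).const_mul z).mul h1).add h2)
    refine h3.congr_deriv ?_
    show -z * exp (-(z * y)) * (z * qB y * f y + h y) +
      exp (-(z * y)) * (z * qB' y * f y + z * qB y * (aB y * h y) + bB y * f y) = _
    unfold aB bB
    have h4 : z * qB y * (1 / qB y * h y) = z * h y := by
      field_simp
    rw [h4]
    ring
  have hcR : ContinuousOn (fun y => exp (-(z * y)) * (z * qB y * f y + h y))
      (Icc 0 (17 / 10)) := by
    exact (hexpc z).continuousOn.mul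
      (((continuous_const.mul cont_qB).continuousOn.mul hcf).add hch)
  have hcR' : IntervalIntegrable (fun y => exp (-(z * y)) * f y *
      (-z ^ 2 * qB y + z * qB' y + (10 - qB y) / 4)) volume 0 (17 / 10) := by
    apply ContinuousOn.intervalIntegrable_of_Icc hle
    apply ((hexpc z).continuousOn.mul hcf).mul
    have := cont_qB
    have := cont_qB'
    apply Continuous.continuousOn
    fun_prop
  have hFTC := intervalIntegral.integral_eq_sub_of_hasDerivAt_of_le hle hcR hder hcR'
  have hR0 : exp (-(z * 0)) * (z * qB 0 * f 0 + h 0) = 0 := by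
    have : qB 0 = 0 := by
      unfold qB
      simp
    rw [this, H.h0]
    ring
  rw [hR0, sub_zero] at hFTC
  rw [← hFTC]
  have e2 : ((n + 2 : ℕ) : ℝ) + 1 / 2 = z + 1 := by
    rw [hz]
    push_cast
    ring
  have e1 : ((n + 1 : ℕ) : ℝ) + 1 / 2 = z := by
    rw [hz]
    push_cast
    ring
  have e0 : (n : ℝ) + 1 / 2 = z - 1 := by
    rw [hz]
    ring
  rw [e2, e1, e0]
  have en1 : (n : ℝ) + 1 = z - 1 / 2 := by
    rw [hz]
    ring
  have en2 : (n : ℝ) + 2 = z + 1 / 2 := by
    rw [hz]
    ring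
  rw [en1, en2]
  have hmain : tB * (z + 1 / 2) ^ 2 *
        (∫ y in (0 : ℝ)..(17 / 10), exp (-((z + 1) * y)) * f y) -
      (11 * (z - 1 / 2) ^ 2 + 11 * (z - 1 / 2) + 3) *
        (∫ y in (0 : ℝ)..(17 / 10), exp (-(z * y)) * f y) -
      1 * (z - 1 / 2) ^ 2 / tB *
        (∫ y in (0 : ℝ)..(17 / 10), exp (-((z - 1) * y)) * f y) =
      ∫ y in (0 : ℝ)..(17 / 10), exp (-(z * y)) * f y *
      (-z ^ 2 * qB y + z * qB' y + (10 - qB y) / 4) := by
    rw [← intervalIntegral.integral_const_mul, ← intervalIntegral.integral_const_mul,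
      ← intervalIntegral.integral_const_mul, ← intervalIntegral.integral_sub,
      ← intervalIntegral.integral_sub]
    · apply intervalIntegral.integral_congr
      intro y _
      have x1 : exp (-((z + 1) * y)) = exp (-(z * y)) * exp (-y) := by
        rw [← Real.exp_add]
        ring_nf
      have x2 : exp (-((z - 1) * y)) = exp (-(z * y)) * exp y := by
        rw [← Real.exp_add]
        ring_nf
      show tB * (z + 1 / 2) ^ 2 * (exp (-((z + 1) * y)) * f y) -
        (11 * (z - 1 / 2) ^ 2 + 11 * (z - 1 / 2) + 3) * (exp (-(z * y)) * f y) -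
        1 * (z - 1 / 2) ^ 2 / tB * (exp (-((z - 1) * y)) * f y) =
        exp (-(z * y)) * f y * (-z ^ 2 * qB y + z * qB' y + (10 - qB y) / 4)
      rw [x1, x2, qB_eq]
      unfold qB'
      ring
    · exact ((hint _).const_mul _).sub ((hint _).const_mul _)
    · exact (hint _).const_mul _
    · exact (hint _).const_mul _
    · exact (hint _).const_mul _
  linarith

/-! ### zeta(3) -/

theorem recP_A {f h g k : ℝ → ℝ} (H : Sys aA bA f h (173 / 100) 1 0)
    (G : Sys aA bA g k (173 / 100) 0 1) (n : ℕ) :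
    tA * ((n : ℝ) + 2) ^ 3 *
        (∫ y in (0 : ℝ)..(17 / 10), exp (-((((n + 2 : ℕ) : ℝ) + 1 / 2) * y)) * (f y * g y)) =
      (34 * ((n : ℝ) + 1) ^ 3 + 51 * ((n : ℝ) + 1) ^ 2 + 27 * ((n : ℝ) + 1) + 5) *
        (∫ y in (0 : ℝ)..(17 / 10), exp (-((((n + 1 : ℕ) : ℝ) + 1 / 2) * y)) * (f y * g y)) +
      (-1) * ((n : ℝ) + 1) ^ 3 / tA *
        (∫ y in (0 : ℝ)..(17 / 10), exp (-(((n : ℝ) + 1 / 2) * y)) * (f y * g y)) +
      exp (-(((n : ℝ) + 3 / 2) * (17 / 10))) *
        (((n : ℝ) + 3 / 2) ^ 2 * qA (17 / 10) * (f (17 / 10) * g (17 / 10)) +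
          ((n : ℝ) + 3 / 2) * √(qA (17 / 10)) *
            (h (17 / 10) * g (17 / 10) + f (17 / 10) * k (17 / 10)) -
          1 / 2 * ((n : ℝ) + 3 / 2) * qA' (17 / 10) * (f (17 / 10) * g (17 / 10)) -
          (28 - qA (17 / 10)) / 8 * (f (17 / 10) * g (17 / 10)) +
          2 * h (17 / 10) * k (17 / 10)) := by
  set z : ℝ := (n : ℝ) + 3 / 2 with hz
  have hsub : Icc (0 : ℝ) (17 / 10) ⊆ Icc 0 (173 / 100) := Icc_subset_Icc le_rfl (by norm_num)
  have hcf : ContinuousOn f (Icc 0 (17 / 10)) := H.cf.mono hsub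
  have hch : ContinuousOn h (Icc 0 (17 / 10)) := H.ch.mono hsub
  have hcg : ContinuousOn g (Icc 0 (17 / 10)) := G.cf.mono hsub
  have hck : ContinuousOn k (Icc 0 (17 / 10)) := G.ch.mono hsub
  have hexpc : ∀ w : ℝ, Continuous (fun y : ℝ => exp (-(w * y))) := fun w => by fun_prop
  have hle : (0 : ℝ) ≤ 17 / 10 := by norm_num
  have cq := cont_qA
  have cq' := cont_qA'
  have csq : Continuous (fun y => √(qA y)) := cq.sqrt
  -- integrability
  have hint : ∀ w : ℝ,
      IntervalIntegrable (fun y => exp (-(w * y)) * (f y * g y)) volume 0 (17 / 10) := by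
    intro w
    apply ContinuousOn.intervalIntegrable_of_Icc hle
    exact (hexpc w).continuousOn.mul (hcf.mul hcg)
  -- the primitive
  have hder : ∀ y ∈ Ioo (0 : ℝ) (17 / 10),
      HasDerivAt (fun y => exp (-(z * y)) * (z ^ 2 * qA y * (f y * g y) +
          z * √(qA y) * (h y * g y + f y * k y) - 1 / 2 * z * qA' y * (f y * g y) -
          (28 - qA y) / 8 * (f y * g y) + 2 * h y * k y))
        (-(exp (-(z * y)) * (f y * g y) * (z ^ 3 * qA y - 3 / 2 * z ^ 2 * qA' y +
          z * (3 / 4 * qA y - 24) - qA' y / 8))) y := by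
    intro y hy
    have hy' : y ∈ Ioo (0 : ℝ) (173 / 100) := ⟨hy.1, hy.2.trans (by norm_num)⟩
    have hq := qA_pos hy.1 (hy.2.trans (by norm_num))
    have hs : 0 < √(qA y) := Real.sqrt_pos.mpr hq
    have hss : √(qA y) * √(qA y) = qA y := Real.mul_self_sqrt hq.le
    have df := H.df y hy'
    have dh := H.dh y hy'
    have dg := G.df y hy'
    have dk := G.dh y hy'
    have dq := deriv_qA y
    have dq' := deriv_qA' y
    have ds := dq.sqrt hq.ne'
    have dP := df.mul dg
    have dQ := (dh.mul dg).add (df.mul dk)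
    have h1 := (dq.const_mul (z ^ 2)).mul dP
    have h2 := (ds.const_mul z).mul dQ
    have h3 := (dq'.const_mul (1 / 2 * z)).mul dP
    have h4 := ((dq.const_sub 28).div_const 8).mul dP
    have h5 := (dh.const_mul 2).mul dk
    have h6 := (deriv_expz z y).mul ((((h1.add h2).sub h3).sub h4).add h5)
    refine h6.congr_deriv ?_
    set s := √(qA y) with hsdef
    have ha : aA y = 1 / s := rfl
    have hb : bA y = (28 - qA y) / (16 * s) := rfl
    simp only [Pi.mul_apply, Pi.add_apply, Pi.sub_apply]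
    rw [ha, hb, ← hsdef, ← hss]
    field_simp
    ring
  have hcR : ContinuousOn (fun y => exp (-(z * y)) * (z ^ 2 * qA y * (f y * g y) +
          z * √(qA y) * (h y * g y + f y * k y) - 1 / 2 * z * qA' y * (f y * g y) -
          (28 - qA y) / 8 * (f y * g y) + 2 * h y * k y))
      (Icc 0 (17 / 10)) := by
    have hP := hcf.mul hcg
    have hQ := (hch.mul hcg).add (hcf.mul hck)
    exact (hexpc z).continuousOn.mul ((((((continuous_const.mul cq).continuousOn.mul hP).add
      ((continuous_const.mul csq).continuousOn.mul hQ)).sub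
      ((continuous_const.mul cq').continuousOn.mul hP)).sub
      (((continuous_const.sub cq).div_const 8).continuousOn.mul hP)).add
      ((continuousOn_const.mul hch).mul hck))
  have hcR' : IntervalIntegrable (fun y => -(exp (-(z * y)) * (f y * g y) *
        (z ^ 3 * qA y - 3 / 2 * z ^ 2 * qA' y +
          z * (3 / 4 * qA y - 24) - qA' y / 8))) volume 0 (17 / 10) := by
    apply ContinuousOn.intervalIntegrable_of_Icc hle
    apply ContinuousOn.neg
    apply ((hexpc z).continuousOn.mul (hcf.mul hcg)).mul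
    apply Continuous.continuousOn
    fun_prop
  have hFTC := intervalIntegral.integral_eq_sub_of_hasDerivAt_of_le hle hcR hder hcR'
  have hR0 : exp (-(z * 0)) * (z ^ 2 * qA 0 * (f 0 * g 0) +
          z * √(qA 0) * (h 0 * g 0 + f 0 * k 0) - 1 / 2 * z * qA' 0 * (f 0 * g 0) -
          (28 - qA 0) / 8 * (f 0 * g 0) + 2 * h 0 * k 0) = 0 := by
    have : qA 0 = 0 := by
      unfold qA
      simp
    rw [this, H.h0, G.f0, Real.sqrt_zero]
    ring
  rw [hR0, sub_zero] at hFTC
  rw [← hFTC]
  have e2 : ((n + 2 : ℕ) : ℝ) + 1 / 2 = z + 1 := by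
    rw [hz]
    push_cast
    ring
  have e1 : ((n + 1 : ℕ) : ℝ) + 1 / 2 = z := by
    rw [hz]
    push_cast
    ring
  have e0 : (n : ℝ) + 1 / 2 = z - 1 := by
    rw [hz]
    ring
  rw [e2, e1, e0]
  have en1 : (n : ℝ) + 1 = z - 1 / 2 := by
    rw [hz]
    ring
  have en2 : (n : ℝ) + 2 = z + 1 / 2 := by
    rw [hz]
    ring
  rw [en1, en2]
  have hmain : tA * (z + 1 / 2) ^ 3 *
        (∫ y in (0 : ℝ)..(17 / 10), exp (-((z + 1) * y)) * (f y * g y)) -
      (34 * (z - 1 / 2) ^ 3 + 51 * (z - 1 / 2) ^ 2 + 27 * (z - 1 / 2) + 5) *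
        (∫ y in (0 : ℝ)..(17 / 10), exp (-(z * y)) * (f y * g y)) -
      (-1) * (z - 1 / 2) ^ 3 / tA *
        (∫ y in (0 : ℝ)..(17 / 10), exp (-((z - 1) * y)) * (f y * g y)) =
      ∫ y in (0 : ℝ)..(17 / 10), -(exp (-(z * y)) * (f y * g y) *
        (z ^ 3 * qA y - 3 / 2 * z ^ 2 * qA' y +
          z * (3 / 4 * qA y - 24) - qA' y / 8)) := by
    rw [← intervalIntegral.integral_const_mul, ← intervalIntegral.integral_const_mul,
      ← intervalIntegral.integral_const_mul, ← intervalIntegral.integral_sub,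
      ← intervalIntegral.integral_sub]
    · apply intervalIntegral.integral_congr
      intro y _
      have x1 : exp (-((z + 1) * y)) = exp (-(z * y)) * exp (-y) := by
        rw [← Real.exp_add]
        ring_nf
      have x2 : exp (-((z - 1) * y)) = exp (-(z * y)) * exp y := by
        rw [← Real.exp_add]
        ring_nf
      show tA * (z + 1 / 2) ^ 3 * (exp (-((z + 1) * y)) * (f y * g y)) -
        (34 * (z - 1 / 2) ^ 3 + 51 * (z - 1 / 2) ^ 2 + 27 * (z - 1 / 2) + 5) *
          (exp (-(z * y)) * (f y * g y)) -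
        (-1) * (z - 1 / 2) ^ 3 / tA * (exp (-((z - 1) * y)) * (f y * g y)) =
        -(exp (-(z * y)) * (f y * g y) *
        (z ^ 3 * qA y - 3 / 2 * z ^ 2 * qA' y + z * (3 / 4 * qA y - 24) - qA' y / 8))
      rw [x1, x2, qA_eq]
      unfold qA'
      ring
    · exact ((hint _).const_mul _).sub ((hint _).const_mul _)
    · exact (hint _).const_mul _
    · exact (hint _).const_mul _
    · exact (hint _).const_mul _
  linarith

end Pool.Agent.TH615.Apy
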