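import Pool.Agent.TH371.Apy.Sys
import Pool.Agent.TH416.ApyVolterra

/-! Job APY7: solutions of the singular linear systems from the Volterra lemma. -/

set_option autoImplicit false

namespace Pool.Agent.TH615.Apy

open MeasureTheory Set Real
open Pool.Agent.TH371.Apy Pool.Agent.TH416.ApyVolterra

/-- primitives of nonnegative functions are nonnegative -/
theorem prim_nonneg {F : ℝ → ℝ} {y : ℝ} (hy : 0 ≤ y) (h : ∀ x ∈ Ioc 0 y, 0 ≤ F x) :
    0 ≤ ∫ x in (0 : ℝ)..y, F x := by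
  rw [intervalIntegral.integral_of_le hy]
  exact setIntegral_nonneg measurableSet_Ioc h

/-- derivative of a primitive -/
theorem prim_deriv {F : ℝ → ℝ} {y1 y : ℝ} (hF : ContinuousOn F (Ioc 0 y1))
    (hI : IntervalIntegrable F volume 0 y1) (hy : y ∈ Ioo 0 y1) :
    HasDerivAt (fun x => ∫ t in (0 : ℝ)..x, F t) (F y) y := by
  have h1 : ContinuousOn F (Ioo 0 y1) := hF.mono Ioo_subset_Ioc_self
  have h2 : IntervalIntegrable F volume 0 y := by
    refine hI.mono_set ?_
    rw [uIcc_of_le hy.1.le, uIcc_of_le (hy.1.le.trans hy.2.le)]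
    exact Icc_subset_Icc le_rfl hy.2.le
  have h3 : ContinuousAt F y := h1.continuousAt (Ioo_mem_nhds hy.1 hy.2)
  exact intervalIntegral.integral_hasDerivAt_right h2
    (h1.stronglyMeasurableAtFilter isOpen_Ioo y hy) h3

theorem exists_sys (y1 M : ℝ) (hy1 : 0 < y1) (a b : ℝ → ℝ)
    (ha : ContinuousOn a (Ioc 0 y1)) (hb : ContinuousOn b (Ioc 0 y1))
    (ha0 : ∀ y ∈ Ioc 0 y1, 0 ≤ a y) (hb0 : ∀ y ∈ Ioc 0 y1, 0 ≤ b y)
    (hbi : IntervalIntegrable b volume 0 y1)
    (hM : ∀ y ∈ Ioc 0 y1, (a y * ∫ x in (0 : ℝ)..y, b x) ≤ M) (hM1 : M * y1 < 1) :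
    (∃ f h : ℝ → ℝ, Sys a b f h y1 1 0) ∧
      (IntervalIntegrable a volume 0 y1 → ∃ g k : ℝ → ℝ, Sys a b g k y1 0 1) := by
  have H : Hyp y1 M a b := ⟨hy1, ha, ha0, hb0, hbi, hM⟩
  constructor
  · obtain ⟨ψ, hc, hn, he⟩ := volterra y1 M hy1 a b (fun _ => 1) ha hb ha0 hb0 hbi hM hM1
      continuousOn_const (fun _ _ => zero_le_one)
    have hJc := J_cont H hc
    have hbψ : ContinuousOn (fun ξ => b ξ * ψ ξ) (Ioc 0 y1) :=
      hb.mul (hc.mono Ioc_subset_Icc_self)
    have haJ : ContinuousOn (fun η => a η * J b ψ η) (Ioc 0 y1) :=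
      ha.mul (hJc.mono Ioc_subset_Icc_self)
    refine ⟨ψ, J b ψ, hc, hJc, ?_, ?_, ?_, ?_, ?_, ?_⟩
    · have := he 0 ⟨le_rfl, hy1.le⟩
      rw [intervalIntegral.integral_same, add_zero] at this
      exact this
    · unfold J
      exact intervalIntegral.integral_same
    · intro y hy
      have h1 := (prim_deriv haJ (int_aJ H hc) hy).const_add (1 : ℝ)
      refine h1.congr_of_eventuallyEq ?_
      filter_upwards [Ioo_mem_nhds hy.1 hy.2] with x hx
      exact he x ⟨hx.1.le, hx.2.le⟩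
    · intro y hy
      exact prim_deriv hbψ (int_bF H hc) hy
    · intro y hy
      rw [he y hy]
      have := K_nonneg (F := ψ) H hn hy
      unfold K J at this
      linarith
    · intro y hy
      refine prim_nonneg hy.1 ?_
      intro x hx
      exact mul_nonneg (hb0 x ⟨hx.1, hx.2.trans hy.2⟩) (hn x ⟨hx.1.le, hx.2.trans hy.2⟩)
  · intro hai
    have h0c : ContinuousOn (fun y => ∫ x in (0 : ℝ)..y, a x) (Icc 0 y1) := by
      have := intervalIntegral.continuousOn_primitive_interval' hai (left_mem_uIcc)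
      rwa [uIcc_of_le hy1.le] at this
    obtain ⟨ψ, hc, hn, he⟩ := volterra y1 M hy1 a b (fun y => ∫ x in (0 : ℝ)..y, a x) ha hb ha0 hb0
      hbi hM hM1 h0c
      (fun y hy => prim_nonneg hy.1 (fun x hx => ha0 x ⟨hx.1, hx.2.trans hy.2⟩))
    have hJc := J_cont H hc
    have hbψ : ContinuousOn (fun ξ => b ξ * ψ ξ) (Ioc 0 y1) :=
      hb.mul (hc.mono Ioc_subset_Icc_self)
    have haJ : ContinuousOn (fun η => a η * J b ψ η) (Ioc 0 y1) :=
      ha.mul (hJc.mono Ioc_subset_Icc_self)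
    refine ⟨ψ, fun y => 1 + J b ψ y, hc, continuousOn_const.add hJc, ?_, ?_, ?_, ?_, ?_, ?_⟩
    · have := he 0 ⟨le_rfl, hy1.le⟩
      simp only [intervalIntegral.integral_same, add_zero] at this
      exact this
    · show 1 + J b ψ 0 = 1
      unfold J
      rw [intervalIntegral.integral_same, add_zero]
    · intro y hy
      have h1 := (prim_deriv ha hai hy).add (prim_deriv haJ (int_aJ H hc) hy)
      have h2 : a y * (1 + J b ψ y) = a y + a y * J b ψ y := by ring
      show HasDerivAt ψ (a y * (1 + J b ψ y)) y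
      rw [h2]
      refine h1.congr_of_eventuallyEq ?_
      filter_upwards [Ioo_mem_nhds hy.1 hy.2] with x hx
      exact he x ⟨hx.1.le, hx.2.le⟩
    · intro y hy
      exact (prim_deriv hbψ (int_bF H hc) hy).const_add (1 : ℝ)
    · intro y hy
      exact hn y hy
    · intro y hy
      have : 0 ≤ J b ψ y := by
        refine prim_nonneg hy.1 ?_
        intro x hx
        exact mul_nonneg (hb0 x ⟨hx.1, hx.2.trans hy.2⟩) (hn x ⟨hx.1.le, hx.2.trans hy.2⟩)
      show 1 ≤ 1 + J b ψ y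
      linarith

end Pool.Agent.TH615.Apy
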