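import Mathlib
import Pool.Agent.TH974.IH.Box
import Pool.Agent.TH615.J2170

set_option autoImplicit false

open Finset MeasureTheory ProbabilityTheory Filter Topology
open scoped ENNReal NNReal

/-!
# IH-S3: surgery, replacing gadgets by paths (helper615)
-/

namespace Pool.Agent.TH615.IHS

open Pool.Agent.TH974.IH

variable {d : ℕ} {R : Type*} [CommRing R]

/-- splitting the Laplacian -/
lemma Lap_split {ι : Type*} [DecidableEq ι] (A : Finset ι) (E : ι → Finset (Ed d))
    (hE : ∀ i ∈ A, ∀ j ∈ A, i ≠ j → Disjoint (E i) (E j)) (ω : Env d) (u : Zd d → R) (v : Zd d) :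
    Lap ω u v = ∑ e ∈ (st v) \ (A.biUnion E), tm ω u v e + ∑ i ∈ A, flx (E i) ω u v := by
  classical
  rw [Lap_st, flx_def]
  have h1 : ∑ i ∈ A, flx (E i) ω u v = ∑ e ∈ A.biUnion E, tm ω u v e := by
    rw [sum_biUnion]
    · rfl
    · intro i hi j hj hij
      exact hE i hi j hj hij
  have h2 : ∑ e ∈ st v, tm ω u v e = ∑ e ∈ A.biUnion E ∪ st v, tm ω u v e := by
    apply sum_subset subset_union_right
    intro e _ he
    rw [mem_st] at he
    push Not at he
    exact tm_zero he.1 he.2
  rw [h1, h2, ← sdiff_union_self_eq_union.trans (union_comm _ _), sum_union]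
  · exact Finset.sdiff_disjoint

lemma flx_congr_tm {E : Finset (Ed d)} {ω : Env d} {u : Zd d → R} {v : Zd d}
    (h : ∀ e ∈ E, e.1 ≠ v ∧ hd e ≠ v) : flx E ω u v = 0 := by
  rw [flx_def]
  exact sum_eq_zero fun e he => tm_zero (h e he).1 (h e he).2

end Pool.Agent.TH615.IHS

namespace Pool.Agent.TH974.IH

open Pool.Agent.TH615.IHS

theorem S1det {d : ℕ} {ι : Type*} [DecidableEq ι] (q : ℕ) (B : Finset (Zd d)) (A : Finset ι)
    (V : ι → Finset (Zd d)) (x y : ι → Zd d) (E : ι → Finset (Ed d)) (pl : ι → List (Zd d))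
    (ω ω' : Env d) (hx : ∀ i ∈ A, x i ∉ V i) (hy : ∀ i ∈ A, y i ∉ V i)
    (hVB : ∀ i ∈ A, V i ⊆ B) (hpl : ∀ i ∈ A, IsP (V i) (pl i) (x i) (y i))
    (hdis : ∀ i ∈ A, ∀ j ∈ A, i ≠ j →
      Disjoint (insert (x i) (insert (y i) (V i))) (insert (x j) (insert (y j) (V j))))
    (hEV : ∀ i ∈ A, ∀ e ∈ E i, e.1 ∈ insert (x i) (insert (y i) (V i)) ∧
      hd e ∈ insert (x i) (insert (y i) (V i)))
    (honp : ∀ i ∈ A, ∀ e, onp (pl i) e → e ∈ E i)
    (hcl : ∀ i ∈ A, ∀ e, e ∉ E i → (e.1 ∈ V i ∨ hd e ∈ V i) → ω e = false)
    (hω : ∀ e, (∀ i ∈ A, e ∉ E i) → ω' e = ω e) (hA : ∀ i ∈ A, ω' ∈ Apath (E i) (pl i))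
    (hG : ∀ i ∈ A, Gad q ((pl i).length - 1) (E i) (V i) (x i) (y i) ω)
    (u : Zd d → ℤ) (hu : ∀ v ∈ B, Lap ω u v = 0) :
    ∃ u' : Zd d → ℤ, (∀ v ∈ B, Lap ω' u' v = 0) ∧
      (∀ i ∈ A, ∀ (k : ℕ) (hk : k + 1 < (pl i).length), (q : ℤ) ∣ u' (pl i)[k + 1] - u' (pl i)[k]) ∧
      ∀ v, (∀ i ∈ A, v ∉ V i) → u' v = u v := by
  classical
  -- uniqueness of the index
  have huniq : ∀ i ∈ A, ∀ j ∈ A, ∀ v, v ∈ insert (x i) (insert (y i) (V i)) →
      v ∈ insert (x j) (insert (y j) (V j)) → i = j := by
    intro i hi j hj v h1 h2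
    by_contra hne
    exact Finset.disjoint_left.1 (hdis i hi j hj hne) h1 h2
  have hVW : ∀ i, ∀ v ∈ V i, v ∈ insert (x i) (insert (y i) (V i)) := fun i v hv =>
    mem_insert_of_mem (mem_insert_of_mem hv)
  have hxW : ∀ i, x i ∈ insert (x i) (insert (y i) (V i)) := fun i => mem_insert_self _ _
  have hyW : ∀ i, y i ∈ insert (x i) (insert (y i) (V i)) := fun i =>
    mem_insert_of_mem (mem_insert_self _ _)
  have hxV : ∀ i ∈ A, ∀ j ∈ A, x i ∉ V j := by
    intro i hi j hj h
    have := huniq i hi j hj (x i) (hxW i) (hVW j _ h)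
    subst this
    exact hx i hi h
  have hyV : ∀ i ∈ A, ∀ j ∈ A, y i ∉ V j := by
    intro i hi j hj h
    have := huniq i hi j hj (y i) (hyW i) (hVW j _ h)
    subst this
    exact hy i hi h
  -- the currents
  have hflV : ∀ i ∈ A, ∀ v ∈ V i, flx (E i) ω u v = 0 := by
    intro i hi v hv
    rw [← Lap_flx (E := E i) u (fun e he ht => hcl i hi e he (by
      rcases ht with ht | ht
      · left; rw [ht]; exact hv
      · right; rw [ht]; exact hv))]
    exact hu v (hVB i hi hv)
  have hgad : ∀ i ∈ A, flx (E i) ω u (y i) = - flx (E i) ω u (x i) ∧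
      u (y i) - u (x i) = ((pl i).length - 1 : ℕ) * flx (E i) ω u (x i) ∧
      (q : ℤ) ∣ flx (E i) ω u (x i) := fun i hi => hG i hi u (fun v hv _ _ => hflV i hi v hv)
  -- the function
  let I : ι → ℤ := fun i => flx (E i) ω u (x i)
  let u' : Zd d → ℤ := fun v =>
    if h : ∃ i ∈ A, v ∈ V i then
      (if v ∈ pl h.choose then u (x h.choose) + ((pl h.choose).idxOf v : ℤ) * I h.choose else 0)
    else u v
  have hch : ∀ i ∈ A, ∀ v ∈ V i, u' v =
      if v ∈ pl i then u (x i) + ((pl i).idxOf v : ℤ) * I i else 0 := by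
    intro i hi v hv
    have hex : ∃ i ∈ A, v ∈ V i := ⟨i, hi, hv⟩
    have h1 : hex.choose = i :=
      huniq _ hex.choose_spec.1 _ hi v (hVW _ _ hex.choose_spec.2) (hVW _ _ hv)
    simp only [u']
    rw [dif_pos hex]
    rw [h1]
  have hout : ∀ v, (∀ i ∈ A, v ∉ V i) → u' v = u v := by
    intro v hv
    simp only [u']
    rw [dif_neg]
    rintro ⟨i, hi, hm⟩
    exact hv i hi hm
  have hval : ∀ i ∈ A, ∀ (k : ℕ) (hk : k < (pl i).length), u' (pl i)[k] = u (x i) + k * I i := by
    intro i hi k hk
    have hP := hpl i hi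
    rcases Nat.eq_zero_or_pos k with rfl | hk0
    · rw [IsP_first hP, hout _ (fun j hj => hxV i hi j hj)]
      simp
    · obtain ⟨l, rfl⟩ : ∃ l, k = l + 1 := ⟨k - 1, by omega⟩
      by_cases hl : l + 2 < (pl i).length
      · rw [hch i hi _ (IsP_mid hP hl), if_pos (List.getElem_mem _),
          List.Nodup.idxOf_getElem hP.nodup]
      · have hlast : l + 1 + 1 = (pl i).length := by omega
        rw [IsP_last hP hlast, hout _ (fun j hj => hyV i hi j hj)]
        have h1 := (hgad i hi).2.1
        have h2 : (pl i).length - 1 = l + 1 := by omega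
        rw [h2] at h1
        simp only [I]
        linear_combination h1
  refine ⟨u', ?_, ?_, hout⟩
  · intro v hvB
    have hEd : ∀ i ∈ A, ∀ j ∈ A, i ≠ j → Disjoint (E i) (E j) := by
      intro i hi j hj hij
      rw [Finset.disjoint_left]
      intro e h1 h2
      exact hij (huniq i hi j hj e.1 (hEV i hi e h1).1 (hEV j hj e h2).1)
    rw [← hu v hvB, Lap_split A E hEd, Lap_split A E hEd]
    congr 1
    · refine sum_congr rfl fun e he => ?_
      rw [Finset.mem_sdiff, Finset.mem_biUnion] at he
      have hno : ∀ i ∈ A, e ∉ E i := fun i hi h => he.2 ⟨i, hi, h⟩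
      have h1 := hω e hno
      by_cases ho : ω e = true
      · have h2 : ∀ i ∈ A, e.1 ∉ V i := by
          intro i hi hm
          have := hcl i hi e (hno i hi) (Or.inl hm)
          rw [ho] at this
          exact absurd this (by simp)
        have h3 : ∀ i ∈ A, hd e ∉ V i := by
          intro i hi hm
          have := hcl i hi e (hno i hi) (Or.inr hm)
          rw [ho] at this
          exact absurd this (by simp)
        have h4 := hout _ h2
        have h5 := hout _ h3
        unfold tm
        rw [h1, if_pos ho, if_pos ho]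
        congr 1
        · split_ifs with hh
          · rw [← hh, h4, h5]
          · rfl
        · split_ifs with hh
          · rw [← hh, h4, h5]
          · rfl
      · have h0 : ω e = false := by simpa using ho
        rw [tm_closed h0, tm_closed (h1.trans h0)]
    · refine sum_congr rfl fun i hi => ?_
      have hP := hpl i hi
      have hPth : Pth (E i) (pl i) ω' := ⟨hP.nodup, hP.chain, honp i hi, hA i hi⟩
      have hlen := hP.len
      by_cases hvW : v ∈ insert (x i) (insert (y i) (V i))
      · rw [mem_insert, mem_insert] at hvW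
        rcases hvW with rfl | rfl | hvV
        · have h1 := hPth.flx_first u' (by omega)
          rw [hval i hi 1 (by omega), hval i hi 0 (by omega), IsP_first hP] at h1
          rw [h1]
          simp [I]
        · obtain ⟨k, hk⟩ : ∃ k, k + 2 = (pl i).length := ⟨(pl i).length - 2, by omega⟩
          have h1 := hPth.flx_last u' hk
          rw [hval i hi k (by omega), hval i hi (k + 1) (by omega),
            IsP_last hP (k := k + 1) (by omega)] at h1
          rw [h1, (hgad i hi).1]
          simp only [I]
          push_cast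
          ring
        · rw [hflV i hi v hvV]
          by_cases hm : v ∈ pl i
          · obtain ⟨k, hk, rfl⟩ := List.getElem_of_mem hm
            have hk0 : k ≠ 0 := by
              rintro rfl
              rw [IsP_first hP] at hvV
              exact hx i hi hvV
            have hk1 : k + 1 ≠ (pl i).length := by
              intro h
              rw [IsP_last hP h] at hvV
              exact hy i hi hvV
            obtain ⟨l, rfl⟩ : ∃ l, k = l + 1 := ⟨k - 1, by omega⟩
            rw [hPth.flx_mid u' (k := l) (by omega), hval i hi l (by omega),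
              hval i hi (l + 1) (by omega), hval i hi (l + 2) (by omega)]
            push_cast
            ring
          · apply hPth.flx_off u' hm
            intro e he h1 h2 _
            have hxp : x i ∈ pl i := by
              rw [← IsP_first hP]; exact List.getElem_mem _
            have hyp : y i ∈ pl i := by
              rw [← IsP_last hP (k := (pl i).length - 1) (by omega)]; exact List.getElem_mem _
            have key : ∀ w, w ∈ insert (x i) (insert (y i) (V i)) → w ∉ pl i → u' w = 0 := by
              intro w hw hwp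
              rw [mem_insert, mem_insert] at hw
              rcases hw with rfl | rfl | hw
              · exact absurd hxp hwp
              · exact absurd hyp hwp
              · rw [hch i hi w hw, if_neg hwp]
            rw [key _ (hEV i hi e he).1 h1, key _ (hEV i hi e he).2 h2]
      · rw [flx_congr_tm, flx_congr_tm]
        · intro e he
          constructor
          · rintro rfl; exact hvW (hEV i hi e he).1
          · rintro rfl; exact hvW (hEV i hi e he).2
        · intro e he
          constructor
          · rintro rfl; exact hvW (hEV i hi e he).1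
          · rintro rfl; exact hvW (hEV i hi e he).2
  · intro i hi k hk
    rw [hval i hi (k + 1) hk, hval i hi k (by omega)]
    have h1 : u (x i) + ((k + 1 : ℕ) : ℤ) * I i - (u (x i) + (k : ℤ) * I i) = I i := by
      push_cast; ring
    rw [h1]
    exact (hgad i hi).2.2

end Pool.Agent.TH974.IH
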