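import Pool.Agent.TH614.HS.Defs2

/-!
# Project HS: the pencil at an isotropic vector (job 3621 of helper614, written by helper615)

The generators through an isotropic vector `(P,Y)` are the roots of the additive polynomial
`P * x^(q^2) + Y * x^q - P^(q^2) * x`.
-/

set_option autoImplicit false

namespace Pool.Agent.TH615.J3621

open Pool.Agent.TH614.HS Polynomial

variable {L : Type} [Field L]

/-- the computation -/
theorem alg {P0 P1 P2 R0 R1 R2 Y Z x w x2 x3 x4 x5 x6 : L} (hP0 : P0 ≠ 0) (hP1 : P1 ≠ 0)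
    (hP2 : P2 ≠ 0) (hR0 : R0 ≠ 0) (hR2 : R2 ≠ 0)
    (iso : Y * Z + (P0 * R0 + P1 * R1 + P2 * R2) = 0)
    (h2 : P0 * x2 = P1 * x - Y * w) (h3 : R2 * x3 = R0 * w - Z * x2)
    (h4 : P1 * x4 = P2 * x2 - Y * x3) (h5 : R0 * x5 = R1 * x3 - Z * x4)
    (h6 : P2 * x6 = P0 * x4 - Y * x5) :
    x6 = x ∧ x * x3 + x2 * x5 + x4 * w = 0 := by
  have e3 : P0 * R2 * x3 = (P0 * R0 + Y * Z) * w - Z * P1 * x := by
    linear_combination P0 * h3 - Z * h2
  have e4 : P0 * R2 * x4 = (P2 * R2 + Y * Z) * x + Y * R1 * w := by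
    apply mul_left_cancel₀ hP1
    linear_combination P0 * R2 * h4 + R2 * P2 * h2 - Y * e3 - Y * w * iso
  have e5 : R2 * x5 = R1 * w + Z * x := by
    apply mul_left_cancel₀ (mul_ne_zero hP0 hR0)
    linear_combination P0 * R2 * h5 + R1 * e3 - Z * e4 - Z * x * iso
  refine ⟨?_, ?_⟩
  · apply mul_left_cancel₀ (mul_ne_zero hP2 hR2)
    linear_combination R2 * h6 + e4 - Y * e5
  · apply mul_left_cancel₀ (mul_ne_zero hP0 hR2)
    linear_combination x * e3 + R2 * x5 * h2 + (P1 * x - Y * w) * e5 + w * e4 + x * w * iso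

/-- the `q`-power map -/
def fr (D : HD L) : L →+* L where
  toFun x := x ^ D.q
  map_one' := one_pow _
  map_mul' := fun x y => mul_pow x y _
  map_zero' := zero_pow (by have := D.h5; omega)
  map_add' := D.add

theorem fr_def (D : HD L) (x : L) : x ^ D.q = fr D x := rfl

theorem fr2 (D : HD L) (x : L) : x ^ (D.q ^ 2) = fr D (fr D x) := by
  show x ^ (D.q ^ 2) = (x ^ D.q) ^ D.q
  rw [← pow_mul]
  congr 1
  ring

theorem fr3 (D : HD L) (x : L) : x ^ (D.q ^ 3) = fr D (fr D (fr D x)) := by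
  show x ^ (D.q ^ 3) = ((x ^ D.q) ^ D.q) ^ D.q
  rw [← pow_mul, ← pow_mul]
  congr 1
  ring

theorem fr4 (D : HD L) (x : L) : x ^ (D.q ^ 4) = fr D (fr D (fr D (fr D x))) := by
  show x ^ (D.q ^ 4) = (((x ^ D.q) ^ D.q) ^ D.q) ^ D.q
  rw [← pow_mul, ← pow_mul, ← pow_mul]
  congr 1
  ring

theorem fr5 (D : HD L) (x : L) : x ^ (D.q ^ 5) = fr D (fr D (fr D (fr D (fr D x)))) := by
  show x ^ (D.q ^ 5) = ((((x ^ D.q) ^ D.q) ^ D.q) ^ D.q) ^ D.q
  rw [← pow_mul, ← pow_mul, ← pow_mul, ← pow_mul]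
  congr 1
  ring

theorem fr6 (D : HD L) (x : L) :
    x ^ (D.q ^ 6) = fr D (fr D (fr D (fr D (fr D (fr D x))))) := by
  show x ^ (D.q ^ 6) = (((((x ^ D.q) ^ D.q) ^ D.q) ^ D.q) ^ D.q) ^ D.q
  rw [← pow_mul, ← pow_mul, ← pow_mul, ← pow_mul, ← pow_mul]
  congr 1
  ring

theorem fr_inj (D : HD L) {x : L} (h : fr D x = 0) : x = 0 :=
  (map_eq_zero (fr D)).1 h

theorem fr_ne (D : HD L) {x : L} (h : x ≠ 0) : fr D x ≠ 0 := fun h' => h (fr_inj D h')

/-- the additive polynomial as a function -/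
def Nf (D : HD L) (P Y x : L) : L := P * fr D (fr D x) + Y * fr D x - fr D (fr D P) * x

/-- roots are generators through `(P,Y)` -/
theorem of_root (D : HD L) {P Y x : L} (hI : D.Iso P Y) (hP : P ≠ 0) (hx : x ≠ 0)
    (h : Nf D P Y x = 0) : D.isL x ∧ D.mem x P Y := by
  obtain ⟨⟨hP6, hY2⟩, hiso⟩ := hI
  have hPt : D.Pt P Y := ⟨hP6, hY2⟩
  rw [fr6] at hP6
  rw [fr2] at hY2
  rw [fr_def, fr_def, fr2, fr3, fr4, fr5] at hiso
  unfold Nf at h
  -- conjugates of the equation
  have g0 : P * fr D (fr D x) = fr D (fr D P) * x - Y * fr D x := by linear_combination h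
  have g1 := congrArg (fr D) g0
  have g2 := congrArg (fr D) g1
  have g3 := congrArg (fr D) g2
  have g4 := congrArg (fr D) g3
  simp only [map_mul, map_sub, hY2, hP6] at g1 g2 g3 g4
  obtain ⟨k1, k2⟩ := alg (P0 := P) (P1 := fr D (fr D P)) (P2 := fr D (fr D (fr D (fr D P))))
    (R0 := fr D (fr D (fr D P))) (R1 := fr D (fr D (fr D (fr D (fr D P))))) (R2 := fr D P)
    (Y := Y) (Z := fr D Y) hP (fr_ne D (fr_ne D hP))
    (fr_ne D (fr_ne D (fr_ne D (fr_ne D hP)))) (fr_ne D (fr_ne D (fr_ne D hP)))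
    (fr_ne D hP) hiso g0 g1 g2 g3 g4
  refine ⟨⟨hx, ?_, ?_⟩, hPt, ?_⟩
  · rw [fr6]
    exact k1
  · rw [fr_def, fr2, fr3, fr4, fr5]
    exact k2
  · rw [fr2, fr2, fr3, fr4, fr4]
    linear_combination -g2

/-- generators through `(P,Y)` are roots -/
theorem root_of (D : HD L) {P Y x : L} (hL : D.isL x) (hm : D.mem x P Y) : Nf D P Y x = 0 := by
  obtain ⟨hx, hx6, -⟩ := hL
  obtain ⟨⟨hP6, hY2⟩, h⟩ := hm
  rw [fr6] at hP6 hx6
  rw [fr2] at hY2
  rw [fr2, fr2, fr3, fr4, fr4] at h
  have g1 := congrArg (fr D) h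
  have g2 := congrArg (fr D) g1
  have g3 := congrArg (fr D) g2
  have g4 := congrArg (fr D) g3
  simp only [map_mul, map_sub, hY2, hP6, hx6] at g4
  unfold Nf
  linear_combination -g4

/-- two independent roots -/
theorem exists_basis [IsAlgClosed L] (D : HD L) {P Y : L} (hP : P ≠ 0) :
    ∃ a t : L, a ≠ 0 ∧ fr D t ≠ t ∧ Nf D P Y a = 0 ∧ Nf D P Y (a * t) = 0 := by
  have hq := D.h5
  have hP1 : fr D (fr D P) ≠ 0 := fr_ne D (fr_ne D hP)
  -- a nonzero root
  obtain ⟨a, ha⟩ : ∃ a : L, P * a ^ (D.q ^ 2 - 1) + Y * a ^ (D.q - 1) - fr D (fr D P) = 0 := by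
    have hdeg : (C P * X ^ (D.q ^ 2 - 1) + C Y * X ^ (D.q - 1) - C (fr D (fr D P)) :
        L[X]).degree ≠ 0 := by
      have h1 : D.q - 1 < D.q ^ 2 - 1 := by
        have : D.q < D.q ^ 2 := by nlinarith
        omega
      have h2 : (C P * X ^ (D.q ^ 2 - 1) : L[X]).degree = ((D.q ^ 2 - 1 : ℕ) : WithBot ℕ) :=
        degree_C_mul_X_pow _ hP
      have h3 : (C Y * X ^ (D.q - 1) : L[X]).degree < ((D.q ^ 2 - 1 : ℕ) : WithBot ℕ) :=
        lt_of_le_of_lt (degree_C_mul_X_pow_le _ _) (by exact_mod_cast h1)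
      have h4 : (C (fr D (fr D P)) : L[X]).degree < ((D.q ^ 2 - 1 : ℕ) : WithBot ℕ) :=
        lt_of_le_of_lt degree_C_le (by
          have : 0 < D.q ^ 2 - 1 := by omega
          exact_mod_cast this)
      have h5 : (C P * X ^ (D.q ^ 2 - 1) + C Y * X ^ (D.q - 1) : L[X]).degree =
          ((D.q ^ 2 - 1 : ℕ) : WithBot ℕ) := by
        rw [degree_add_eq_left_of_degree_lt (by rw [h2]; exact h3), h2]
      rw [degree_sub_eq_left_of_degree_lt (by rw [h5]; exact h4), h5]
      have : D.q ^ 2 - 1 ≠ 0 := by omega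
      exact_mod_cast this
    obtain ⟨a, ha⟩ := IsAlgClosed.exists_root _ hdeg
    refine ⟨a, ?_⟩
    simpa [IsRoot] using ha
  have ha0 : a ≠ 0 := by
    rintro rfl
    rw [zero_pow (by have : D.q < D.q ^ 2 := by nlinarith
                     omega), zero_pow (by omega)] at ha
    apply hP1
    linear_combination -ha
  have hNa : Nf D P Y a = 0 := by
    unfold Nf
    rw [← fr2, ← fr_def]
    have e1 : a ^ (D.q ^ 2) = a ^ (D.q ^ 2 - 1) * a := by
      rw [← pow_succ]
      congr 1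
      have : 0 < D.q ^ 2 := by positivity
      omega
    have e2 : a ^ D.q = a ^ (D.q - 1) * a := by
      rw [← pow_succ]
      congr 1
      omega
    rw [e1, e2]
    linear_combination a * ha
  -- the second root
  have hc0 : P * fr D (fr D a) ≠ 0 := mul_ne_zero hP (fr_ne D (fr_ne D ha0))
  obtain ⟨r, hr⟩ := IsAlgClosed.exists_pow_nat_eq (-(fr D (fr D P) * a) / (P * fr D (fr D a)))
    (show 0 < D.q - 1 by omega)
  have hr0 : r ≠ 0 := by
    rintro rfl
    rw [zero_pow (by omega)] at hr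
    have h1 : -(fr D (fr D P) * a) / (P * fr D (fr D a)) ≠ 0 :=
      div_ne_zero (neg_ne_zero.2 (mul_ne_zero hP1 ha0)) hc0
    exact h1 hr.symm
  have hrq : P * fr D (fr D a) * fr D r + fr D (fr D P) * a * r = 0 := by
    rw [eq_div_iff hc0] at hr
    have e2 : fr D r = r ^ (D.q - 1) * r := by
      rw [← fr_def, ← pow_succ]
      congr 1
      omega
    rw [e2]
    linear_combination r * hr
  obtain ⟨t, ht⟩ : ∃ t : L, t ^ D.q - t - r = 0 := by
    have hdeg : (X ^ D.q - X - C r : L[X]).degree ≠ 0 := by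
      have h2 : (X ^ D.q : L[X]).degree = ((D.q : ℕ) : WithBot ℕ) := degree_X_pow _
      have h3 : (X : L[X]).degree < ((D.q : ℕ) : WithBot ℕ) := by
        rw [degree_X]
        exact_mod_cast (show 1 < D.q by omega)
      have h4 : (C r : L[X]).degree < ((D.q : ℕ) : WithBot ℕ) :=
        lt_of_le_of_lt degree_C_le (by exact_mod_cast (show 0 < D.q by omega))
      have h5 : (X ^ D.q - X : L[X]).degree = ((D.q : ℕ) : WithBot ℕ) := by
        rw [degree_sub_eq_left_of_degree_lt (by rw [h2]; exact h3), h2]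
      rw [degree_sub_eq_left_of_degree_lt (by rw [h5]; exact h4), h5]
      exact_mod_cast (show D.q ≠ 0 by omega)
    obtain ⟨t, ht⟩ := IsAlgClosed.exists_root _ hdeg
    refine ⟨t, ?_⟩
    simpa [IsRoot] using ht
  rw [fr_def] at ht
  have ht' : fr D t = t + r := by linear_combination ht
  refine ⟨a, t, ha0, ?_, hNa, ?_⟩
  · intro h
    apply hr0
    linear_combination h - ht'
  · unfold Nf at hNa ⊢
    simp only [map_mul, ht', map_add]
    linear_combination t * hNa + hrq + r * hNa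

theorem PEN : S_PEN := by
  intro L _ _ D P Y hI hne
  have hP : P ≠ 0 := by
    rintro rfl
    have h := hI.2
    rw [zero_mul] at h
    have e1 : (0 : L) ^ (D.q ^ 2) = 0 := by rw [fr2, map_zero, map_zero]
    have e2 : (0 : L) ^ (D.q ^ 4) = 0 := by rw [fr4, map_zero, map_zero, map_zero, map_zero]
    rw [e1, e2, zero_mul, zero_mul, add_zero, add_zero, add_zero, fr_def, mul_eq_zero] at h
    have hY : Y ≠ 0 := by
      rcases hne with h1 | h1
      · exact absurd rfl h1
      · exact h1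
    rcases h with h | h
    · exact hY h
    · exact hY (fr_inj D h)
  obtain ⟨a, t, ha0, ht, hNa, hNb⟩ := exists_basis D (P := P) (Y := Y) hP
  have ht0 : t ≠ 0 := by
    rintro rfl
    exact ht (map_zero _)
  have hb0 : a * t ≠ 0 := mul_ne_zero ha0 ht0
  obtain ⟨ha1, ha2⟩ := of_root D hI hP ha0 hNa
  obtain ⟨hb1, hb2⟩ := of_root D hI hP hb0 hNb
  refine ⟨hP, a, a * t, ha1, hb1, ha2, hb2, ?_, ?_, ?_⟩
  · intro u v hu hv h
    rw [fr_def] at hu hv
    have h1 : u + v * t = 0 := by
      have : a * (u + v * t) = 0 := by linear_combination h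
      rcases mul_eq_zero.1 this with h' | h'
      · exact absurd h' ha0
      · exact h'
    have hv0 : v = 0 := by
      by_contra hv0
      apply ht
      have h2 := congrArg (fr D) h1
      simp only [map_add, map_mul, map_zero, hu, hv] at h2
      apply mul_left_cancel₀ hv0
      linear_combination h2 - h1
    refine ⟨?_, hv0⟩
    rw [hv0] at h1
    linear_combination h1
  · intro x hx hm
    have hN := root_of D hx hm
    -- the Moore determinant
    have hfa := fr_ne D ha0
    have hd : fr D t - t ≠ 0 := sub_ne_zero.2 ht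
    obtain ⟨v, hv⟩ : ∃ v : L, v = (fr D x / fr D a - x / a) / (fr D t - t) := ⟨_, rfl⟩
    obtain ⟨u, hu⟩ : ∃ u : L, u = x / a - v * t := ⟨_, rfl⟩
    have e1 : x = u * a + v * (a * t) := by
      rw [hu]
      field_simp
      ring
    have e2 : fr D x = u * fr D a + v * (fr D a * fr D t) := by
      have e3 : v * (fr D t - t) = fr D x / fr D a - x / a := by
        rw [hv, div_mul_cancel₀ _ hd]
      have e4 : fr D x / fr D a = u + v * fr D t := by
        rw [hu]
        linear_combination -e3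
      rw [div_eq_iff hfa] at e4
      rw [e4]
      ring
    have e5 : fr D (fr D x) = u * fr D (fr D a) + v * (fr D (fr D a) * fr D (fr D t)) := by
      unfold Nf at hN hNa hNb
      simp only [map_mul] at hNb
      apply mul_left_cancel₀ hP
      linear_combination hN - u * hNa - v * hNb - Y * e2 + fr D (fr D P) * e1
    have f1 : (fr D u - u) + (fr D v - v) * fr D t = 0 := by
      have h := congrArg (fr D) e1
      simp only [map_add, map_mul] at h
      apply mul_left_cancel₀ hfa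
      linear_combination e2 - h
    have f2 : (fr D u - u) + (fr D v - v) * fr D (fr D t) = 0 := by
      have h := congrArg (fr D) e2
      simp only [map_add, map_mul] at h
      apply mul_left_cancel₀ (fr_ne D hfa)
      linear_combination e5 - h
    have f3 : (fr D v - v) * fr D (fr D t - t) = 0 := by
      rw [map_sub]
      linear_combination f2 - f1
    have f4 : fr D v - v = 0 := by
      rcases mul_eq_zero.1 f3 with h | h
      · exact h
      · exact absurd h (fr_ne D hd)
    have f5 : fr D u - u = 0 := by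
      rw [f4] at f1
      linear_combination f1
    refine ⟨u, v, ?_, ?_, e1⟩
    · rw [fr_def]
      linear_combination f5
    · rw [fr_def]
      linear_combination f4
  · intro u v hu hv hne'
    rw [fr_def] at hu hv
    apply of_root D hI hP hne'
    unfold Nf at hNa hNb ⊢
    simp only [map_add, map_mul, hu, hv] at hNb ⊢
    linear_combination u * hNa + v * hNb

end Pool.Agent.TH615.J3621
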