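import Pool.Agent.TH614.HS.Base

/-!
# Project HS: the signs of two circle roots (job 3871 of helper614, written by helper615)
-/

set_option autoImplicit false

namespace Pool.Agent.TH615.J3871

open Pool.Agent.TH614.HS

/-- the coefficient equations of a root datum -/
theorem coef {L : Type} [Field L] {th x0 x1 x2 y0 y1 y2 s mu eta : L}
    (h : PL x0 x1 x2 y0 y1 y2) (hs : s ≠ 0) (hR : RDa th x0 x1 x2 y0 y1 y2 s mu eta) :
    x0 ^ 2 * (s * (1 - eta ^ 2)) = y1 * y2 ∧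
    x0 ^ 2 * (s ^ 2 * (2 * mu * eta + th)) = x2 * y2 - x1 * y1 ∧
    x0 ^ 2 * (s ^ 3 * (mu ^ 2 - 1)) = x1 * x2 := by
  have hx0 : x0 ≠ 0 := h.1
  have e : ∀ P0 Y : L, x0 ^ 2 * s * (Y ^ 2 - th * s * P0 * Y + s ^ 2 * P0 ^ 2) +
      (x1 * P0 + Y * y2) * (x2 * P0 - Y * y1) = x0 ^ 2 * s * (mu * s * P0 + eta * Y) ^ 2 := by
    intro P0 Y
    have h1 := hR _ _ _ _ (OnL.param h P0 Y)
    rw [← h1]
    unfold Dq
    field_simp
  have e10 := e 1 0
  have e01 := e 0 1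
  have e11 := e 1 1
  refine ⟨?_, ?_, ?_⟩
  · linear_combination e01
  · linear_combination e10 + e01 - e11
  · linear_combination -e10

/-- the algebra -/
theorem alg {L : Type} [Field L] {th w xi eta mu' eta' : L} (hth : th ^ 2 = 3) (h2 : (2 : L) ≠ 0)
    (hw : w ≠ 0) (A1 : (1 + w) * eta' ^ 2 = w + eta ^ 2)
    (A2 : 2 * (1 + w) ^ 2 * mu' * eta' = 2 * (w * xi - th * eta) * eta + th * (1 - (1 + w) ^ 2))
    (A3 : (1 + w) ^ 3 * mu' ^ 2 = (1 + w) ^ 3 + (w * xi - th * eta) ^ 2 - 1) :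
    (1 + w) * eta' ^ 2 = -(2 * xi + th * eta) ^ 2 ∧
    (1 + w) ^ 2 * (eta' * (th * mu' + 2 * eta')) =
      (2 * xi + th * eta) * (2 * xi + th * eta - w * xi) := by
  have key : 4 * (w + eta ^ 2) * ((1 + w) ^ 3 + (w * xi - th * eta) ^ 2 - 1) =
      (2 * (w * xi - th * eta) * eta + th * (1 - (1 + w) ^ 2)) ^ 2 := by
    rw [← A1, ← A2, ← A3]
    ring
  have cub : w + 4 * (xi ^ 2 + th * eta * xi + eta ^ 2) = 0 := by
    have h : w * w ^ 2 * (w + 4 * (xi ^ 2 + th * eta * xi + eta ^ 2)) = w * w ^ 2 * 0 := by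
      linear_combination key + (w ^ 2 * (2 + w) ^ 2 - 4 * w * eta ^ 2 * (2 + w) -
        4 * w * eta ^ 2 + 4 * eta ^ 2 * (3 * w + w ^ 2) + 4 * w * eta ^ 2 + 4 * w ^ 2 * eta ^ 2) * hth
    exact mul_left_cancel₀ (mul_ne_zero hw (pow_ne_zero 2 hw)) h
  have B1 : (1 + w) * eta' ^ 2 = -(2 * xi + th * eta) ^ 2 := by
    linear_combination A1 + cub + eta ^ 2 * hth
  refine ⟨B1, ?_⟩
  apply mul_left_cancel₀ h2
  linear_combination th * A2 + 4 * (1 + w) * B1 - (6 + 3 * w) * cub +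
    (-2 * eta ^ 2 - (2 * w + w ^ 2) - (6 + 4 * w) * eta ^ 2) * hth

theorem C4 : S_C4 := by
  intro L _ _ D x s mu eta ep s' mu' eta' ep' hx hs hs' hne hR hR' hm hE hE'
  obtain ⟨hs0, hRa⟩ := hR
  obtain ⟨hs0', hRa'⟩ := hR'
  obtain ⟨hep, hE1, hE2⟩ := hE
  obtain ⟨hep', hE1', hE2'⟩ := hE'
  have hth := D.th2
  have h2 := D.two_ne
  have hx0 := hx.ne
  obtain ⟨c1, c2, c3⟩ := coef hx.PL hs0 hRa
  obtain ⟨d1, d2, d3⟩ := coef hx.PL hs0' hRa'
  have hxx : x ^ 2 ≠ 0 := pow_ne_zero 2 hx0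
  have f1 := mul_left_cancel₀ hxx (c1.trans d1.symm)
  have f2 := mul_left_cancel₀ hxx (c2.trans d2.symm)
  have f3 := mul_left_cancel₀ hxx (c3.trans d3.symm)
  -- the ratio
  obtain ⟨w, hw⟩ : ∃ w : L, w = s' / s - 1 := ⟨_, rfl⟩
  have hs'w : s' = (1 + w) * s := by
    rw [hw]
    field_simp
    ring
  have hw0 : w ≠ 0 := by
    rintro rfl
    apply hne
    rw [hs'w]
    ring
  have hw1 : 1 + w ≠ 0 := by
    intro h
    rw [h, zero_mul] at hs'w
    exact hs0' hs'w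
  obtain ⟨xi, hxi⟩ : ∃ xi : L, xi = (mu + D.th * eta) / w := ⟨_, rfl⟩
  have hmw : mu + D.th * eta = w * xi := by
    rw [hxi]
    field_simp
  have hmu : mu = w * xi - D.th * eta := by linear_combination hmw
  have A1 : (1 + w) * eta' ^ 2 = w + eta ^ 2 := by
    apply mul_left_cancel₀ hs0
    rw [hs'w] at f1
    linear_combination f1
  have A2 : 2 * (1 + w) ^ 2 * mu' * eta' =
      2 * (w * xi - D.th * eta) * eta + D.th * (1 - (1 + w) ^ 2) := by
    apply mul_left_cancel₀ (pow_ne_zero 2 hs0)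
    rw [hs'w, hmu] at f2
    linear_combination -f2
  have A3 : (1 + w) ^ 3 * mu' ^ 2 = (1 + w) ^ 3 + (w * xi - D.th * eta) ^ 2 - 1 := by
    apply mul_left_cancel₀ (pow_ne_zero 3 hs0)
    rw [hs'w, hmu] at f3
    linear_combination -f3
  obtain ⟨B1, B2⟩ := alg hth h2 hw0 A1 A2 A3
  obtain ⟨y, hy⟩ : ∃ y : L, y = 2 * xi + D.th * eta := ⟨_, rfl⟩
  rw [← hy] at B1 B2
  -- the `q^3`-power map
  obtain ⟨σ, hσ⟩ : ∃ σ : L →+* L, ∀ z, z ^ (D.q ^ 3) = σ z := ⟨D.frn 3, fun z => rfl⟩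
  have hσth : σ D.th = -D.th := by rw [← hσ, D.th_q3]
  have hσs : σ s = s⁻¹ := by rw [← hσ, hs.inv]
  have hσs' : σ s' = s'⁻¹ := by rw [← hσ, hs'.inv]
  rw [hσ, hσ] at hE1 hE2 hE1' hE2'
  have hσx : σ x ≠ 0 := by
    rw [← hσ]
    exact pow_ne_zero _ hx0
  obtain ⟨k, hk⟩ : ∃ k : L, k = s ^ 2 * x / σ x := ⟨_, rfl⟩
  have hk0 : k ≠ 0 := by
    rw [hk]
    exact div_ne_zero (mul_ne_zero (pow_ne_zero 2 hs0) hx0) hσx
  have hk' : s' ^ 2 * x / σ x = (1 + w) ^ 2 * k := by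
    rw [hk, hs'w]
    ring
  rw [← hk] at hE1 hE2
  rw [hk'] at hE1' hE2'
  have hep0 : ep ≠ 0 := by
    rcases hep with h | h <;> rw [h]
    · exact one_ne_zero
    · exact neg_ne_zero.2 one_ne_zero
  have hep2 : ep' * ep' = 1 := by
    rcases hep' with h | h <;> rw [h] <;> ring
  -- conjugates
  have hσm : σ (w * xi) = -(ep * k) * (w * xi) := by
    rw [← hmw, map_add, map_mul, hσth, hE1, hE2]
    linear_combination -(ep * mu * k) * hth
  have hσw1 : σ (1 + w) = (1 + w)⁻¹ := by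
    have e1 : σ s' = σ (1 + w) * σ s := by rw [← map_mul, ← hs'w]
    rw [hσs, hσs', hs'w, mul_inv] at e1
    exact (mul_right_cancel₀ (inv_ne_zero hs0) e1).symm
  have hσw : (1 + w) * σ w = -w := by
    have e1 : σ w = (1 + w)⁻¹ - 1 := by
      rw [← hσw1, map_add, map_one]
      ring
    rw [e1, mul_sub, mul_inv_cancel₀ hw1]
    ring
  have hσxi : σ xi = ep * k * ((1 + w) * xi) := by
    apply mul_left_cancel₀ hw0
    rw [map_mul] at hσm
    linear_combination σ xi * hσw - (1 + w) * hσm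
  have hσy : σ y = ep * k * (y - w * xi) := by
    rw [hy, map_add, map_mul, map_mul, map_ofNat, hσth, hσxi, hE2]
    linear_combination (-(ep * k * mu)) * hth - 3 * ep * k * hmu
  have hwxi : w * xi ≠ 0 := by
    rw [← hmw]
    exact hm
  have hyw : y - w * xi ≠ 0 := by
    intro h
    rw [h, mul_zero] at hσy
    have hy0 : y = 0 := (map_eq_zero σ).1 hσy
    rw [hy0, zero_sub] at h
    exact hwxi (neg_eq_zero.1 h)
  have hy0 : y ≠ 0 := by
    intro h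
    rw [h, map_zero] at hσy
    rcases mul_eq_zero.1 hσy.symm with h' | h'
    · exact mul_ne_zero hep0 hk0 h'
    · rw [h] at hyw
      exact hyw h'
  -- the square root of the ratio
  obtain ⟨kk, hkk⟩ := IsAlgClosed.exists_pow_nat_eq (1 + w) (show 0 < 2 by norm_num)
  have hkk0 : kk ≠ 0 := by
    rintro rfl
    rw [zero_pow two_ne_zero] at hkk
    exact hw1 hkk.symm
  obtain ⟨j, hj2, hσj, hj⟩ : ∃ j : L, j ^ 2 = -1 ∧ σ j = j ∧ kk * eta' = j * y := by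
    have e1 : (kk * eta') ^ 2 = (D.ii * y) ^ 2 := by
      rw [mul_pow, mul_pow, hkk, D.ii2, B1]
      ring
    have e2 : σ D.ii = D.ii := by rw [← hσ, D.ii_n]
    rcases sq_eq_sq_iff_eq_or_eq_neg.1 e1 with h | h
    · exact ⟨D.ii, D.ii2, e2, h⟩
    · refine ⟨-D.ii, ?_, ?_, ?_⟩
      · rw [neg_sq, D.ii2]
      · rw [map_neg, e2]
      · rw [h]
        ring
  have B3 : (1 + w) ^ 2 * (j * (D.th * mu' + 2 * eta')) = (y - w * xi) * kk := by
    apply mul_left_cancel₀ hy0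
    linear_combination kk * B2 - (1 + w) ^ 2 * (D.th * mu' + 2 * eta') * hj
  have B4 : σ kk * σ eta' = j * (ep * k * (y - w * xi)) := by
    rw [← map_mul, hj, map_mul, hσj, hσy]
  have B5 : j * σ eta' = ep' * k * ((y - w * xi) * kk) := by
    rw [hE2']
    linear_combination ep' * k * B3
  have B6 : kk * σ kk * ep' = -ep := by
    apply mul_left_cancel₀ (mul_ne_zero hk0 hyw)
    linear_combination j * B4 - σ kk * B5 + ep * k * (y - w * xi) * hj2
  have B7 : ep * ep' = -(kk * σ kk) := by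
    linear_combination ep' * B6 - kk * σ kk * hep2
  have B8 : (kk * σ kk) ^ 2 = 1 := by
    rw [mul_pow, ← map_pow, hkk, hσw1, mul_inv_cancel₀ hw1]
  -- the norm
  have hN : D.Nm s * D.Nm s' = ((s * kk) ^ (1 + D.q ^ 2 + D.q ^ 4)) ^ 2 := by
    unfold HD.Nm
    rw [hs'w, ← hkk]
    ring
  have hq1 : 2 * ((D.q + 1) / 2) = D.q + 1 := by
    have := D.h4
    omega
  have hexp : (1 + D.q ^ 2 + D.q ^ 4) * (D.q + 1) = (D.q ^ 3 + 1) * (1 + D.q + D.q ^ 2) := by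
    ring
  have hc : (s * kk) ^ (D.q ^ 3 + 1) = kk * σ kk := by
    rw [mul_pow, hs, one_mul, pow_succ, hσ]
    ring
  obtain ⟨r, hr⟩ : ∃ r : ℕ, 1 + D.q + D.q ^ 2 = 2 * r + 1 := by
    obtain ⟨r, hr⟩ := Nat.even_mul_succ_self D.q
    refine ⟨r, ?_⟩
    have e1 : 1 + D.q + D.q ^ 2 = D.q * (D.q + 1) + 1 := by ring
    omega
  rw [B7, hN, ← pow_mul, hq1, ← pow_mul, hexp, pow_mul, hc, hr, pow_succ, pow_mul, B8, one_pow,
    one_mul]

end Pool.Agent.TH615.J3871
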