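import Pool.Agent.TH490.StmG

/-!
Common tools for the jobs MP325-G4a and MP325-G4c: primitive vectors, the sum over normals of
planes through a pair of points, and Abel summation.
-/

set_option autoImplicit false

namespace Pool.Agent.TH615.MP325

open Pool.Agent.TH490 Finset Classical

noncomputable section

/-! ### vectors -/

theorem mem_cube {K : ℕ} {a : V3} : a ∈ cube K ↔ nrm a ≤ K := by
  unfold cube nrm
  rw [Fintype.mem_piFinset]
  constructor
  · intro h
    have h0 := h 0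
    have h1 := h 1
    have h2 := h 2
    rw [Finset.mem_Icc] at h0 h1 h2
    refine max_le ?_ (max_le ?_ ?_) <;> omega
  · intro h i
    rw [Finset.mem_Icc]
    have h0 : (a 0).natAbs ≤ K := le_trans (le_max_left _ _) h
    have h1 : (a 1).natAbs ≤ K := le_trans (le_trans (le_max_left _ _) (le_max_right _ _)) h
    have h2 : (a 2).natAbs ≤ K := le_trans (le_trans (le_max_right _ _) (le_max_right _ _)) h
    fin_cases i
    · show -(K : ℤ) ≤ a 0 ∧ a 0 ≤ K
      omega
    · show -(K : ℤ) ≤ a 1 ∧ a 1 ≤ K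
      omega
    · show -(K : ℤ) ≤ a 2 ∧ a 2 ≤ K
      omega

theorem cont_dvd (w : V3) (i : Fin 3) : (cont w : ℤ) ∣ w i := by
  have h : ∀ j : Fin 3, cont w ∣ (w j).natAbs := by
    intro j
    unfold cont
    fin_cases j
    · exact Nat.gcd_dvd_left _ _
    · exact (Nat.gcd_dvd_right _ _).trans (Nat.gcd_dvd_left _ _)
    · exact (Nat.gcd_dvd_right _ _).trans (Nat.gcd_dvd_right _ _)
  exact Int.natCast_dvd.mpr (h i)

theorem cont_pos {w : V3} (hw : w ≠ 0) : 0 < cont w := by
  rcases Nat.eq_zero_or_pos (cont w) with h | h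
  · exfalso
    apply hw
    funext i
    have := cont_dvd w i
    rw [h] at this
    simpa using this
  · exact h

/-- the primitive vector parallel to `w` -/
def prm (w : V3) : V3 := fun i => w i / (cont w : ℤ)

theorem prm_spec (w : V3) (i : Fin 3) : w i = (cont w : ℤ) * prm w i :=
  (Int.mul_ediv_cancel' (cont_dvd w i)).symm

theorem cont_mul (g : ℕ) (v : V3) : cont (fun i => (g : ℤ) * v i) = g * cont v := by
  unfold cont
  simp only [Int.natAbs_mul, Int.natAbs_natCast]
  rw [Nat.gcd_mul_left, Nat.gcd_mul_left]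

theorem prm_prim {w : V3} (hw : w ≠ 0) : Prim (prm w) := by
  have h1 : cont (fun i => (cont w : ℤ) * prm w i) = cont w * cont (prm w) := cont_mul _ _
  have h2 : (fun i => (cont w : ℤ) * prm w i) = w := by
    funext i
    exact (prm_spec w i).symm
  rw [h2] at h1
  have h3 := cont_pos hw
  unfold Prim
  have h4 : cont w * cont (prm w) = cont w * 1 := by omega
  exact Nat.eq_of_mul_eq_mul_left h3 h4

theorem dot_prm (w v : V3) : dot w v = (cont w : ℤ) * dot (prm w) v := by
  unfold dot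
  rw [prm_spec w 0, prm_spec w 1, prm_spec w 2]
  have h0 := prm_spec w 0
  have h1 := prm_spec w 1
  have h2 := prm_spec w 2
  rw [← h0, ← h1, ← h2]
  rw [mul_add, mul_add, ← mul_assoc, ← mul_assoc, ← mul_assoc, ← h0, ← h1, ← h2]

theorem dot_prm_zero {w v : V3} (hw : w ≠ 0) (h : dot w v = 0) : dot (prm w) v = 0 := by
  rw [dot_prm] at h
  rcases mul_eq_zero.mp h with h1 | h1
  · have := cont_pos hw
    omega
  · exact h1

theorem dot_cr_left (u v : V3) : dot (cr u v) u = 0 := by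
  unfold dot cr
  simp only [Matrix.cons_val_zero, Matrix.cons_val_one, Matrix.cons_val_two, Matrix.head_cons,
    Matrix.tail_cons]
  ring

theorem dot_cr_right (u v : V3) : dot (cr u v) v = 0 := by
  unfold dot cr
  simp only [Matrix.cons_val_zero, Matrix.cons_val_one, Matrix.cons_val_two, Matrix.head_cons,
    Matrix.tail_cons]
  ring

/-! ### the normals -/

/-- primitive vectors orthogonal to `y - x` of norm in `(M, 2N^2]` -/
def VV {N : ℕ} (M : ℕ) (x y : Pos N) : Finset V3 :=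
  (cube (2 * N ^ 2)).filter (fun ν => Prim ν ∧ M < nrm ν ∧ dot ν (toZ y - toZ x) = 0)

theorem mem_VV {N : ℕ} {M : ℕ} {x y : Pos N} {ν : V3} :
    ν ∈ VV M x y ↔ nrm ν ≤ 2 * N ^ 2 ∧ Prim ν ∧ M < nrm ν ∧ dot ν (toZ y - toZ x) = 0 := by
  unfold VV
  rw [Finset.mem_filter, mem_cube]

theorem lcop_normal (hspan : G1_span) {N M : ℕ} {x y z w : Pos N} (h : LCop M x y z w) :
    prm (cr (toZ y - toZ x) (toZ z - toZ x)) ∈ VV M x y ∧
    dot (prm (cr (toZ y - toZ x) (toZ z - toZ x))) (toZ z - toZ x) = 0 ∧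
    dot (prm (cr (toZ y - toZ x) (toZ z - toZ x))) (toZ w - toZ x) = 0 := by
  obtain ⟨h1, h2, h3⟩ := h
  have hne : cr (toZ y - toZ x) (toZ z - toZ x) ≠ 0 := h2
  have hP := prm_prim hne
  have d1 : dot (prm (cr (toZ y - toZ x) (toZ z - toZ x))) (toZ y - toZ x) = 0 :=
    dot_prm_zero hne (dot_cr_left _ _)
  have d2 : dot (prm (cr (toZ y - toZ x) (toZ z - toZ x))) (toZ z - toZ x) = 0 :=
    dot_prm_zero hne (dot_cr_right _ _)
  have d3 : dot (prm (cr (toZ y - toZ x) (toZ z - toZ x))) (toZ w - toZ x) = 0 :=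
    dot_prm_zero hne h1
  refine ⟨?_, d2, d3⟩
  rw [mem_VV]
  refine ⟨hspan N _ hP x y z d1 d2 h2, hP, ?_, d1⟩
  by_contra hM
  exact h3 ⟨_, hP, not_lt.mp hM, d1, d2, d3⟩

theorem gL_le (hpos : G1_pos) (hspan : G1_span) {N : ℕ} (M : ℕ) (x y : Pos N) :
    (gL M x y : ℝ) ≤ ∑ ν ∈ VV M x y, 324 * (N : ℝ) ^ 4 * (1 / (nrm ν : ℝ) ^ 2) := by
  unfold gL
  rw [Finset.card_eq_sum_card_fiberwise
    (f := fun t : Pos N × Pos N => prm (cr (toZ y - toZ x) (toZ t.1 - toZ x))) (t := VV M x y)]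
  · push_cast
    refine Finset.sum_le_sum ?_
    intro ν hν
    rw [mem_VV] at hν
    obtain ⟨h2N, hP, hM, hd⟩ := hν
    have hν0 : 0 < nrm ν := by omega
    have hν0' : (0 : ℝ) < nrm ν := by exact_mod_cast hν0
    rcases Finset.eq_empty_or_nonempty (Finset.filter
      (fun t : Pos N × Pos N => prm (cr (toZ y - toZ x) (toZ t.1 - toZ x)) = ν)
      (univ.filter (fun t : Pos N × Pos N => LCop M x y t.1 t.2))) with he | hne
    · rw [he]
      simp only [Finset.card_empty, Nat.cast_zero]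
      have : (0 : ℝ) ≤ 1 / (nrm ν : ℝ) ^ 2 := by positivity
      have h4 : (0 : ℝ) ≤ 324 * (N : ℝ) ^ 4 := by positivity
      exact mul_nonneg h4 this
    · obtain ⟨t, ht⟩ := hne
      rw [Finset.mem_filter, Finset.mem_filter] at ht
      obtain ⟨⟨-, hL⟩, hprm⟩ := ht
      obtain ⟨-, k2, k3⟩ := lcop_normal hspan hL
      rw [hprm] at k2 k3
      have hcard := hpos N ν hP x y t.1 hd k2 hL.2.1
      set Q : Finset (Pos N) := univ.filter (fun w : Pos N => dot ν (toZ w - toZ x) = 0) with hQ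
      have hsub : Finset.filter
          (fun t : Pos N × Pos N => prm (cr (toZ y - toZ x) (toZ t.1 - toZ x)) = ν)
          (univ.filter (fun t : Pos N × Pos N => LCop M x y t.1 t.2)) ⊆ Q ×ˢ Q := by
        intro s hs
        rw [Finset.mem_filter, Finset.mem_filter] at hs
        obtain ⟨⟨-, hL'⟩, hprm'⟩ := hs
        obtain ⟨-, k2', k3'⟩ := lcop_normal hspan hL'
        rw [hprm'] at k2' k3'
        rw [Finset.mem_product, hQ, Finset.mem_filter, Finset.mem_filter]
        exact ⟨⟨Finset.mem_univ _, k2'⟩, ⟨Finset.mem_univ _, k3'⟩⟩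
      have hc2 := Finset.card_le_card hsub
      rw [Finset.card_product] at hc2
      have hq : (Q.card : ℝ) * nrm ν ≤ 18 * (N : ℝ) ^ 2 := by exact_mod_cast hcard
      have hq1 : (Q.card : ℝ) ≤ 18 * (N : ℝ) ^ 2 / nrm ν := by
        rw [le_div_iff₀ hν0']
        exact hq
      have hq0 : (0 : ℝ) ≤ Q.card := Nat.cast_nonneg _
      have hc3 : ((Finset.filter
          (fun t : Pos N × Pos N => prm (cr (toZ y - toZ x) (toZ t.1 - toZ x)) = ν)
          (univ.filter (fun t : Pos N × Pos N => LCop M x y t.1 t.2))).card : ℝ)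
            ≤ (Q.card : ℝ) * Q.card := by exact_mod_cast hc2
      calc _ ≤ (Q.card : ℝ) * Q.card := hc3
        _ ≤ (18 * (N : ℝ) ^ 2 / nrm ν) * (18 * (N : ℝ) ^ 2 / nrm ν) :=
          mul_le_mul hq1 hq1 hq0 (le_trans hq0 hq1)
        _ = 324 * (N : ℝ) ^ 4 * (1 / (nrm ν : ℝ) ^ 2) := by
          field_simp
          ring
  · intro t ht
    have ht' : LCop M x y t.1 t.2 := by
      have := Finset.mem_coe.mp ht
      rw [Finset.mem_filter] at this
      exact this.2
    exact Finset.mem_coe.mpr (lcop_normal hspan ht').1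

/-! ### Abel summation -/

theorem tele (g : ℕ → ℝ) (a b : ℕ) (h : a ≤ b) :
    ∑ t ∈ Finset.Ico a b, (g t - g (t + 1)) = g a - g b := by
  induction b, h using Nat.le_induction with
  | base => simp
  | succ n hn ih =>
    rw [Finset.sum_Ico_succ_top hn, ih]
    ring

theorem harm_le (m T : ℕ) (hm : m ≤ T) :
    ∑ t ∈ Finset.Ico (m + 1) (T + 1), 1 / ((t : ℝ) + 1) ≤ Real.log ((T : ℝ) + 1) := by
  have h1 : ∀ t ∈ Finset.Ico (m + 1) (T + 1), 1 / ((t : ℝ) + 1) ≤
      (fun s : ℕ => -Real.log (s : ℝ)) t - (fun s : ℕ => -Real.log (s : ℝ)) (t + 1) := by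
    intro t ht
    rw [Finset.mem_Ico] at ht
    have ht0 : (0 : ℝ) < t := by
      have : 0 < t := by omega
      exact_mod_cast this
    have ht1 : (0 : ℝ) < (t : ℝ) + 1 := by linarith
    have h2 := Real.log_le_sub_one_of_pos (div_pos ht0 ht1)
    rw [Real.log_div ht0.ne' ht1.ne'] at h2
    have h3 : (t : ℝ) / (t + 1) - 1 = -(1 / ((t : ℝ) + 1)) := by
      field_simp
      ring
    rw [h3] at h2
    show 1 / ((t : ℝ) + 1) ≤ -Real.log (t : ℝ) - -Real.log ((t + 1 : ℕ) : ℝ)
    push_cast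
    linarith
  refine (Finset.sum_le_sum h1).trans ?_
  rw [tele _ _ _ (by omega)]
  have h4 : 0 ≤ Real.log ((m + 1 : ℕ) : ℝ) := Real.log_natCast_nonneg _
  push_cast
  push_cast at h4
  linarith

theorem abel {ι : Type*} (V : Finset ι) (f : ι → ℕ) (m T : ℕ) (A B : ℝ) (hA : 0 ≤ A)
    (hB : 0 ≤ B) (hV : ∀ ν ∈ V, m < f ν ∧ f ν ≤ T)
    (hc : ∀ t, m < t → t ≤ T → ((V.filter (fun ν => f ν ≤ t)).card : ℝ) ≤ A + B * (t : ℝ) ^ 2) :
    ∑ ν ∈ V, 1 / (f ν : ℝ) ^ 2 ≤
      A / ((m : ℝ) + 1) ^ 2 + B * (1 + 2 * Real.log ((T : ℝ) + 1)) := by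
  rcases Finset.eq_empty_or_nonempty V with he | ⟨ν₀, hν₀⟩
  · rw [he, Finset.sum_empty]
    have h1 : 0 ≤ Real.log ((T : ℝ) + 1) := by
      apply Real.log_nonneg
      have : (0 : ℝ) ≤ T := Nat.cast_nonneg _
      linarith
    have h2 : 0 ≤ A / ((m : ℝ) + 1) ^ 2 := by positivity
    have h3 : 0 ≤ B * (1 + 2 * Real.log ((T : ℝ) + 1)) := by positivity
    linarith
  · have hmT : m + 1 ≤ T := by
      have := hV ν₀ hν₀
      omega
    set g : ℕ → ℝ := fun t => 1 / (t : ℝ) ^ 2 with hg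
    have hg0 : ∀ t ∈ Finset.Ico (m + 1) (T + 1), 0 ≤ g t - g (t + 1) := by
      intro t ht
      rw [Finset.mem_Ico] at ht
      have ht0 : (0 : ℝ) < t := by
        have : 0 < t := by omega
        exact_mod_cast this
      have : g (t + 1) ≤ g t := by
        rw [hg]
        push_cast
        apply one_div_le_one_div_of_le (by positivity)
        apply pow_le_pow_left₀ ht0.le
        linarith
      linarith
    have e1 : ∀ ν ∈ V, 1 / (f ν : ℝ) ^ 2 =
        g (T + 1) + ∑ t ∈ Finset.Ico (f ν) (T + 1), (g t - g (t + 1)) := by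
      intro ν hν
      rw [tele g _ _ (by have := hV ν hν; omega)]
      show _ = g (T + 1) + (1 / (f ν : ℝ) ^ 2 - g (T + 1))
      ring
    rw [Finset.sum_congr rfl e1, Finset.sum_add_distrib, Finset.sum_const, nsmul_eq_mul]
    have e2 : ∑ ν ∈ V, ∑ t ∈ Finset.Ico (f ν) (T + 1), (g t - g (t + 1)) =
        ∑ t ∈ Finset.Ico (m + 1) (T + 1), ∑ ν ∈ V.filter (fun ν => f ν ≤ t), (g t - g (t + 1)) := by
      apply Finset.sum_comm'
      intro ν t
      rw [Finset.mem_Ico, Finset.mem_Ico, Finset.mem_filter]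
      constructor
      · rintro ⟨h1, h2, h3⟩
        have := hV ν h1
        exact ⟨⟨h1, h2⟩, by omega, h3⟩
      · rintro ⟨⟨h1, h2⟩, h3, h4⟩
        exact ⟨h1, h2, h4⟩
    rw [e2]
    have e3 : ∑ t ∈ Finset.Ico (m + 1) (T + 1), ∑ ν ∈ V.filter (fun ν => f ν ≤ t),
        (g t - g (t + 1)) ≤ ∑ t ∈ Finset.Ico (m + 1) (T + 1),
          (A * (g t - g (t + 1)) + 2 * B * (1 / ((t : ℝ) + 1))) := by
      apply Finset.sum_le_sum
      intro t ht
      have hgt := hg0 t ht
      rw [Finset.mem_Ico] at ht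
      rw [Finset.sum_const, nsmul_eq_mul]
      have ht0 : (0 : ℝ) < t := by
        have : 0 < t := by omega
        exact_mod_cast this
      have h1 := mul_le_mul_of_nonneg_right (hc t (by omega) (by omega)) hgt
      refine h1.trans ?_
      have h2 : (t : ℝ) ^ 2 * (g t - g (t + 1)) ≤ 2 * (1 / ((t : ℝ) + 1)) := by
        rw [hg]
        push_cast
        have h3 : (t : ℝ) ^ 2 * (1 / (t : ℝ) ^ 2 - 1 / ((t : ℝ) + 1) ^ 2) =
            (2 * (t : ℝ) + 1) / ((t : ℝ) + 1) ^ 2 := by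
          field_simp
          ring
        rw [h3, mul_one_div, div_le_div_iff₀ (by positivity) (by positivity)]
        have : (2 * (t : ℝ) + 1) * (t + 1) ≤ (2 * ((t : ℝ) + 1)) * (t + 1) := by
          apply mul_le_mul_of_nonneg_right _ (by linarith)
          linarith
        calc _ ≤ (2 * ((t : ℝ) + 1)) * (t + 1) := this
          _ = 2 * ((t : ℝ) + 1) ^ 2 := by ring
      have h4 := mul_le_mul_of_nonneg_left h2 hB
      calc (A + B * (t : ℝ) ^ 2) * (g t - g (t + 1))
          = A * (g t - g (t + 1)) + B * ((t : ℝ) ^ 2 * (g t - g (t + 1))) := by ring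
        _ ≤ A * (g t - g (t + 1)) + B * (2 * (1 / ((t : ℝ) + 1))) := by linarith
        _ = _ := by ring
    have e4 : ∑ t ∈ Finset.Ico (m + 1) (T + 1),
          (A * (g t - g (t + 1)) + 2 * B * (1 / ((t : ℝ) + 1))) =
          A * (g (m + 1) - g (T + 1)) +
            2 * B * ∑ t ∈ Finset.Ico (m + 1) (T + 1), 1 / ((t : ℝ) + 1) := by
      rw [Finset.sum_add_distrib, ← Finset.mul_sum, ← Finset.mul_sum, tele g _ _ (by omega)]
    have e5 := harm_le m T (by omega)
    have e6 : 2 * B * ∑ t ∈ Finset.Ico (m + 1) (T + 1), 1 / ((t : ℝ) + 1) ≤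
        2 * B * Real.log ((T : ℝ) + 1) := mul_le_mul_of_nonneg_left e5 (by positivity)
    have e7 : (V.card : ℝ) ≤ A + B * (T : ℝ) ^ 2 := by
      have h1 := hc T (by omega) le_rfl
      have h2 : V.filter (fun ν => f ν ≤ T) = V := by
        apply Finset.filter_true_of_mem
        intro ν hν
        exact (hV ν hν).2
      rw [h2] at h1
      exact h1
    have hgT : 0 ≤ g (T + 1) := by
      rw [hg]
      positivity
    have e8 : (V.card : ℝ) * g (T + 1) ≤ A * g (T + 1) + B := by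
      have h1 := mul_le_mul_of_nonneg_right e7 hgT
      have h2 : (T : ℝ) ^ 2 * g (T + 1) ≤ 1 := by
        rw [hg]
        push_cast
        rw [mul_one_div, div_le_one (by positivity)]
        apply pow_le_pow_left₀ (Nat.cast_nonneg _)
        linarith
      have h3 := mul_le_mul_of_nonneg_left h2 hB
      calc (V.card : ℝ) * g (T + 1) ≤ (A + B * (T : ℝ) ^ 2) * g (T + 1) := h1
        _ = A * g (T + 1) + B * ((T : ℝ) ^ 2 * g (T + 1)) := by ring
        _ ≤ A * g (T + 1) + B := by linarith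
    have e9 : A * g (m + 1) = A / ((m : ℝ) + 1) ^ 2 := by
      rw [hg]
      push_cast
      ring
    calc _ ≤ (A * g (T + 1) + B) + (A * (g (m + 1) - g (T + 1)) +
            2 * B * Real.log ((T : ℝ) + 1)) := by linarith
      _ = A * g (m + 1) + B * (1 + 2 * Real.log ((T : ℝ) + 1)) := by ring
      _ = _ := by rw [e9]

/-- `1 + 2 log (2N^2+1) ≤ 10 log N` for `N ≥ 2` -/
theorem log_aux {N : ℕ} (hN : 2 ≤ N) :
    1 + 2 * Real.log (((2 * N ^ 2 : ℕ) : ℝ) + 1) ≤ 10 * Real.log N := by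
  have hN' : (2 : ℝ) ≤ N := by exact_mod_cast hN
  have h1 : Real.log (((2 * N ^ 2 : ℕ) : ℝ) + 1) ≤ Real.log ((N : ℝ) ^ 4) := by
    apply Real.log_le_log
    · positivity
    · push_cast
      have h2 : (4 : ℝ) ≤ (N : ℝ) ^ 2 := by nlinarith
      have h3 : (N : ℝ) ^ 4 = (N : ℝ) ^ 2 * (N : ℝ) ^ 2 := by ring
      rw [h3]
      nlinarith
  rw [Real.log_pow] at h1
  push_cast at h1 ⊢
  have h2 : Real.log 2 ≤ Real.log N := Real.log_le_log (by norm_num) hN'
  have h3 := Real.log_two_gt_d9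
  linarith

end

end Pool.Agent.TH615.MP325
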