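import Pool.Agent.TH458.VC.Defs

/-!
Job 1282: existence of a graph by counting random labelled graphs.
-/

set_option autoImplicit false

namespace Pool.Agent.TH458.VCB

open Pool.Agent.TH458.VC Finset

noncomputable section

open Classical

/-- number of labellings with prescribed label set `A` on `P` -/
theorem count_eq {E : Type} [Fintype E] [DecidableEq E] {q : ℕ} (hq : 1 ≤ q) (P : Finset E)
    (A : Finset (Fin q)) [DecidablePred (fun f : E → Fin q => ∀ e ∈ P, f e ∈ A)] :
    ((univ.filter (fun f : E → Fin q => ∀ e ∈ P, f e ∈ A)).card : ℝ) =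
      (q : ℝ) ^ Fintype.card E * ((A.card : ℝ) / q) ^ P.card := by
  have h1 : univ.filter (fun f : E → Fin q => ∀ e ∈ P, f e ∈ A) =
      Fintype.piFinset (fun e => if e ∈ P then A else univ) := by
    ext f
    simp only [mem_filter, mem_univ, true_and, Fintype.mem_piFinset]
    constructor
    · intro h e
      by_cases he : e ∈ P
      · rw [if_pos he]
        exact h e he
      · rw [if_neg he]
        exact mem_univ _
    · intro h e he
      have := h e
      rwa [if_pos he] at this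
  rw [h1, Fintype.card_piFinset]
  push_cast
  have hq0 : (q : ℝ) ≠ 0 := by
    have : 0 < q := hq
    positivity
  have h2 : ∀ e : E, (((if e ∈ P then A else univ : Finset (Fin q)).card : ℕ) : ℝ) =
      (q : ℝ) * (if e ∈ P then (A.card : ℝ) / q else 1) := by
    intro e
    by_cases he : e ∈ P
    · rw [if_pos he, if_pos he]
      field_simp
    · rw [if_neg he, if_neg he, Finset.card_univ, Fintype.card_fin, mul_one]
  rw [Finset.prod_congr rfl (fun e _ => h2 e), Finset.prod_mul_distrib, Finset.prod_const,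
    Finset.card_univ, Finset.prod_ite_mem, Finset.univ_inter, Finset.prod_const]

/-- the graph of a labelling -/
def Gf {n q : ℕ} (f : Sym2 (Fin n) → Fin q) : SimpleGraph (Fin n) where
  Adj x y := x ≠ y ∧ (f s(x, y)).val = 0
  symm := ⟨fun x y h => ⟨h.1.symm, by rw [Sym2.eq_swap]; exact h.2⟩⟩
  loopless := ⟨fun x h => h.1 rfl⟩

/-- the label `0` -/
def A0 (q : ℕ) : Finset (Fin q) := univ.filter (fun i => i.val = 0)

/-- the other labels -/
def A1 (q : ℕ) : Finset (Fin q) := univ.filter (fun i => ¬ i.val = 0)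

theorem card_A0 {q : ℕ} (hq : 1 ≤ q) : (A0 q).card = 1 := by
  have : A0 q = {⟨0, hq⟩} := by
    ext i
    unfold A0
    rw [mem_filter, mem_singleton, Fin.ext_iff]
    simp
  rw [this, card_singleton]

theorem card_A1 {q : ℕ} (hq : 1 ≤ q) : (A1 q).card = q - 1 := by
  have h1 : (A0 q).card + (A1 q).card = (univ : Finset (Fin q)).card :=
    Finset.card_filter_add_card_filter_not _
  rw [card_A0 hq, card_univ, Fintype.card_fin] at h1
  omega

/-- the pairs of distinct elements of a set -/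
def prs {n : ℕ} (K : Finset (Fin n)) : Finset (Sym2 (Fin n)) := K.offDiag.image (Function.uncurry Sym2.mk)

theorem card_prs {n : ℕ} (K : Finset (Fin n)) : (prs K).card = K.card.choose 2 :=
  Sym2.card_image_offDiag K

theorem mem_prs {n : ℕ} {K : Finset (Fin n)} {e : Sym2 (Fin n)} (he : e ∈ prs K) :
    ∃ x ∈ K, ∃ y ∈ K, x ≠ y ∧ e = s(x, y) := by
  unfold prs at he
  rw [mem_image] at he
  obtain ⟨p, hp, rfl⟩ := he
  rw [mem_offDiag] at hp
  exact ⟨p.1, hp.1, p.2, hp.2.1, hp.2.2, rfl⟩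

/-- union bound -/
theorem union_bound {ι E : Type} [Fintype E] {q : ℕ} (I : Finset ι) (B : Finset (E → Fin q))
    (Q : ι → Finset (E → Fin q)) (c : ℝ) (hB : ∀ f ∈ B, ∃ i ∈ I, f ∈ Q i)
    (hc : ∀ i ∈ I, ((Q i).card : ℝ) ≤ c) : (B.card : ℝ) ≤ I.card * c := by
  have h1 : B ⊆ I.biUnion Q := by
    intro f hf
    rw [mem_biUnion]
    exact hB f hf
  have h2 : B.card ≤ ∑ i ∈ I, (Q i).card := (card_le_card h1).trans card_biUnion_le
  calc (B.card : ℝ) ≤ ((∑ i ∈ I, (Q i).card : ℕ) : ℝ) := by exact_mod_cast h2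
    _ = ∑ i ∈ I, ((Q i).card : ℝ) := by push_cast; rfl
    _ ≤ ∑ i ∈ I, c := Finset.sum_le_sum hc
    _ = I.card * c := by rw [sum_const, nsmul_eq_mul]

theorem clique_count (n k q : ℕ) (hq : 1 ≤ q) :
    ((univ.filter (fun f : Sym2 (Fin n) → Fin q => ¬ (Gf f).CliqueFree k)).card : ℝ) ≤
      (n.choose k : ℝ) * ((q : ℝ) ^ Fintype.card (Sym2 (Fin n)) *
        (1 / (q : ℝ)) ^ (k.choose 2)) := by
  have h := union_bound (q := q) (powersetCard k (univ : Finset (Fin n)))
    (univ.filter (fun f : Sym2 (Fin n) → Fin q => ¬ (Gf f).CliqueFree k))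
    (fun K => univ.filter (fun f : Sym2 (Fin n) → Fin q => ∀ e ∈ prs K, f e ∈ A0 q))
    ((q : ℝ) ^ Fintype.card (Sym2 (Fin n)) * (1 / (q : ℝ)) ^ (k.choose 2)) (by
      intro f hf
      rw [mem_filter] at hf
      have h1 := hf.2
      unfold SimpleGraph.CliqueFree at h1
      push Not at h1
      obtain ⟨K, hK⟩ := h1
      refine ⟨K, ?_, ?_⟩
      · rw [mem_powersetCard]
        exact ⟨subset_univ _, hK.card_eq⟩
      · rw [mem_filter]
        refine ⟨mem_univ _, ?_⟩
        intro e he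
        obtain ⟨x, hx, y, hy, hxy, rfl⟩ := mem_prs he
        have h2 : (Gf f).Adj x y := hK.isClique hx hy hxy
        unfold A0
        rw [mem_filter]
        exact ⟨mem_univ _, h2.2⟩) (by
      intro K hK
      rw [mem_powersetCard] at hK
      rw [count_eq hq, card_prs, hK.2, card_A0 hq, Nat.cast_one])
  rw [card_powersetCard, card_univ, Fintype.card_fin] at h
  exact h

theorem indep_count (n k q : ℕ) (hq : 1 ≤ q) :
    ((univ.filter (fun f : Sym2 (Fin n) → Fin q => ¬ (Gf f)ᶜ.CliqueFree k)).card : ℝ) ≤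
      (n.choose k : ℝ) * ((q : ℝ) ^ Fintype.card (Sym2 (Fin n)) *
        (1 - 1 / (q : ℝ)) ^ (k.choose 2)) := by
  have h := union_bound (q := q) (powersetCard k (univ : Finset (Fin n)))
    (univ.filter (fun f : Sym2 (Fin n) → Fin q => ¬ (Gf f)ᶜ.CliqueFree k))
    (fun K => univ.filter (fun f : Sym2 (Fin n) → Fin q => ∀ e ∈ prs K, f e ∈ A1 q))
    ((q : ℝ) ^ Fintype.card (Sym2 (Fin n)) * (1 - 1 / (q : ℝ)) ^ (k.choose 2)) (by
      intro f hf
      rw [mem_filter] at hf
      have h1 := hf.2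
      unfold SimpleGraph.CliqueFree at h1
      push Not at h1
      obtain ⟨K, hK⟩ := h1
      refine ⟨K, ?_, ?_⟩
      · rw [mem_powersetCard]
        exact ⟨subset_univ _, hK.card_eq⟩
      · rw [mem_filter]
        refine ⟨mem_univ _, ?_⟩
        intro e he
        obtain ⟨x, hx, y, hy, hxy, rfl⟩ := mem_prs he
        have h2 : (Gf f)ᶜ.Adj x y := hK.isClique hx hy hxy
        unfold A1
        rw [mem_filter]
        refine ⟨mem_univ _, ?_⟩
        intro h0
        rw [SimpleGraph.compl_adj] at h2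
        exact h2.2 ⟨hxy, h0⟩) (by
      intro K hK
      rw [mem_powersetCard] at hK
      rw [count_eq hq, card_prs, hK.2, card_A1 hq]
      have hq0 : (q : ℝ) ≠ 0 := by
        have : 0 < q := hq
        positivity
      rw [Nat.cast_sub hq, Nat.cast_one, sub_div, div_self hq0])
  rw [card_powersetCard, card_univ, Fintype.card_fin] at h
  exact h

/-- at least half of the subsets are large -/
theorem many_large {n : ℕ} (S : Finset (Fin n)) (d h : ℕ) (hS : S.card = d + 1)
    (hh : 2 * h ≤ d + 2) : 2 ^ d ≤ (S.powerset.filter (fun T => h ≤ T.card)).card := by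
  have h1 : (S.powerset.filter (fun T => h ≤ T.card)).card +
      (S.powerset.filter (fun T => ¬ h ≤ T.card)).card = S.powerset.card :=
    Finset.card_filter_add_card_filter_not _
  rw [card_powerset, hS] at h1
  have h2 : (S.powerset.filter (fun T => ¬ h ≤ T.card)).card ≤
      (S.powerset.filter (fun T => h ≤ T.card)).card := by
    apply Finset.card_le_card_of_injOn (fun T => S \ T)
    · intro T hT
      have hT' := Finset.mem_coe.mp hT
      rw [mem_filter, mem_powerset] at hT'
      apply Finset.mem_coe.mpr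
      rw [mem_filter, mem_powerset]
      refine ⟨sdiff_subset, ?_⟩
      rw [card_sdiff_of_subset hT'.1]
      omega
    · intro T hT T' hT' hTT
      have hT1 := Finset.mem_coe.mp hT
      have hT2 := Finset.mem_coe.mp hT'
      rw [mem_filter, mem_powerset] at hT1 hT2
      have h3 : S \ (S \ T) = S \ (S \ T') := by
        have : S \ T = S \ T' := hTT
        rw [this]
      rw [Finset.sdiff_sdiff_eq_self hT1.1, Finset.sdiff_sdiff_eq_self hT2.1] at h3
      exact h3
  have h4 : 2 ^ (d + 1) = 2 * 2 ^ d := by ring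
  omega

/-- the functions choosing for every `w ∈ W` an `h`-subset of `S` -/
def chs {n : ℕ} (S W : Finset (Fin n)) (h : ℕ) : Finset (Fin n → Finset (Fin n)) :=
  Fintype.piFinset (fun w => if w ∈ W then S.powersetCard h else {∅})

theorem card_chs {n : ℕ} (S W : Finset (Fin n)) (h d N : ℕ) (hS : S.card = d + 1)
    (hW : W.card = N) : (chs S W h).card ≤ (2 ^ (d + 1)) ^ N := by
  unfold chs
  rw [Fintype.card_piFinset]
  have h2 : ∀ w : Fin n, (if w ∈ W then S.powersetCard h else ({∅} : Finset (Finset (Fin n)))).card =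
      if w ∈ W then (d + 1).choose h else 1 := by
    intro w
    by_cases hw : w ∈ W
    · rw [if_pos hw, if_pos hw, card_powersetCard, hS]
    · rw [if_neg hw, if_neg hw, card_singleton]
  rw [Finset.prod_congr rfl (fun w _ => h2 w), Finset.prod_ite_mem, Finset.univ_inter,
    Finset.prod_const, hW]
  apply Nat.pow_le_pow_left
  exact Nat.choose_le_two_pow _ _

/-- the pairs of a choice -/
def cpr {n : ℕ} (W : Finset (Fin n)) (τ : Fin n → Finset (Fin n)) : Finset (Sym2 (Fin n)) :=
  (W.sigma τ).image (fun p => s(p.1, p.2))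

theorem card_cpr {n : ℕ} (S W : Finset (Fin n)) (h N : ℕ) (hW : W.card = N)
    (hWS : Disjoint W S) (τ : Fin n → Finset (Fin n)) (hτ : τ ∈ chs S W h) :
    (cpr W τ).card = h * N := by
  have hτ' : ∀ w ∈ W, τ w ⊆ S ∧ (τ w).card = h := by
    intro w hw
    unfold chs at hτ
    rw [Fintype.mem_piFinset] at hτ
    have := hτ w
    rw [if_pos hw, mem_powersetCard] at this
    exact this
  unfold cpr
  rw [card_image_of_injOn]
  · rw [card_sigma, Finset.sum_congr rfl (fun w hw => (hτ' w hw).2), sum_const, hW, smul_eq_mul,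
      mul_comm]
  · intro p hp p' hp' hpp
    have h1 := Finset.mem_coe.mp hp
    have h2 := Finset.mem_coe.mp hp'
    rw [mem_sigma] at h1 h2
    have hx : p.2 ∈ S := (hτ' _ h1.1).1 h1.2
    have hx' : p'.2 ∈ S := (hτ' _ h2.1).1 h2.2
    have h3 : s(p.1, p.2) = s(p'.1, p'.2) := hpp
    rw [Sym2.eq_iff] at h3
    rcases h3 with h3 | h3
    · obtain ⟨a, b⟩ := p
      obtain ⟨a', b'⟩ := p'
      obtain ⟨h4, h5⟩ := h3
      simp only at h4 h5
      rw [h4, h5]
    · exfalso
      have h4 : p.1 ∈ S := by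
        rw [h3.1]
        exact hx'
      exact Finset.disjoint_left.mp hWS h1.1 h4

theorem shat_subset {n : ℕ} {G : SimpleGraph (Fin n)} {S S' : Finset (Fin n)} (h : Shat G S)
    (hS : S' ⊆ S) : Shat G S' := by
  intro T hT
  obtain ⟨v, hv⟩ := h T (hT.trans hS)
  exact ⟨v, fun x hx => hv x (hS hx)⟩

/-- a graph that is not of dimension at most `d` contains a dense bipartite pattern -/
theorem pattern {n : ℕ} (G : SimpleGraph (Fin n)) (d N h : ℕ) (hN : N + (d + 1) ≤ 2 ^ d)
    (hh : 2 * h ≤ d + 2) (hG : ¬ VCle G d) :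
    ∃ S W : Finset (Fin n), S.card = d + 1 ∧ W.card = N ∧ Disjoint W S ∧
      ∃ τ ∈ chs S W h, ∀ w ∈ W, ∀ x ∈ τ w, G.Adj w x := by
  unfold VCle at hG
  push Not at hG
  obtain ⟨S₀, hS₀, hcard₀⟩ := hG
  obtain ⟨S, hSS, hS⟩ := Finset.exists_subset_card_eq (show d + 1 ≤ S₀.card by omega)
  have hsh := shat_subset hS₀ hSS
  have hne : Nonempty (Fin n) := by
    have : 0 < S.card := by omega
    obtain ⟨x, -⟩ := Finset.card_pos.mp this
    exact ⟨x⟩
  -- the vertices cutting out the subsets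
  choose! v hv using hsh
  set L := S.powerset.filter (fun T => h ≤ T.card) with hL
  have hinj : Set.InjOn v (L : Set (Finset (Fin n))) := by
    intro T hT T' hT' hTT
    have h1 := Finset.mem_coe.mp hT
    have h2 := Finset.mem_coe.mp hT'
    rw [hL, mem_filter, mem_powerset] at h1 h2
    ext x
    constructor
    · intro hx
      have := (hv T h1.1 x (h1.1 hx)).mpr hx
      rw [hTT] at this
      exact (hv T' h2.1 x (h1.1 hx)).mp this
    · intro hx
      have := (hv T' h2.1 x (h2.1 hx)).mpr hx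
      rw [← hTT] at this
      exact (hv T h1.1 x (h2.1 hx)).mp this
  have hcardV : 2 ^ d ≤ (L.image v).card := by
    rw [card_image_of_injOn hinj]
    exact many_large S d h hS hh
  have hcardV' : N ≤ (L.image v \ S).card := by
    have := Finset.le_card_sdiff S (L.image v)
    rw [hS] at this
    omega
  obtain ⟨W, hWV, hW⟩ := Finset.exists_subset_card_eq hcardV'
  refine ⟨S, W, hS, hW, ?_, ?_⟩
  · rw [Finset.disjoint_left]
    intro w hw hwS
    have := hWV hw
    rw [mem_sdiff] at this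
    exact this.2 hwS
  · have hex : ∀ w, ∃ T : Finset (Fin n), (w ∈ W → T ∈ S.powersetCard h ∧ ∀ x ∈ T, G.Adj w x) ∧
        (w ∉ W → T = ∅) := by
      intro w
      by_cases hw : w ∈ W
      · have h1 := hWV hw
        rw [mem_sdiff, mem_image] at h1
        obtain ⟨⟨T, hT, hvT⟩, -⟩ := h1
        rw [hL, mem_filter, mem_powerset] at hT
        obtain ⟨T', hT', hc⟩ := Finset.exists_subset_card_eq hT.2
        refine ⟨T', ?_, fun h => absurd hw h⟩
        intro _
        rw [mem_powersetCard]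
        refine ⟨⟨hT'.trans hT.1, hc⟩, ?_⟩
        intro x hx
        have := (hv T hT.1 x (hT.1 (hT' hx))).mpr (hT' hx)
        rw [hvT] at this
        exact this
      · exact ⟨∅, fun h => absurd h hw, fun _ => rfl⟩
    choose τ hτ using hex
    refine ⟨τ, ?_, ?_⟩
    · unfold chs
      rw [Fintype.mem_piFinset]
      intro w
      by_cases hw : w ∈ W
      · rw [if_pos hw]
        exact ((hτ w).1 hw).1
      · rw [if_neg hw, mem_singleton]
        exact (hτ w).2 hw
    · intro w hw
      exact ((hτ w).1 hw).2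

theorem vc_count (n d q N h : ℕ) (hq : 1 ≤ q) (hN : N + (d + 1) ≤ 2 ^ d)
    (hh : 2 * h ≤ d + 2) :
    ((univ.filter (fun f : Sym2 (Fin n) → Fin q => ¬ VCle (Gf f) d)).card : ℝ) ≤
      (n.choose (d + 1) : ℝ) * ((n.choose N : ℝ) * (((2 ^ (d + 1)) ^ N : ℝ) *
        ((q : ℝ) ^ Fintype.card (Sym2 (Fin n)) * (1 / (q : ℝ)) ^ (h * N)))) := by
  set M := Fintype.card (Sym2 (Fin n)) with hM
  have hq0 : (0 : ℝ) < q := by
    have : 0 < q := hq
    exact_mod_cast this
  have hpos : (0 : ℝ) ≤ (q : ℝ) ^ M * (1 / (q : ℝ)) ^ (h * N) := by positivity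
  -- fixed `S`, `W`
  have hSW : ∀ S W : Finset (Fin n), S.card = d + 1 → W.card = N →
      ((univ.filter (fun f : Sym2 (Fin n) → Fin q => Disjoint W S ∧
        ∃ τ ∈ chs S W h, ∀ w ∈ W, ∀ x ∈ τ w, (Gf f).Adj w x)).card : ℝ) ≤
        ((2 ^ (d + 1)) ^ N : ℝ) * ((q : ℝ) ^ M * (1 / (q : ℝ)) ^ (h * N)) := by
    intro S W hS hW
    by_cases hd : Disjoint W S
    · have h1 := union_bound (q := q) (chs S W h)
        (univ.filter (fun f : Sym2 (Fin n) → Fin q => Disjoint W S ∧
          ∃ τ ∈ chs S W h, ∀ w ∈ W, ∀ x ∈ τ w, (Gf f).Adj w x))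
        (fun τ => univ.filter (fun f : Sym2 (Fin n) → Fin q => ∀ e ∈ cpr W τ, f e ∈ A0 q))
        ((q : ℝ) ^ M * (1 / (q : ℝ)) ^ (h * N)) (by
          intro f hf
          rw [mem_filter] at hf
          obtain ⟨-, -, τ, hτ, hadj⟩ := hf
          refine ⟨τ, hτ, ?_⟩
          rw [mem_filter]
          refine ⟨mem_univ _, ?_⟩
          intro e he
          unfold cpr at he
          rw [mem_image] at he
          obtain ⟨p, hp, rfl⟩ := he
          rw [mem_sigma] at hp
          unfold A0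
          rw [mem_filter]
          exact ⟨mem_univ _, (hadj p.1 hp.1 p.2 hp.2).2⟩) (by
          intro τ hτ
          rw [count_eq hq, card_cpr S W h N hW hd τ hτ, card_A0 hq, Nat.cast_one])
      refine h1.trans ?_
      apply mul_le_mul_of_nonneg_right _ hpos
      exact_mod_cast card_chs S W h d N hS hW
    · have : (univ.filter (fun f : Sym2 (Fin n) → Fin q => Disjoint W S ∧
          ∃ τ ∈ chs S W h, ∀ w ∈ W, ∀ x ∈ τ w, (Gf f).Adj w x)) = ∅ := by
        apply filter_false_of_mem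
        intro f _ h1
        exact hd h1.1
      rw [this, card_empty, Nat.cast_zero]
      positivity
  -- fixed `S`
  have hSfix : ∀ S : Finset (Fin n), S.card = d + 1 →
      ((univ.filter (fun f : Sym2 (Fin n) → Fin q => ∃ W ∈ powersetCard N (univ : Finset (Fin n)),
        Disjoint W S ∧ ∃ τ ∈ chs S W h, ∀ w ∈ W, ∀ x ∈ τ w, (Gf f).Adj w x)).card : ℝ) ≤
        (n.choose N : ℝ) * (((2 ^ (d + 1)) ^ N : ℝ) *
          ((q : ℝ) ^ M * (1 / (q : ℝ)) ^ (h * N))) := by
    intro S hS
    have h1 := union_bound (q := q) (powersetCard N (univ : Finset (Fin n)))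
      (univ.filter (fun f : Sym2 (Fin n) → Fin q => ∃ W ∈ powersetCard N (univ : Finset (Fin n)),
        Disjoint W S ∧ ∃ τ ∈ chs S W h, ∀ w ∈ W, ∀ x ∈ τ w, (Gf f).Adj w x))
      (fun W => univ.filter (fun f : Sym2 (Fin n) → Fin q => Disjoint W S ∧
        ∃ τ ∈ chs S W h, ∀ w ∈ W, ∀ x ∈ τ w, (Gf f).Adj w x))
      (((2 ^ (d + 1)) ^ N : ℝ) * ((q : ℝ) ^ M * (1 / (q : ℝ)) ^ (h * N))) (by
        intro f hf
        rw [mem_filter] at hf
        obtain ⟨-, W, hW, h2⟩ := hf
        refine ⟨W, hW, ?_⟩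
        rw [mem_filter]
        exact ⟨mem_univ _, h2⟩) (by
        intro W hW
        rw [mem_powersetCard] at hW
        exact hSW S W hS hW.2)
    rw [card_powersetCard, card_univ, Fintype.card_fin] at h1
    exact h1
  have h1 := union_bound (q := q) (powersetCard (d + 1) (univ : Finset (Fin n)))
    (univ.filter (fun f : Sym2 (Fin n) → Fin q => ¬ VCle (Gf f) d))
    (fun S => univ.filter (fun f : Sym2 (Fin n) → Fin q =>
      ∃ W ∈ powersetCard N (univ : Finset (Fin n)),
        Disjoint W S ∧ ∃ τ ∈ chs S W h, ∀ w ∈ W, ∀ x ∈ τ w, (Gf f).Adj w x))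
    ((n.choose N : ℝ) * (((2 ^ (d + 1)) ^ N : ℝ) *
          ((q : ℝ) ^ M * (1 / (q : ℝ)) ^ (h * N)))) (by
      intro f hf
      rw [mem_filter] at hf
      obtain ⟨S, W, hS, hW, hd, hτ⟩ := pattern (Gf f) d N h hN hh hf.2
      refine ⟨S, ?_, ?_⟩
      · rw [mem_powersetCard]
        exact ⟨subset_univ _, hS⟩
      · rw [mem_filter]
        refine ⟨mem_univ _, W, ?_, hd, hτ⟩
        rw [mem_powersetCard]
        exact ⟨subset_univ _, hW⟩) (by
      intro S hS
      rw [mem_powersetCard] at hS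
      exact hSfix S hS.2)
  rw [card_powersetCard, card_univ, Fintype.card_fin] at h1
  exact h1

/-- Random colourings: every pair gets a label in `Fin q`, it is an edge if the label is `0`. -/
theorem exists_graph (n k d q N h : ℕ) (hq : 1 ≤ q) (hN : N + (d + 1) ≤ 2 ^ d)
    (hh : 2 * h ≤ d + 2)
    (hlt : (n.choose k : ℝ) * (1 / (q : ℝ)) ^ (k.choose 2)
      + (n.choose k : ℝ) * (1 - 1 / (q : ℝ)) ^ (k.choose 2)
      + (n.choose (d + 1) : ℝ) * (n.choose N : ℝ) * (2 ^ (d + 1) * (1 / (q : ℝ)) ^ h) ^ N < 1) :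
    ∃ G : SimpleGraph (Fin n), G.CliqueFree k ∧ Gᶜ.CliqueFree k ∧ VCle G d := by
  by_contra hcon
  push Not at hcon
  have hq0 : (0 : ℝ) < q := by
    have : 0 < q := hq
    exact_mod_cast this
  set M := Fintype.card (Sym2 (Fin n)) with hM
  have h1 := clique_count n k q hq
  have h2 := indep_count n k q hq
  have h3 := vc_count n d q N h hq hN hh
  rw [← hM] at h1 h2 h3
  have h4 : (univ : Finset (Sym2 (Fin n) → Fin q)) ⊆
      (univ.filter (fun f : Sym2 (Fin n) → Fin q => ¬ (Gf f).CliqueFree k)) ∪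
      ((univ.filter (fun f : Sym2 (Fin n) → Fin q => ¬ (Gf f)ᶜ.CliqueFree k)) ∪
      (univ.filter (fun f : Sym2 (Fin n) → Fin q => ¬ VCle (Gf f) d))) := by
    intro f _
    rw [mem_union, mem_union, mem_filter, mem_filter, mem_filter]
    by_cases ha : (Gf f).CliqueFree k
    · by_cases hb : (Gf f)ᶜ.CliqueFree k
      · exact Or.inr (Or.inr ⟨mem_univ _, hcon _ ha hb⟩)
      · exact Or.inr (Or.inl ⟨mem_univ _, hb⟩)
    · exact Or.inl ⟨mem_univ _, ha⟩
  have h5 := ((card_le_card h4).trans (card_union_le _ _)).trans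
    (Nat.add_le_add_left (card_union_le _ _) _)
  rw [card_univ, Fintype.card_fun, Fintype.card_fin, ← hM] at h5
  have h6 : (q : ℝ) ^ M ≤
      ((univ.filter (fun f : Sym2 (Fin n) → Fin q => ¬ (Gf f).CliqueFree k)).card : ℝ) +
      (((univ.filter (fun f : Sym2 (Fin n) → Fin q => ¬ (Gf f)ᶜ.CliqueFree k)).card : ℝ) +
      ((univ.filter (fun f : Sym2 (Fin n) → Fin q => ¬ VCle (Gf f) d)).card : ℝ)) := by
    exact_mod_cast h5
  have hqM : (0 : ℝ) < (q : ℝ) ^ M := by positivity
  have h7 : (q : ℝ) ^ M ≤ (q : ℝ) ^ M * ((n.choose k : ℝ) * (1 / (q : ℝ)) ^ (k.choose 2)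
      + (n.choose k : ℝ) * (1 - 1 / (q : ℝ)) ^ (k.choose 2)
      + (n.choose (d + 1) : ℝ) * (n.choose N : ℝ) * (2 ^ (d + 1) * (1 / (q : ℝ)) ^ h) ^ N) := by
    refine h6.trans ((add_le_add h1 (add_le_add h2 h3)).trans (le_of_eq ?_))
    rw [mul_pow (2 ^ (d + 1) : ℝ), ← pow_mul (1 / (q : ℝ)) h N]
    ring
  have h8 := mul_lt_mul_of_pos_left hlt hqM
  linarith

end

end Pool.Agent.TH458.VCB
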